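import Pool.Agent.H4.TP.Defs
import Pool.Agent.H37.TE.Cor

/-! # [H4 TP BND] Polynomial bounds

`bnd`: the set of `P` with the property (for a fixed `κ`) contains the constants `C (C (C c))` (`|c| ≤ 2^|c| ≤ a^|c|`), `C (C X)` (value `a`), `C X` (value `ξ`), `X` (value `Z`) and is closed under sums (`a^C1 + a^C2 ≤ a^(max + 1)`, `a ≥ 2`) and products; `ev3 t x y` is the ring hom `eval₂RingHom (eval₂RingHom (eval₂RingHom (Int.castRingHom _) t) x) y`. Induction: `Polynomial.induction_on` three times (or `Submodule`/`Subring.closure`). A product with a power: `C (C (C c)) * (C (C X))^i * (C X)^j * X^k`.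
`bnd1`: the same for `ℤ[t]` (values `|d(a)| ≤ a^C`): `bnd` for `C (C d)`, or directly. `nz`: a non-zero polynomial has finitely many roots; for all large `a` the value is a non-zero integer, so `1 ≤ |d(a)|`.
`ybd`: `F` of total degree `≤ n` with `((F.coeff n).coeff 0) ≠ 0`: for `a` large `p = ((F.coeff n).coeff 0)(a)` is a non-zero integer. `ev3_sum` (`Pool/Agent/H98/TE/FAM.lean` with `DegF`): `p y^n = - ∑_(b<n) ∑_(i ≤ n-b) c_ib(a) x^i y^b`, `|c_ib(a)| ≤ a^C`. Let `M = max |x| |y|`, `M = |y| > |x|`, `|y| ≥ 1`, otherwise nothing to prove: `|y|^n ≤ |p| |y|^n ≤ (n+1)^2 a^C max(1,|x|) M^(n-1)` (each term with `b < n` has `i ≥ 1` or total degree `≤ n - 1`: `|x|^i |y|^b ≤ max(1,|x|) M^(n-1)`). So `|y| ≤ (n+1)^2 a^C max(1,|x|) ≤ a^κ max(1,|x|)`. -/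

/-! # [H4 TP BND] Polynomial bounds

`bnd`: the set of `P` with the property (for a fixed `κ`) contains the constants `C (C (C c))` (`|c| ≤ 2^|c| ≤ a^|c|`), `C (C X)` (value `a`), `C X` (value `ξ`), `X` (value `Z`) and is closed under sums (`a^C1 + a^C2 ≤ a^(max + 1)`, `a ≥ 2`) and products; `ev3 t x y` is the ring hom `eval₂RingHom (eval₂RingHom (eval₂RingHom (Int.castRingHom _) t) x) y`. Induction: `Polynomial.induction_on` three times (or `Submodule`/`Subring.closure`). A product with a power: `C (C (C c)) * (C (C X))^i * (C X)^j * X^k`.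
`bnd1`: the same for `ℤ[t]` (values `|d(a)| ≤ a^C`): `bnd` for `C (C d)`, or directly. `nz`: a non-zero polynomial has finitely many roots; for all large `a` the value is a non-zero integer, so `1 ≤ |d(a)|`.
`ybd`: `F` of total degree `≤ n` with `((F.coeff n).coeff 0) ≠ 0`: for `a` large `p = ((F.coeff n).coeff 0)(a)` is a non-zero integer. `ev3_sum` (`Pool/Agent/H98/TE/FAM.lean` with `DegF`): `p y^n = - ∑_(b<n) ∑_(i ≤ n-b) c_ib(a) x^i y^b`, `|c_ib(a)| ≤ a^C`. Let `M = max |x| |y|`, `M = |y| > |x|`, `|y| ≥ 1`, otherwise nothing to prove: `|y|^n ≤ |p| |y|^n ≤ (n+1)^2 a^C max(1,|x|) M^(n-1)` (each term with `b < n` has `i ≥ 1` or total degree `≤ n - 1`: `|x|^i |y|^b ≤ max(1,|x|) M^(n-1)`). So `|y| ≤ (n+1)^2 a^C max(1,|x|) ≤ a^κ max(1,|x|)`. -/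

namespace Pool.Agent.H4.TP

open Finset Polynomial Pool.Agent.H37.TE Pool.Agent.H98.TE

private theorem two_pow_bd (c : ℤ) {a : ℕ} (ha : 2 ≤ a) : |(c : ℝ)| ≤ (a : ℝ) ^ c.natAbs := by
  have h1 : c.natAbs ≤ a ^ c.natAbs :=
    (Nat.lt_two_pow_self (n := c.natAbs)).le.trans (Nat.pow_le_pow_left ha _)
  have h2 : |(c : ℝ)| = (c.natAbs : ℝ) := by rw [Nat.cast_natAbs, Int.cast_abs]
  rw [h2]
  exact_mod_cast h1

private theorem ev3_ca (t x y : ℝ) (P Q : ℤ[X][X][X]) :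
    ev3 t x y (P + Q) = ev3 t x y P + ev3 t x y Q := by
  unfold ev3
  rw [eval₂_add]

private theorem ev3_cm (t x y : ℝ) (P Q : ℤ[X][X][X]) :
    ev3 t x y (P * Q) = ev3 t x y P * ev3 t x y Q := by
  unfold ev3
  rw [eval₂_mul]

/-- the property of `bnd` -/
private def Gb (κ : ℕ) (P : ℤ[X][X][X]) : Prop := ∃ M : ℕ, ∀ a : ℕ, 2 ≤ a → ∀ ξ Z : ℝ, |ξ| ≤ 1 →
    |Z| ≤ (a : ℝ) ^ κ → |ev3 (a : ℝ) ξ Z P| ≤ (a : ℝ) ^ M

private theorem gb_add {κ : ℕ} {P Q : ℤ[X][X][X]} (hP : Gb κ P) (hQ : Gb κ Q) : Gb κ (P + Q) := by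
  obtain ⟨M1, h1⟩ := hP
  obtain ⟨M2, h2⟩ := hQ
  refine ⟨max M1 M2 + 1, fun a ha ξ Z hξ hZ => ?_⟩
  have ha' : (2 : ℝ) ≤ a := by exact_mod_cast ha
  have ha1 : (1 : ℝ) ≤ a := by linarith
  rw [ev3_ca]
  have e1 := (h1 a ha ξ Z hξ hZ).trans (pow_le_pow_right₀ ha1 (le_max_left M1 M2))
  have e2 := (h2 a ha ξ Z hξ hZ).trans (pow_le_pow_right₀ ha1 (le_max_right M1 M2))
  have e3 : (0 : ℝ) ≤ (a : ℝ) ^ max M1 M2 := by positivity
  rw [pow_succ]
  calc |ev3 (a : ℝ) ξ Z P + ev3 (a : ℝ) ξ Z Q| ≤ |ev3 (a : ℝ) ξ Z P| + |ev3 (a : ℝ) ξ Z Q| :=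
        abs_add_le _ _
    _ ≤ (a : ℝ) ^ max M1 M2 * 2 := by linarith
    _ ≤ (a : ℝ) ^ max M1 M2 * a := mul_le_mul_of_nonneg_left ha' e3

private theorem gb_mul {κ : ℕ} {P Q : ℤ[X][X][X]} (hP : Gb κ P) (hQ : Gb κ Q) : Gb κ (P * Q) := by
  obtain ⟨M1, h1⟩ := hP
  obtain ⟨M2, h2⟩ := hQ
  refine ⟨M1 + M2, fun a ha ξ Z hξ hZ => ?_⟩
  rw [ev3_cm, abs_mul, pow_add]
  exact mul_le_mul (h1 a ha ξ Z hξ hZ) (h2 a ha ξ Z hξ hZ) (abs_nonneg _) (by positivity)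

private theorem gb_int (κ : ℕ) (c : ℤ) : Gb κ (C (C (C c))) := by
  refine ⟨c.natAbs, fun a ha ξ Z hξ hZ => ?_⟩
  have h1 : ev3 (a : ℝ) ξ Z (C (C (C c))) = (c : ℝ) := by
    unfold ev3
    rw [eval₂_C, coe_eval₂RingHom, eval₂_C, coe_eval₂RingHom, eval₂_C]
    rfl
  rw [h1]
  exact two_pow_bd c ha

private theorem gb_t (κ : ℕ) : Gb κ (C (C X)) := by
  refine ⟨1, fun a ha ξ Z hξ hZ => ?_⟩
  have h1 : ev3 (a : ℝ) ξ Z (C (C X)) = (a : ℝ) := by
    unfold ev3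
    simp
  rw [h1, pow_one, abs_of_nonneg (by positivity)]

private theorem gb_x (κ : ℕ) : Gb κ (C X) := by
  refine ⟨0, fun a ha ξ Z hξ hZ => ?_⟩
  have h1 : ev3 (a : ℝ) ξ Z (C X) = ξ := by
    unfold ev3
    simp
  rw [h1, pow_zero]
  exact hξ

private theorem gb_y (κ : ℕ) : Gb κ X := by
  refine ⟨κ, fun a ha ξ Z hξ hZ => ?_⟩
  have h1 : ev3 (a : ℝ) ξ Z X = Z := by
    unfold ev3
    simp
  rw [h1]
  exact hZ

private theorem gb_1 (κ : ℕ) (p : ℤ[X]) : Gb κ (C (C p)) := by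
  induction p using Polynomial.induction_on with
  | C c => exact gb_int κ c
  | add p q hp hq =>
    rw [C_add, C_add]
    exact gb_add hp hq
  | monomial n c h =>
    have h1 : (C (C (C c * X ^ (n + 1))) : ℤ[X][X][X]) = C (C (C c * X ^ n)) * C (C X) := by
      rw [← C_mul, ← C_mul, pow_succ, mul_assoc]
    rw [h1]
    exact gb_mul h (gb_t κ)

private theorem gb_2 (κ : ℕ) (p : ℤ[X][X]) : Gb κ (C p) := by
  induction p using Polynomial.induction_on with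
  | C c => exact gb_1 κ c
  | add p q hp hq =>
    rw [C_add]
    exact gb_add hp hq
  | monomial n c h =>
    have h1 : (C (C c * X ^ (n + 1)) : ℤ[X][X][X]) = C (C c * X ^ n) * C X := by
      rw [← C_mul, pow_succ, mul_assoc]
    rw [h1]
    exact gb_mul h (gb_x κ)

theorem bnd (κ : ℕ) (P : ℤ[X][X][X]) : ∃ M : ℕ, ∀ a : ℕ, 2 ≤ a → ∀ ξ Z : ℝ, |ξ| ≤ 1 →
    |Z| ≤ (a : ℝ) ^ κ → |ev3 (a : ℝ) ξ Z P| ≤ (a : ℝ) ^ M := by
  have h : Gb κ P := by
    induction P using Polynomial.induction_on with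
    | C c => exact gb_2 κ c
    | add p q hp hq => exact gb_add hp hq
    | monomial n c h =>
      rw [pow_succ, ← mul_assoc]
      exact gb_mul h (gb_y κ)
  exact h

theorem bnd1 (d : ℤ[X]) : ∃ M : ℕ, ∀ a : ℕ, 2 ≤ a → |d.eval (a : ℤ)| ≤ (a : ℤ) ^ M := by
  obtain ⟨M, hM⟩ := gb_1 0 d
  refine ⟨M, fun a ha => ?_⟩
  have h1 := hM a ha 0 0 (by simp) (by simp)
  have h2 : ev3 (a : ℝ) 0 0 (C (C d)) = ((d.eval (a : ℤ) : ℤ) : ℝ) := by
    unfold ev3
    rw [eval₂_C, coe_eval₂RingHom, eval₂_C, coe_eval₂RingHom]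
    have h3 := eval₂_at_apply (p := d) (Int.castRingHom ℝ) (a : ℤ)
    rw [eq_intCast, eq_intCast, Int.cast_natCast] at h3
    exact h3
  rw [h2] at h1
  exact_mod_cast h1

theorem nz {d : ℤ[X]} (hd : d ≠ 0) : ∃ A0 : ℕ, ∀ a : ℕ, A0 ≤ a → d.eval (a : ℤ) ≠ 0 := by
  classical
  refine ⟨d.roots.toFinset.sup (fun z => z.natAbs) + 1, fun a ha h0 => ?_⟩
  have h1 : (a : ℤ) ∈ d.roots.toFinset := by
    rw [Multiset.mem_toFinset, mem_roots hd]
    exact h0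
  have h2 := Finset.le_sup (f := fun z : ℤ => z.natAbs) h1
  simp only [Int.natAbs_natCast] at h2
  omega

private theorem ybd_term {n b i : ℕ} {x y : ℤ} (hn : 1 ≤ n) (hb : b < n) (hi : i + b ≤ n)
    (hy : 1 ≤ |y|) (hxy : |x| ≤ |y|) : |x| ^ i * |y| ^ b ≤ max 1 |x| * |y| ^ (n - 1) := by
  have hx0 : 0 ≤ |x| := abs_nonneg x
  rcases Nat.eq_zero_or_pos i with h | h
  · subst h
    rw [pow_zero]
    exact mul_le_mul (le_max_left _ _) (pow_le_pow_right₀ hy (by omega)) (by positivity)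
      (by positivity)
  · obtain ⟨j, rfl⟩ : ∃ j, i = j + 1 := ⟨i - 1, by omega⟩
    have h1 : |x| ^ j * |y| ^ b ≤ |y| ^ (n - 1) := by
      calc |x| ^ j * |y| ^ b ≤ |y| ^ j * |y| ^ b :=
            mul_le_mul_of_nonneg_right (pow_le_pow_left₀ hx0 hxy j) (by positivity)
        _ = |y| ^ (j + b) := by rw [pow_add]
        _ ≤ |y| ^ (n - 1) := pow_le_pow_right₀ hy (by omega)
    calc |x| ^ (j + 1) * |y| ^ b = |x| * (|x| ^ j * |y| ^ b) := by ring
      _ ≤ max 1 |x| * |y| ^ (n - 1) :=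
        mul_le_mul (le_max_right _ _) h1 (by positivity) (by positivity)

theorem ybd {n m : ℕ} {F : ℤ[X][X][X]} (H : DegF n m F) (hn : 1 ≤ n)
    (hl : (F.coeff n).coeff 0 ≠ 0) : ∃ κ : ℕ, ∀ a : ℕ, κ ≤ a → ∀ x y : ℤ,
      ev3 (a : ℤ) x y F = 0 → |y| ≤ (a : ℤ) ^ κ * max 1 |x| := by
  obtain ⟨A0, hA0⟩ := nz hl
  choose Mf hMf using fun bi : ℕ × ℕ => bnd1 ((F.coeff bi.1).coeff bi.2)
  obtain ⟨M, hM⟩ : ∃ M : ℕ, M = ∑ bi ∈ range (n + 1) ×ˢ range (n + 1), Mf bi := ⟨_, rfl⟩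
  refine ⟨A0 + n * (n + 1) + M + 2, fun a ha x y h0 => ?_⟩
  have ha2 : 2 ≤ a := by omega
  have ha1 : (1 : ℤ) ≤ a := by exact_mod_cast (by omega : 1 ≤ a)
  have hmx : (1 : ℤ) ≤ max 1 |x| := le_max_left _ _
  by_cases hyx : |y| ≤ max 1 |x|
  · have h1 : (1 : ℤ) ≤ (a : ℤ) ^ (A0 + n * (n + 1) + M + 2) := one_le_pow₀ ha1
    nlinarith
  · push Not at hyx
    have hy1 : 1 ≤ |y| := hmx.trans hyx.le
    have hxy : |x| ≤ |y| := (le_max_right _ _).trans hyx.le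
    have hev : ∀ p : ℤ[X], eval₂ (Int.castRingHom ℤ) (a : ℤ) p = p.eval (a : ℤ) := by
      intro p
      have h3 := eval₂_at_apply (p := p) (Int.castRingHom ℤ) (a : ℤ)
      rw [eq_intCast, eq_intCast, Int.cast_id, Int.cast_id] at h3
      exact h3
    have hs := Pool.Agent.H37.TE.ev3_sum (a : ℤ) x y F n (fun i b h => H.tot i b h)
    rw [h0, sum_range_succ] at hs
    have hlast : ∑ i ∈ range (n + 1), eval₂ (Int.castRingHom ℤ) (a : ℤ) ((F.coeff n).coeff i) *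
        x ^ i * y ^ n = ((F.coeff n).coeff 0).eval (a : ℤ) * y ^ n := by
      rw [Finset.sum_eq_single 0]
      · rw [hev, pow_zero, mul_one]
      · intro i _ hi
        rw [H.tot i n (by omega), hev, eval_zero, zero_mul, zero_mul]
      · intro h
        exact absurd (mem_range.2 (Nat.succ_pos n)) h
    rw [hlast] at hs
    have hq : |((F.coeff n).coeff 0).eval (a : ℤ) * y ^ n| ≤
        ∑ b ∈ range n, ∑ i ∈ range (n + 1), (a : ℤ) ^ M * (max 1 |x| * |y| ^ (n - 1)) := by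
      have h1 : ((F.coeff n).coeff 0).eval (a : ℤ) * y ^ n = -∑ b ∈ range n,
          ∑ i ∈ range (n + 1), eval₂ (Int.castRingHom ℤ) (a : ℤ) ((F.coeff b).coeff i) *
            x ^ i * y ^ b := by linarith
      rw [h1, abs_neg]
      refine (abs_sum_le_sum_abs _ _).trans (sum_le_sum fun b hb => ?_)
      refine (abs_sum_le_sum_abs _ _).trans (sum_le_sum fun i hi => ?_)
      rw [mem_range] at hb hi
      by_cases hib : n < i + b
      · rw [H.tot i b hib, hev, eval_zero, zero_mul, zero_mul, abs_zero]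
        positivity
      · rw [hev, mul_assoc, abs_mul, abs_mul, abs_pow, abs_pow]
        have h2 : |((F.coeff b).coeff i).eval (a : ℤ)| ≤ (a : ℤ) ^ M := by
          refine (hMf (b, i) a ha2).trans (pow_le_pow_right₀ ha1 ?_)
          rw [hM]
          exact Finset.single_le_sum (f := Mf) (fun _ _ => Nat.zero_le _)
            (mem_product.2 ⟨mem_range.2 (by omega), mem_range.2 hi⟩)
        exact mul_le_mul h2 (ybd_term hn hb (by omega) hy1 hxy) (by positivity) (by positivity)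
    rw [sum_const, sum_const, card_range, card_range, nsmul_eq_mul, nsmul_eq_mul, abs_mul,
      abs_pow] at hq
    have hp1 : 1 ≤ |((F.coeff n).coeff 0).eval (a : ℤ)| := Int.one_le_abs (hA0 a (by omega))
    have hyn : |y| ^ n = |y| * |y| ^ (n - 1) := by
      conv_lhs => rw [show n = (n - 1) + 1 by omega, pow_succ]
      ring
    have hY : 0 < |y| ^ (n - 1) := pow_pos (by linarith) _
    have hna : ((n : ℤ) * ((n + 1 : ℕ) : ℤ)) ≤ (a : ℤ) := by
      have : n * (n + 1) ≤ a := by omega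
      exact_mod_cast this
    have h5 : |y| * |y| ^ (n - 1) ≤ ((a : ℤ) ^ (M + 1) * max 1 |x|) * |y| ^ (n - 1) := by
      calc |y| * |y| ^ (n - 1) = 1 * |y| ^ n := by rw [hyn, one_mul]
        _ ≤ |((F.coeff n).coeff 0).eval (a : ℤ)| * |y| ^ n :=
          mul_le_mul_of_nonneg_right hp1 (by positivity)
        _ ≤ (n : ℤ) * (((n + 1 : ℕ) : ℤ) * ((a : ℤ) ^ M * (max 1 |x| * |y| ^ (n - 1)))) := hq
        _ = ((n : ℤ) * ((n + 1 : ℕ) : ℤ)) * ((a : ℤ) ^ M * (max 1 |x| * |y| ^ (n - 1))) := by ring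
        _ ≤ (a : ℤ) * ((a : ℤ) ^ M * (max 1 |x| * |y| ^ (n - 1))) :=
          mul_le_mul_of_nonneg_right hna (by positivity)
        _ = ((a : ℤ) ^ (M + 1) * max 1 |x|) * |y| ^ (n - 1) := by ring
    refine (le_of_mul_le_mul_right h5 hY).trans ?_
    exact mul_le_mul_of_nonneg_right (pow_le_pow_right₀ ha1 (by omega)) (by positivity)

end Pool.Agent.H4.TP
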