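import Pool.Agent.H4.TP.WIN
import Pool.Agent.H98.TE.SWP

/-! # [H4 TP MID] Small points and points of middle size, for `HypG` (copies of
`Pool/Agent/H98/TE/MID.lean`, `SWP.lean`) -/

namespace Pool.Agent.H4.TP

open Finset Polynomial Pool.Agent.H37.TE Pool.Agent.H98.TE

theorem middle_half (n m κ k1 : ℕ) (hn : 3 ≤ n) (F : ℤ[X][X][X]) (H : DegF n m F)
    (hg : topm n m F ≠ 0)
    (hs : ∀ θ, (topm n m F).eval θ = 0 → (topm n m F).derivative.eval θ ≠ 0)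
    (hlead : (F.coeff n).coeff 0 ≠ 0) (hlead' : (F.coeff 0).coeff n ≠ 0) (hirr : IrrT F) :
    ∃ c A0 : ℕ, ∀ A U P : ℕ, A0 ≤ A → U ^ 20 ≤ A → A ≤ U ^ k1 → Cpl U P → ∀ S : Finset ℤ,
      (∀ u ∈ S, 0 ≤ u ∧ u ≤ U ∧ ∃ x y : ℤ, |y| ≤ |x| ∧ ((A ^ 19 : ℕ) : ℤ) ≤ |x| ^ 20 ∧
        |x| ≤ ((A ^ κ : ℕ) : ℤ) ∧ ev3 (A + u) x y F = 0 ∧ ¬ Sol F (A + u) x y) →
      S.card ≤ c * P := by
  classical
  obtain ⟨C1, δ0, hC1, hδ0, h1⟩ := near_root _ hg hs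
  obtain ⟨C2, hC2, h2⟩ := top_small H
  -- the constants of the classes
  have h3 : ∀ θ : ℝ, ∃ (c A0 : ℕ) (c0 : ℝ), 0 < c0 ∧ ((topm n m F).eval θ = 0 →
      ∀ A U P : ℕ, A0 ≤ A → U ^ 20 ≤ A → A ≤ U ^ k1 → Cpl U P → ∀ T1 : ℝ, 0 < T1 →
      (A : ℝ) ^ 19 ≤ T1 ^ 20 → T1 ≤ (A : ℝ) ^ κ → ∀ S : Finset ℤ,
      (∀ u ∈ S, ∃ x y : ℤ, |y| ≤ |x| ∧ |x| ≤ ((A ^ κ : ℕ) : ℤ) ∧ ¬ Sol F (A + u) x y ∧
        Cls F A U T1 θ c0 (u, x, y)) → S.card ≤ c * P) := by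
    intro θ
    by_cases hθ : (topm n m F).eval θ = 0
    · obtain ⟨D, A0, c0, hc0, h4⟩ := real_part n m κ hn F H θ hθ (hs θ hθ)
      obtain ⟨c, h5⟩ := Pool.Agent.H4.TP.window_points n D (k1 * κ) (by omega) F H.tot hlead hlead' hirr
      refine ⟨c, A0, c0, hc0, fun _ A U P hA hU hAU hCpl T1 hT hT1 hT2 S hS => ?_⟩
      obtain ⟨G, hG0, hGT, hGn, hG⟩ := h4 A U hA hU T1 hT hT1 hT2
        {P | Cls F A U T1 θ c0 P} (fun P hP => hP)
      refine h5 A U P hCpl G hGT hG0 hGn S fun u hu => ?_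
      obtain ⟨x, y, hyx, hxA, hsol, hcls⟩ := hS u hu
      have hb : ((A ^ κ : ℕ) : ℤ) ≤ ((U ^ (k1 * κ) : ℕ) : ℤ) := by
        rw [pow_mul]
        exact_mod_cast Nat.pow_le_pow_left hAU κ
      exact ⟨hcls.u0, hcls.uU, x, y, hxA.trans hb, (hyx.trans hxA).trans hb, hcls.ev,
        hG _ hcls, hsol⟩
    · exact ⟨0, 0, 1, one_pos, fun h => absurd h hθ⟩
  choose cc AA c0 hc0 h4 using h3
  obtain ⟨R, hR⟩ : ∃ R, R = (topm n m F).roots.toFinset := ⟨_, rfl⟩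
  rw [← hR] at h1
  obtain ⟨K, hK⟩ : ∃ K : ℝ, K = C2 / δ0 + ∑ θ ∈ R, C1 * C2 / c0 θ + 1 := ⟨_, rfl⟩
  have hsum : 0 ≤ ∑ θ ∈ R, C1 * C2 / c0 θ := sum_nonneg fun θ _ => by
    have := hc0 θ
    positivity
  have hK1 : 1 ≤ K := by
    rw [hK]
    have : 0 ≤ C2 / δ0 := by positivity
    linarith
  refine ⟨∑ θ ∈ R, (20 * κ + 1) * cc θ, R.sup AA + ⌈K ^ 2⌉₊ + 2,
    fun A U P hA hU hAU hCpl S hS => ?_⟩
  have hA2 : 2 ≤ A := by omega
  have hAr : (0 : ℝ) < A := by exact_mod_cast (by omega : 0 < A)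
  have hKA : K ^ 2 ≤ A := by
    refine (Nat.le_ceil _).trans ?_
    exact_mod_cast (by omega : ⌈K ^ 2⌉₊ ≤ A)
  obtain ⟨sA, hsA⟩ : ∃ sA, sA = Real.sqrt A := ⟨_, rfl⟩
  have hKs : K ≤ sA := by
    rw [hsA]
    exact Real.le_sqrt_of_sq_le hKA
  have hs1 : 1 ≤ sA := hK1.trans hKs
  have hs2 : sA ^ 2 = A := by rw [hsA]; exact Real.sq_sqrt hAr.le
  -- the numbers `T1`
  have hT : ∀ l : ℕ, ∃ T1 : ℝ, 0 < T1 ∧ T1 ^ 20 = (A : ℝ) ^ (19 + l) := by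
    intro l
    refine ⟨((A : ℝ) ^ (19 + l)) ^ (((20 : ℕ) : ℝ)⁻¹), by positivity, ?_⟩
    exact Real.rpow_inv_natCast_pow (by positivity) (by norm_num)
  choose T1 hT0 hT20 using hT
  obtain ⟨Sf, hSf⟩ : ∃ Sf : ℝ → ℕ → Finset ℤ, ∀ θ l, Sf θ l = S.filter (fun u => ∃ x y : ℤ,
      |y| ≤ |x| ∧ |x| ≤ ((A ^ κ : ℕ) : ℤ) ∧ ¬ Sol F (A + u) x y ∧
        Cls F A U (T1 l) θ (c0 θ) (u, x, y)) := ⟨_, fun _ _ => rfl⟩
  have hsub : S ⊆ R.biUnion (fun θ => ((range (20 * κ + 1)).filter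
      (fun l => 19 + l ≤ 20 * κ)).biUnion (fun l => Sf θ l)) := by
    intro u hu
    obtain ⟨hu0, huU, x, y, hyx, hx19, hxκ, hev, hsol⟩ := hS u hu
    obtain ⟨l, hl, hl2, hl3, hl4⟩ := exists_class (κ := κ) (N := x.natAbs ^ 20) hA2 (by
      have : ((A ^ 19 : ℕ) : ℤ) ≤ ((x.natAbs ^ 20 : ℕ) : ℤ) := by
        push_cast
        push_cast at hx19
        exact hx19
      exact_mod_cast this) (by
      have h5 : x.natAbs ≤ A ^ κ := by
        have : ((x.natAbs : ℕ) : ℤ) ≤ ((A ^ κ : ℕ) : ℤ) := by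
          rw [Int.natCast_natAbs]
          exact hxκ
        exact_mod_cast this
      calc x.natAbs ^ 20 ≤ (A ^ κ) ^ 20 := Nat.pow_le_pow_left h5 20
        _ = A ^ (20 * κ) := by rw [← pow_mul, mul_comm])
    have hxr : |(x : ℝ)| = ((x.natAbs : ℕ) : ℝ) := by
      rw [Nat.cast_natAbs]
      push_cast
      rfl
    have hx3 : (A : ℝ) ^ (19 + l) ≤ |(x : ℝ)| ^ 20 := by
      rw [hxr]
      exact_mod_cast hl3
    have hx4 : |(x : ℝ)| ^ 20 ≤ (A : ℝ) ^ (20 + l) := by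
      rw [hxr]
      exact_mod_cast hl4
    -- the size of `x`
    have hxs : sA ≤ |(x : ℝ)| := by
      rw [← pow_le_pow_iff_left₀ (by linarith) (abs_nonneg _) (by norm_num : (20 : ℕ) ≠ 0)]
      refine le_trans ?_ hx3
      rw [← hs2, ← pow_mul]
      exact pow_le_pow_right₀ hs1 (by omega)
    have hx0 : (x : ℝ) ≠ 0 := abs_pos.1 (by linarith)
    have hau : (0 : ℝ) < (((A : ℤ) + u : ℤ) : ℝ) := by
      have : (0 : ℤ) < (A : ℤ) + u := by omega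
      exact_mod_cast this
    have hyr : |(y : ℝ)| ≤ |(x : ℝ)| := by exact_mod_cast hyx
    have hevr : ev3 (((A : ℤ) + u : ℤ) : ℝ) (x : ℝ) (y : ℝ) F = 0 := by
      rw [ev3_cast H, hev, Int.cast_zero]
    have h5 := h2 _ x y (1 / sA) hau hx0 hyr hevr
      (one_div_le_one_div_of_le (by linarith) (by
        have : (A : ℝ) ≤ (((A : ℤ) + u : ℤ) : ℝ) := by
          have : (A : ℤ) ≤ (A : ℤ) + u := by omega
          exact_mod_cast this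
        nlinarith))
      (one_div_le_one_div_of_le (by linarith) hxs)
      (by rw [div_le_one (by linarith)]; exact hs1)
    have h6 : |(y : ℝ) / x| ≤ 1 := by
      rw [abs_div]
      exact (div_le_one (abs_pos.2 hx0)).2 hyr
    have h7 : |(topm n m F).eval ((y : ℝ) / x)| < δ0 := by
      refine lt_of_le_of_lt h5 ?_
      rw [mul_one_div, div_lt_iff₀ (by linarith)]
      have : C2 / δ0 < sA := by
        rw [hK] at hKs
        linarith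
      rw [div_lt_iff₀ hδ0] at this
      linarith
    obtain ⟨θ, hθ, h8⟩ := h1 _ h6 h7
    rw [mem_biUnion]
    refine ⟨θ, hθ, ?_⟩
    rw [mem_biUnion]
    refine ⟨l, mem_filter.2 ⟨hl, hl2⟩, ?_⟩
    rw [hSf, mem_filter]
    refine ⟨hu, x, y, hyx, hxκ, hsol, ?_⟩
    refine ⟨hu0, huU, hev, ?_, ?_, ?_⟩
    · rw [← pow_le_pow_iff_left₀ (hT0 l).le (abs_nonneg _) (by norm_num : (20 : ℕ) ≠ 0), hT20]
      exact hx3
    · rw [hT20, ← pow_succ]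
      rw [show 19 + l + 1 = 20 + l by omega]
      exact hx4
    · refine (h8.trans (mul_le_mul_of_nonneg_left h5 hC1)).trans ?_
      have h9 : C1 * C2 / c0 θ ≤ ∑ θ ∈ R, C1 * C2 / c0 θ :=
        single_le_sum (f := fun θ => C1 * C2 / c0 θ) (fun θ _ => by
          have := hc0 θ
          positivity) hθ
      have h10 : C1 * C2 / c0 θ ≤ sA := by
        rw [hK] at hKs
        have : 0 ≤ C2 / δ0 := by positivity
        linarith
      rw [div_le_iff₀ (hc0 θ)] at h10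
      rw [mul_one_div, ← mul_div_assoc, div_le_iff₀ (by linarith)]
      linarith
  refine (card_le_card hsub).trans ?_
  refine card_biUnion_le.trans ?_
  rw [sum_mul]
  refine sum_le_sum fun θ hθ => ?_
  rw [hR, Multiset.mem_toFinset] at hθ
  have hroot : (topm n m F).eval θ = 0 := (mem_roots hg).1 hθ
  have h5 : (((range (20 * κ + 1)).filter (fun l => 19 + l ≤ 20 * κ)).biUnion
      (fun l => Sf θ l)).card ≤
      ((range (20 * κ + 1)).filter (fun l => 19 + l ≤ 20 * κ)).card * (cc θ * P) := by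
    refine card_biUnion_le_card_mul _ _ _ fun l hl => ?_
    rw [mem_filter] at hl
    refine h4 θ hroot A U P ?_ hU hAU hCpl (T1 l) (hT0 l) ?_ ?_ (Sf θ l) fun u hu => ?_
    · have : AA θ ≤ R.sup AA := Finset.le_sup (by rw [hR]; exact Multiset.mem_toFinset.2 hθ)
      omega
    · rw [hT20]
      exact pow_le_pow_right₀ (by exact_mod_cast (by omega : 1 ≤ A)) (by omega)
    · rw [← pow_le_pow_iff_left₀ (hT0 l).le (by positivity) (by norm_num : (20 : ℕ) ≠ 0), hT20,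
        ← pow_mul]
      exact pow_le_pow_right₀ (by exact_mod_cast (by omega : 1 ≤ A)) (by omega)
    · rw [hSf, mem_filter] at hu
      exact hu.2
  refine h5.trans ?_
  rw [mul_assoc]
  refine Nat.mul_le_mul_right _ ?_
  refine (card_filter_le _ _).trans ?_
  rw [card_range]


variable {n m : ℕ} {F : ℤ[X][X][X]}

theorem HypG.lead (h : HypG n m F) : (F.coeff n).coeff 0 ≠ 0 := by
  intro h0
  have h1 : (topq n m F).coeff n = 0 := by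
    rw [topq_coeff, if_pos le_rfl, cf3, Nat.sub_self, h0, coeff_zero, Int.cast_zero]
  have h2 : (topq n m F).leadingCoeff = 0 := by rw [leadingCoeff, h.tq, h1]
  exact h.sq.ne_zero (leadingCoeff_eq_zero.1 h2)

theorem HypG.lead' (h : HypG n m F) : (F.coeff 0).coeff n ≠ 0 := by
  intro h0
  apply h.tq0
  rw [topq_coeff, if_pos (Nat.zero_le n), cf3, Nat.sub_zero, h0, coeff_zero, Int.cast_zero]

theorem HypG.swap (hn : 2 ≤ n) (h : HypG n m F) : HypG n m (swF F) := by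
  have hsq := sq_reflect hn h.sq (by rw [h.tq]; omega) (topq_deg n m F)
  refine ⟨swF_DegF h.H, irrT_swap h.irr, ?_, ?_, ?_⟩
  · rw [swF_topq]
    exact hsq.1
  · rw [swF_topq]
    refine natDegree_eq_of_le_of_coeff_ne_zero (refl_deg (topq_deg n m F)) ?_
    rw [coeff_reflect, revAt_le le_rfl, Nat.sub_self]
    exact h.tq0
  · rw [swF_topq, coeff_reflect, revAt_le (Nat.zero_le n), Nat.sub_zero]
    have h2 : (topq n m F).leadingCoeff ≠ 0 := leadingCoeff_ne_zero.2 h.sq.ne_zero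
    rwa [leadingCoeff, h.tq] at h2

/-- SMALL POINTS, both halves -/
theorem small_all (hn : 2 ≤ n) (h : HypG n m F) :
    ∃ C : ℕ, ∀ X T : ℕ, 1 ≤ X → T ≤ X → ∀ S : Finset ℤ, (∀ a ∈ S, (X : ℤ) ≤ a ∧ ∃ x y : ℤ,
      |x| ≤ T ∧ |y| ≤ T ∧ ev3 a x y F = 0 ∧ ¬ Sol F a x y) → S.card ≤ C * (T + 1) := by
  classical
  have h' := h.swap hn
  obtain ⟨C1, h1⟩ := small_points h.H (topm_simple h.sq).1 (topm_simple h.sq).2
  obtain ⟨C2, h2⟩ := small_points h'.H (topm_simple h'.sq).1 (topm_simple h'.sq).2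
  refine ⟨C1 + C2, fun X T hX hT S hS => ?_⟩
  obtain ⟨S1, hS1⟩ : ∃ S1, S1 = S.filter (fun a : ℤ => ∃ x y : ℤ, |y| ≤ |x| ∧ |x| ≤ T ∧
    ev3 a x y F = 0 ∧ fib F x y ≠ 0) := ⟨_, rfl⟩
  obtain ⟨S2, hS2⟩ : ∃ S2, S2 = S.filter (fun a : ℤ => ∃ x y : ℤ, |y| ≤ |x| ∧ |x| ≤ T ∧
    ev3 a x y (swF F) = 0 ∧ fib (swF F) x y ≠ 0) := ⟨_, rfl⟩
  have hsub : S ⊆ S1 ∪ S2 := by
    intro a ha
    obtain ⟨hXa, x, y, hx, hy, hev, hsol⟩ := hS a ha
    have hfib : fib F x y ≠ 0 := fun h0 => hsol (sol_of_fib h.H h0)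
    rw [mem_union]
    rcases le_total |y| |x| with hyx | hyx
    · left
      rw [hS1, mem_filter]
      exact ⟨ha, x, y, hyx, hx, hev, hfib⟩
    · right
      rw [hS2, mem_filter]
      exact ⟨ha, y, x, hyx, hy, by rw [swF_ev3 h.H]; exact hev, by rw [swF_fib h.H]; exact hfib⟩
  have e1 := h1 X T hX hT S1 fun a ha => by
    rw [hS1, mem_filter] at ha
    exact ⟨(hS a ha.1).1, ha.2⟩
  have e2 := h2 X T hX hT S2 fun a ha => by
    rw [hS2, mem_filter] at ha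
    exact ⟨(hS a ha.1).1, ha.2⟩
  have e3 := (card_le_card hsub).trans (card_union_le _ _)
  rw [add_mul]
  omega

/-- MIDDLE POINTS, both halves -/
theorem middle_all (κ k1 : ℕ) (hn : 3 ≤ n) (h : HypG n m F) :
    ∃ c A0 : ℕ, ∀ A U P : ℕ, A0 ≤ A → U ^ 20 ≤ A → A ≤ U ^ k1 → Cpl U P → ∀ S : Finset ℤ,
      (∀ u ∈ S, 0 ≤ u ∧ u ≤ U ∧ ∃ x y : ℤ, (((A ^ 19 : ℕ) : ℤ) ≤ |x| ^ 20 ∨
        ((A ^ 19 : ℕ) : ℤ) ≤ |y| ^ 20) ∧ |x| ≤ ((A ^ κ : ℕ) : ℤ) ∧ |y| ≤ ((A ^ κ : ℕ) : ℤ) ∧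
        ev3 (A + u) x y F = 0 ∧ ¬ Sol F (A + u) x y) → S.card ≤ c * P := by
  classical
  have h' := h.swap (by omega)
  obtain ⟨c1, A1, h1⟩ := middle_half n m κ k1 hn F h.H (topm_simple h.sq).1 (topm_simple h.sq).2
    h.lead h.lead' h.irr
  obtain ⟨c2, A2, h2⟩ := middle_half n m κ k1 hn (swF F) h'.H (topm_simple h'.sq).1
    (topm_simple h'.sq).2 h'.lead h'.lead' h'.irr
  refine ⟨c1 + c2, A1 + A2, fun A U P hA hU hAU hCpl S hS => ?_⟩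
  obtain ⟨S1, hS1⟩ : ∃ S1, S1 = S.filter (fun u : ℤ => ∃ x y : ℤ, |y| ≤ |x| ∧
    ((A ^ 19 : ℕ) : ℤ) ≤ |x| ^ 20 ∧ |x| ≤ ((A ^ κ : ℕ) : ℤ) ∧ ev3 (A + u) x y F = 0 ∧
    ¬ Sol F (A + u) x y) := ⟨_, rfl⟩
  obtain ⟨S2, hS2⟩ : ∃ S2, S2 = S.filter (fun u : ℤ => ∃ x y : ℤ, |y| ≤ |x| ∧
    ((A ^ 19 : ℕ) : ℤ) ≤ |x| ^ 20 ∧ |x| ≤ ((A ^ κ : ℕ) : ℤ) ∧ ev3 (A + u) x y (swF F) = 0 ∧
    ¬ Sol (swF F) (A + u) x y) := ⟨_, rfl⟩
  have hsub : S ⊆ S1 ∪ S2 := by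
    intro u hu
    obtain ⟨hu0, huU, x, y, hor, hx, hy, hev, hsol⟩ := hS u hu
    rw [mem_union]
    rcases le_total |y| |x| with hyx | hyx
    · left
      rw [hS1, mem_filter]
      refine ⟨hu, x, y, hyx, ?_, hx, hev, hsol⟩
      rcases hor with h3 | h3
      · exact h3
      · exact h3.trans (pow_le_pow_left₀ (abs_nonneg _) hyx 20)
    · right
      rw [hS2, mem_filter]
      refine ⟨hu, y, x, hyx, ?_, hy, ?_, ?_⟩
      · rcases hor with h3 | h3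
        · exact h3.trans (pow_le_pow_left₀ (abs_nonneg _) hyx 20)
        · exact h3
      · rw [swF_ev3 h.H]
        exact hev
      · rw [swF_Sol h.H]
        exact hsol
  have e1 := h1 A U P (by omega) hU hAU hCpl S1 fun u hu => by
    rw [hS1, mem_filter] at hu
    exact ⟨(hS u hu.1).1, (hS u hu.1).2.1, hu.2⟩
  have e2 := h2 A U P (by omega) hU hAU hCpl S2 fun u hu => by
    rw [hS2, mem_filter] at hu
    exact ⟨(hS u hu.1).1, (hS u hu.1).2.1, hu.2⟩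
  have e3 := (card_le_card hsub).trans (card_union_le _ _)
  rw [add_mul]
  omega

end Pool.Agent.H4.TP
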