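import Pool.Agent.H4.TP.IRT

/-! # [H4 TP NEG] Negative values of the parameter: `HypG` and the three cases -/

namespace Pool.Agent.H4.TP

open Finset Polynomial Pool.Agent.H37.TE Pool.Agent.H98.TE Pool.Agent.H4.TE

variable {n m : ℕ} {F : ℤ[X][X][X]}

theorem topq_ng : topq n m (ngF F) = C ((-1) ^ m) * topq n m F := by
  ext b
  rw [coeff_C_mul, topq_coeff, topq_coeff]
  split_ifs
  · rw [cf3_ng]
    push_cast
    ring
  · ring

theorem degF_ng (h : DegF n m F) : DegF n m (ngF F) := by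
  refine ⟨?_, ?_⟩
  · intro a b hab
    rw [ngF_coeff, h.tot a b hab, zero_comp]
  · intro a b
    rw [ngF_coeff]
    have h1 := h.deg a b
    have h2 : (((F.coeff b).coeff a).comp (-X)).natDegree = ((F.coeff b).coeff a).natDegree := by
      unfold natDegree
      rw [degree_comp_neg_X]
    omega

theorem hypG_ng (h : HypG n m F) : HypG n m (ngF F) := by
  have hu : ((-1 : ℚ) ^ m) ≠ 0 := pow_ne_zero _ (by norm_num)
  refine ⟨degF_ng h.H, irrT_ng h.irr, ?_, ?_, ?_⟩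
  · rw [topq_ng]
    have h3 : IsUnit (C ((-1 : ℚ) ^ m)) := isUnit_C.2 (isUnit_iff_ne_zero.2 hu)
    exact (Associated.squarefree_iff (associated_unit_mul_left _ _ h3)).2 h.sq
  · rw [topq_ng, natDegree_C_mul hu]
    exact h.tq
  · rw [topq_ng, coeff_C_mul]
    exact mul_ne_zero hu h.tq0

/-- `t ↦ -t` on `ℤ[t][Z]` -/
noncomputable def ng2 : ℤ[X][X] →+* ℤ[X][X] := mapRingHom (compRingHom (-X))

theorem ng2_coeff (f : ℤ[X][X]) (b : ℕ) : (ng2 f).coeff b = (f.coeff b).comp (-X) := by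
  unfold ng2
  rw [coe_mapRingHom, coeff_map, coe_compRingHom_apply]

theorem ng2_ng2 (f : ℤ[X][X]) : ng2 (ng2 f) = f := by
  ext1 b
  rw [ng2_coeff, ng2_coeff, comp_neg_X_comp_neg_X]

theorem ng2_C (c : ℤ[X]) : ng2 (C c) = C (c.comp (-X)) := by
  unfold ng2
  rw [coe_mapRingHom, map_C, coe_compRingHom_apply]

theorem ng2_deg (f : ℤ[X][X]) : (ng2 f).natDegree = f.natDegree := by
  have h : ∀ g : ℤ[X][X], (ng2 g).natDegree ≤ g.natDegree := fun g => natDegree_map_le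
  refine le_antisymm (h f) ?_
  conv_lhs => rw [← ng2_ng2 f]
  exact h _

theorem comp_ne {c : ℤ[X]} (hc : c ≠ 0) : c.comp (-X) ≠ 0 := by
  intro h
  apply hc
  rw [← comp_neg_X_comp_neg_X c, h, zero_comp]

theorem topf_ng : topf n (ngF F) = ng2 (topf n F) := by
  ext1 b
  unfold ng2
  rw [coe_mapRingHom, coeff_map, coe_compRingHom_apply, tpf_coeff, tpf_coeff]
  split_ifs
  · rw [ngF_coeff]
  · rw [zero_comp]

theorem alpha_ng {f : ℤ[X][X]} (h : Alpha f) : Alpha (ng2 f) := by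
  obtain ⟨c, f1, hc, hf, hi⟩ := h
  refine ⟨c.comp (-X), ng2 f1, comp_ne hc, by rw [hf, map_mul, ng2_C], ?_⟩
  have h1 : (ng2 f1).map (mapRingHom (Int.castRingHom ℂ)) =
      (mapEquiv (algEquivAevalNegX (R := ℂ)).toRingEquiv)
        (f1.map (mapRingHom (Int.castRingHom ℂ))) := by
    rw [mapEquiv_apply]
    ext1 b
    rw [coeff_map, coeff_map, coeff_map, ng2_coeff]
    simp only [coe_mapRingHom]
    rw [map_comp]
    show _ = (algEquivAevalNegX (R := ℂ)) _
    simp [aeval_def, comp, eval₂_eq_eval_map]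
  rw [h1]
  exact (MulEquiv.irreducible_iff _).2 hi

theorem beta_ng {f : ℤ[X][X]} (h : Beta f) : Beta (ng2 f) := by
  obtain ⟨c, g, k, hc, hg, hk, hf⟩ := h
  refine ⟨c.comp (-X), ng2 g, ng2 k, comp_ne hc, by rwa [ng2_deg], by rwa [ng2_deg], ?_⟩
  rw [← ng2_C, ← map_mul, ← map_mul, hf]

theorem gamma_ng {f : ℤ[X][X]} (h : Gamma f) : Gamma (ng2 f) := by
  obtain ⟨c, q, hf, hi⟩ := h
  refine ⟨c.comp (-X), q, ?_, hi⟩
  rw [hf, map_mul, ng2_C]
  congr 1
  ext1 b
  unfold ng2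
  rw [coe_mapRingHom, coeff_map, coeff_map, coe_compRingHom_apply, C_comp]

theorem cases_ng (h : Alpha (topf n F) ∨ Beta (topf n F) ∨ Gamma (topf n F)) :
    Alpha (topf n (ngF F)) ∨ Beta (topf n (ngF F)) ∨ Gamma (topf n (ngF F)) := by
  rw [topf_ng]
  rcases h with h | h | h
  · exact Or.inl (alpha_ng h)
  · exact Or.inr (Or.inl (beta_ng h))
  · exact Or.inr (Or.inr (gamma_ng h))

end Pool.Agent.H4.TP
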