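import Pool.Agent.H4.TP.BND
import Pool.Agent.H4.TE.IRF
import Pool.Agent.H97.FC.FI3

/-! # [H4 TP LRA] Top form irreducible over `ℂ(t)`: FAMILIES in density form

Copy of `Pool/Agent/H4/TE/LRG.lean` (theorem `large`) with `families3` applied to `f1`, where `topf n F = C c * f1` (`Alpha`). `f1.natDegree = n` (`c ≠ 0`, `hl`), the degrees in `t` of the coefficients of `f1` are `≤ m` (`natDegree_mul`, those of `C c * f1` are, for non-zero coefficients). `(F.coeff n).coeff 0 = c * f1.coeff n`, so for `a` with `((F.coeff n).coeff 0)(a) ≠ 0` also `c(a) ≠ 0`.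
For such `a`, `fa (topf n F) a = C (c(a)) * fa f1 a`. `fm_irr` needs `Irreducible ((fa (topf n F) a).map (Int.castRingHom ℚ))`: it is a non-zero constant times the irreducible `(fa f1 a).map` (`associated_unit_mul_left`, `Associated.irreducible_iff`). `Eff n C (fa f1 a) a` needs `INg (fa f1 a) (Fm F a)`: from `ing` for `fa (topf n F) a`: a root in `K` (characteristic `0`) of `C (c(a)) * fa f1 a` is a root of `fa f1 a` (`aeval`, `c(a) ≠ 0`). The rest is unchanged (bound of the coefficients `fm_coeff`, `(a H)^C ≤ a^((m+2) C)`). -/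

namespace Pool.Agent.H4.TP

open Finset Polynomial Pool.Agent.H37.TE Pool.Agent.H98.TE Pool.Agent.H34.AC Pool.Agent.H97.FB
  Pool.Agent.H4.TE Pool.Agent.H97.FC

theorem large_alpha {n m : ℕ} {F : ℤ[X][X][X]} (hn : 3 ≤ n) (hm : 1 ≤ m) (H : DegF n m F)
    (hl : (F.coeff n).coeff 0 ≠ 0) (hA : Alpha (topf n F)) :
    ∃ (C : ℕ) (K δ : ℝ), 0 < δ ∧ δ < 1 ∧ 0 ≤ K ∧ ∀ N : ℕ, 1 ≤ N → ∃ E : Finset ℕ,
      (E.card : ℝ) ≤ K * (N : ℝ) ^ (1 - δ) ∧ ∀ a : ℕ, 1 ≤ a → a ≤ N → a ∉ E → ∀ x y : ℤ,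
        ev3 (a : ℤ) x y F = 0 → |x| ≤ (a : ℤ) ^ C ∧ |y| ≤ (a : ℤ) ^ C := by
  classical
  obtain ⟨c, f1, hc, hf1, hirr⟩ := hA
  obtain ⟨f, hf⟩ : ∃ f, f = topf n F := ⟨_, rfl⟩
  have hnat : f.natDegree = n := by
    refine natDegree_eq_of_le_of_coeff_ne_zero ?_ ?_
    · rw [natDegree_le_iff_coeff_eq_zero]
      intro b hb
      rw [hf, tpf_coeff, if_neg (by omega)]
    · rw [hf, tpf_coeff, if_pos le_rfl, Nat.sub_self]
      exact hl
  have hfm : ∀ i, (f.coeff i).natDegree ≤ m := by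
    intro i
    rw [hf, tpf_coeff]
    split_ifs
    · exact H.deg _ _
    · simp
  rw [← hf] at hf1
  have hnat1 : f1.natDegree = n := by
    rw [← hnat, hf1, natDegree_C_mul hc]
  have hfm1 : ∀ i, (f1.coeff i).natDegree ≤ m := by
    intro i
    have h1 := hfm i
    rw [hf1, coeff_C_mul] at h1
    rcases eq_or_ne (f1.coeff i) 0 with h0 | h0
    · rw [h0]
      simp
    · rw [natDegree_mul hc h0] at h1
      omega
  have hlc : (F.coeff n).coeff 0 = c * f1.coeff n := by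
    have h1 : f.coeff n = (F.coeff n).coeff 0 := by
      rw [hf, tpf_coeff, if_pos le_rfl, Nat.sub_self]
    rw [← h1, hf1, coeff_C_mul]
  obtain ⟨C, hC2, hfam⟩ := families3 n m n hn hm hn
  obtain ⟨-, K, hK⟩ := hfam f1 hnat1 hfm1 hirr
  obtain ⟨B1, hB1⟩ := fm_coeff H
  have hZ : {a : ℕ | ((F.coeff n).coeff 0).eval (a : ℤ) = 0}.Finite := by
    have h1 := Polynomial.finite_setOfPred_isRoot hl
    exact h1.preimage (fun x _ y _ hxy => Nat.cast_injective hxy)
  obtain ⟨Z, hZ2⟩ : ∃ Z : Finset ℕ, ∀ a : ℕ, a ∈ Z ↔ ((F.coeff n).coeff 0).eval (a : ℤ) = 0 :=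
    ⟨hZ.toFinset, fun a => by rw [Set.Finite.mem_toFinset]; rfl⟩
  have hC0 : (2 : ℝ) ≤ C := by exact_mod_cast hC2
  have hZ0 : (0 : ℝ) ≤ (Z.card : ℝ) := Nat.cast_nonneg _
  have hB0 : (0 : ℝ) ≤ (B1 : ℝ) := Nat.cast_nonneg _
  have hK0 := abs_nonneg K
  refine ⟨(m + 2) * C, |K| + Z.card + (B1 + 2), 1 / (C : ℝ), by positivity, ?_, by linarith,
    fun N hN => ?_⟩
  · rw [div_lt_one (by positivity)]
    linarith
  have hfin : (Set.Icc 1 N ∩ {a | ¬ GoodF n C f1 a}).Finite :=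
    (Set.finite_Icc 1 N).inter_of_left _
  refine ⟨hfin.toFinset ∪ (Z ∪ Finset.Icc 1 (B1 + 2)), ?_, ?_⟩
  · have h1 : ((hfin.toFinset ∪ (Z ∪ Finset.Icc 1 (B1 + 2))).card : ℝ) ≤
        (hfin.toFinset.card : ℝ) + ((Z.card : ℝ) + (B1 + 2)) := by
      have h2 := card_union_le hfin.toFinset (Z ∪ Finset.Icc 1 (B1 + 2))
      have h3 := card_union_le Z (Finset.Icc 1 (B1 + 2))
      rw [Nat.card_Icc] at h3
      have h4 : (hfin.toFinset ∪ (Z ∪ Finset.Icc 1 (B1 + 2))).card ≤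
        hfin.toFinset.card + (Z.card + (B1 + 2)) := by omega
      exact_mod_cast h4
    have h2 : (hfin.toFinset.card : ℝ) ≤ K * (N : ℝ) ^ (1 - 1 / (C : ℝ)) := by
      rw [← Set.ncard_eq_toFinset_card _ hfin]
      exact hK N hN
    have hN1 : (1 : ℝ) ≤ N := by exact_mod_cast hN
    have h3 : (1 : ℝ) ≤ (N : ℝ) ^ (1 - 1 / (C : ℝ)) := by
      apply Real.one_le_rpow hN1
      rw [sub_nonneg, div_le_one (by positivity)]
      linarith
    have h4 : K * (N : ℝ) ^ (1 - 1 / (C : ℝ)) ≤ |K| * (N : ℝ) ^ (1 - 1 / (C : ℝ)) :=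
      mul_le_mul_of_nonneg_right (le_abs_self K) (by positivity)
    have h5 : (Z.card : ℝ) + (B1 + 2) ≤ ((Z.card : ℝ) + (B1 + 2)) * (N : ℝ) ^ (1 - 1 / (C : ℝ)) :=
      le_mul_of_one_le_right (by linarith) h3
    calc _ ≤ _ := h1
      _ ≤ |K| * (N : ℝ) ^ (1 - 1 / (C : ℝ)) +
          ((Z.card : ℝ) + (B1 + 2)) * (N : ℝ) ^ (1 - 1 / (C : ℝ)) := by linarith
      _ = _ := by ring
  · intro a ha1 haN haE x y hxy
    rw [mem_union, mem_union, not_or, not_or, Set.Finite.mem_toFinset, mem_Icc] at haE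
    obtain ⟨e1, e2, e3⟩ := haE
    have hgood : GoodF n C f1 a := by
      by_contra hg
      exact e1 ⟨⟨ha1, haN⟩, hg⟩
    obtain ⟨g1, g2⟩ := hgood
    have hp : ((F.coeff n).coeff 0).eval (a : ℤ) ≠ 0 := fun h0 => e2 ((hZ2 a).2 h0)
    have hca : c.eval (a : ℤ) ≠ 0 := by
      intro h0
      apply hp
      rw [hlc, eval_mul, h0, zero_mul]
    have hfa : fa (topf n F) a = Polynomial.C (c.eval (a : ℤ)) * fa f1 a := by
      rw [← hf, hf1, fa, fa, Polynomial.map_mul, map_C]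
      rfl
    have haB : B1 + 2 < a := by omega
    have hd : (fa (topf n F) a).natDegree = n := by
      refine natDegree_eq_of_le_of_coeff_ne_zero ?_ ?_
      · rw [fa]
        refine natDegree_map_le.trans ?_
        rw [← hf, hnat]
      · rw [fa, coeff_map, tpf_coeff, if_pos le_rfl, Nat.sub_self]
        exact hp
    have g1' : Irreducible ((fa (topf n F) a).map (Int.castRingHom ℚ)) := by
      rw [hfa, Polynomial.map_mul, map_C]
      have hu : IsUnit (Polynomial.C ((Int.castRingHom ℚ) (c.eval (a : ℤ)))) := by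
        rw [isUnit_C]
        refine IsUnit.mk0 _ ?_
        simpa using hca
      exact (irreducible_isUnit_mul hu).2 g1
    have hing : INg (fa f1 a) (Fm F a) := by
      intro K' _ _ hK' X Y hXY
      rcases ing H (by omega) hp K' hK' X Y hXY with h1 | ⟨θ, hθ⟩
      · exact Or.inl h1
      · refine Or.inr ⟨θ, ?_⟩
        rw [hfa, map_mul, aeval_C] at hθ
        rcases mul_eq_zero.1 hθ with h2 | h2
        · exfalso
          apply hca
          have h3 : ((c.eval (a : ℤ) : ℤ) : K') = 0 := by simpa using h2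
          exact_mod_cast h3
        · exact h2
    have h1 := g2 (Fm F a) (fm_irr H (by omega) hd g1') (fm_deg H a)
      hing (max 2 (B1 * a ^ m)) (le_max_left _ _)
      (fun e => (hB1 a ha1 e).trans (by exact_mod_cast le_max_right _ _)) x y (by
        rw [vl_fm]
        exact hxy)
    have h2 : max 2 (B1 * a ^ m) ≤ a ^ (m + 1) := by
      have h3 : 1 ≤ a ^ m := Nat.one_le_pow _ _ ha1
      rw [pow_succ]
      refine max_le ?_ ?_
      · nlinarith
      · rw [mul_comm]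
        exact Nat.mul_le_mul_left _ (by omega)
    have h3 : (a * max 2 (B1 * a ^ m)) ^ C ≤ a ^ ((m + 2) * C) := by
      rw [pow_mul]
      apply Nat.pow_le_pow_left
      calc a * max 2 (B1 * a ^ m) ≤ a * a ^ (m + 1) := Nat.mul_le_mul_left _ h2
        _ = a ^ (m + 2) := by ring
    have h4 := h1.trans h3
    have h5 : x.natAbs ≤ a ^ ((m + 2) * C) := (le_max_left _ _).trans h4
    have h6 : y.natAbs ≤ a ^ ((m + 2) * C) := (le_max_right _ _).trans h4
    rw [Int.abs_eq_natAbs, Int.abs_eq_natAbs]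
    constructor
    · exact_mod_cast h5
    · exact_mod_cast h6

end Pool.Agent.H4.TP
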