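import Pool.Agent.H4.TP.ST
import Pool.Agent.H4.TP.BND

/-! # [H4 TP NEAR] At a large integer point one of the two auxiliary polynomials vanishes

Let `N = n^2 + 1`. `ybd`: `|y| ≤ a^κ max(1,|x|)`; for `|x| ≥ 1`: `Z = y/x`, `|Z| ≤ a^κ`, `ξ = 1/x`. `bnd` for `G, H, V, B, W, B', W'`, for `C u`, `C v` (lift to three variables: `u.map C`, value `u(a, Z)`), and for the polynomials `G1, H1` with `G = (G(0)).map C + C X * G1` (a polynomial with `G.map (evalRingHom 0)` subtracted is divisible by `C X`: coefficientwise `X_dvd_sub_C`): one exponent `M` for all of them (`a ≥ 2`, take the maximum).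
Let `g0, h0` be the values of `G(0)`, `H(0)` at `(a, Z)`, and `g, h` the values of `G`, `H` at `(a, ξ, Z)`: `|g - g0| ≤ |ξ| a^M`, `|h - h0| ≤ |ξ| a^M`. `d4(a) ≠ 0` is an integer, so `1 ≤ |u g0 + v h0| ≤ a^M (|g0| + |h0|)`: `|g0| ≥ a^(-M)/2` or `|h0| ≥ a^(-M)/2`. If `|x| ≥ 4 a^(2M)`: `|g| ≥ a^(-M)/4` or `|h| ≥ a^(-M)/4`.
First identity at `(a, ξ, Z)` with `ev3 a ξ Z (st n F) = 0` (`st_eval`, `x ≠ 0`; `ev3` over `ℝ` of integers is the cast: `ev3_hom`): `g h = - ξ^N V`, `|g h| ≤ |ξ|^N a^M`. If `|h| ≥ a^(-M)/4`: `|g| ≤ 4 a^(2M) |ξ|^N`. Second identity: `|d2(a)| |st A| ≤ |g| a^M + |ξ|^N a^M ≤ 5 a^(3M) |ξ|^N`. `ev3 a x y A = x^(n^2) * (st A)(a, ξ, Z)` (`st_eval`): `|d2(a) A_a(x,y)| ≤ 5 a^(3M) / |x| < 1` for `|x| ≥ a^(3M+4)`. `A_a(x, y)` is an integer, `|d2(a)| ≥ 1`: so `A_a(x, y) = 0`. If `|g| ≥ a^(-M)/4`: the same with `H, A', B', W', d3`. -/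

namespace Pool.Agent.H4.TP

open Finset Polynomial Pool.Agent.H37.TE Pool.Agent.H98.TE

/-- the value over the reals as a ring homomorphism -/
private noncomputable def nrE (t x y : ℝ) : ℤ[X][X][X] →+* ℝ :=
  eval₂RingHom (eval₂RingHom (eval₂RingHom (Int.castRingHom ℝ) t) x) y

private theorem nrE_apply (t x y : ℝ) (P : ℤ[X][X][X]) : ev3 t x y P = nrE t x y P := rfl

private theorem nrE_CC (a : ℕ) (x y : ℝ) (d : ℤ[X]) :
    nrE (a : ℝ) x y (C (C d)) = ((d.eval (a : ℤ) : ℤ) : ℝ) := by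
  unfold nrE
  rw [coe_eval₂RingHom, eval₂_C, coe_eval₂RingHom, eval₂_C, coe_eval₂RingHom,
    eval₂_at_natCast]
  rfl

private theorem nrE_X (t x y : ℝ) (N : ℕ) : nrE t x y (C (X ^ N)) = x ^ N := by
  unfold nrE
  rw [coe_eval₂RingHom, eval₂_C, map_pow, coe_eval₂RingHom, eval₂_X]

private theorem nr_dec (G : ℤ[X][X][X]) :
    ∃ G1 : ℤ[X][X][X], G = (G.map (evalRingHom 0)).map C + C X * G1 := by
  have h : (C X : ℤ[X][X][X]) ∣ G - (G.map (evalRingHom 0)).map C := by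
    rw [C_dvd_iff_dvd_coeff]
    intro i
    rw [coeff_sub, coeff_map, coeff_map, coe_evalRingHom, ← coeff_zero_eq_eval_zero]
    exact X_dvd_sub_C
  obtain ⟨G1, hG1⟩ := h
  exact ⟨G1, by rw [← hG1]; ring⟩

private theorem near_core {α g h V B W s d x : ℝ} (k : ℕ) (hα : 1 ≤ α) (hx : 8 * α ^ 3 ≤ |x|)
    (hgh : g * h = -((1 / x) ^ (k + 1) * V)) (hV : |V| ≤ α) (hB : |B| ≤ α) (hW : |W| ≤ α)
    (hh : 1 / (4 * α) ≤ |h|) (hs : d * s = g * B + (1 / x) ^ (k + 1) * W) :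
    |d * (x ^ k * s)| < 1 := by
  have hα3 : 1 ≤ α ^ 3 := one_le_pow₀ hα
  have hz : 0 < |x| := by linarith
  obtain ⟨z, hzd⟩ : ∃ z, z = |x| := ⟨_, rfl⟩
  obtain ⟨w, hwd⟩ : ∃ w, w = |1 / x| ^ (k + 1) := ⟨_, rfl⟩
  have hw0 : 0 ≤ w := by rw [hwd]; positivity
  have hzw : z ^ k * w = 1 / z := by
    rw [hwd, abs_div, abs_one, ← hzd, one_div, inv_pow, pow_succ]
    rw [← hzd] at hz
    field_simp
  rw [← hzd] at hx hz
  have h1 : |g| * |h| ≤ w * α := by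
    rw [← abs_mul, hgh, abs_neg, abs_mul, abs_pow, ← hwd]
    exact mul_le_mul_of_nonneg_left hV hw0
  have h2 : |g| ≤ 4 * α ^ 2 * w := by
    have h3 : |g| * (1 / (4 * α)) ≤ w * α :=
      (mul_le_mul_of_nonneg_left hh (abs_nonneg g)).trans h1
    rw [mul_one_div, div_le_iff₀ (by positivity)] at h3
    calc |g| ≤ w * α * (4 * α) := h3
      _ = 4 * α ^ 2 * w := by ring
  have h3 : |d * s| ≤ 5 * α ^ 3 * w := by
    rw [hs]
    have h4 : |(1 / x) ^ (k + 1) * W| ≤ w * α := by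
      rw [abs_mul, abs_pow, ← hwd]
      exact mul_le_mul_of_nonneg_left hW hw0
    have h5 : |g * B| ≤ 4 * α ^ 2 * w * α := by
      rw [abs_mul]
      exact mul_le_mul h2 hB (abs_nonneg _) (by positivity)
    have h6 : w * α ≤ w * α ^ 3 := by
      apply mul_le_mul_of_nonneg_left _ hw0
      nlinarith [sq_nonneg (α - 1), mul_nonneg (by linarith : (0 : ℝ) ≤ α) (by nlinarith : 0 ≤ α ^ 2 - 1)]
    calc |g * B + (1 / x) ^ (k + 1) * W| ≤ |g * B| + |(1 / x) ^ (k + 1) * W| := abs_add_le _ _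
      _ ≤ 4 * α ^ 2 * w * α + w * α ^ 3 := add_le_add h5 (h4.trans h6)
      _ = 5 * α ^ 3 * w := by ring
  have h4 : |d * (x ^ k * s)| = z ^ k * |d * s| := by
    have h5 : d * (x ^ k * s) = x ^ k * (d * s) := by ring
    rw [h5, abs_mul, abs_pow, ← hzd]
  rw [h4]
  calc z ^ k * |d * s| ≤ z ^ k * (5 * α ^ 3 * w) :=
        mul_le_mul_of_nonneg_left h3 (by positivity)
    _ = 5 * α ^ 3 * (z ^ k * w) := by ring
    _ = 5 * α ^ 3 / z := by rw [hzw, mul_one_div]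
    _ < 1 := by
        rw [div_lt_one hz]
        linarith

private theorem near_dich {α g h u v g1 h1 ξ D : ℝ} (hα : 1 ≤ α) (hξ : |ξ| ≤ 1 / (8 * α ^ 3))
    (hu : |u| ≤ α) (hv : |v| ≤ α) (hg1 : |g1| ≤ α) (hh1 : |h1| ≤ α) (hD : 1 ≤ |D|)
    (hE : u * (g - ξ * g1) + v * (h - ξ * h1) = D) :
    1 / (4 * α) ≤ |h| ∨ 1 / (4 * α) ≤ |g| := by
  by_contra hcon
  rw [not_or, not_le, not_le] at hcon
  obtain ⟨h2, h3⟩ := hcon
  have hα0 : 0 < α := by linarith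
  have e1 : D = u * g + v * h - ξ * (u * g1 + v * h1) := by rw [← hE]; ring
  have b1 : |u * g| ≤ 1 / 4 := by
    rw [abs_mul]
    calc |u| * |g| ≤ α * (1 / (4 * α)) := mul_le_mul hu h3.le (abs_nonneg _) hα0.le
      _ = 1 / 4 := by field_simp
  have b2 : |v * h| ≤ 1 / 4 := by
    rw [abs_mul]
    calc |v| * |h| ≤ α * (1 / (4 * α)) := mul_le_mul hv h2.le (abs_nonneg _) hα0.le
      _ = 1 / 4 := by field_simp
  have b3 : |u * g1 + v * h1| ≤ 2 * α ^ 2 := by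
    calc |u * g1 + v * h1| ≤ |u * g1| + |v * h1| := abs_add_le _ _
      _ ≤ α * α + α * α := by
          rw [abs_mul, abs_mul]
          exact add_le_add (mul_le_mul hu hg1 (abs_nonneg _) hα0.le)
            (mul_le_mul hv hh1 (abs_nonneg _) hα0.le)
      _ = 2 * α ^ 2 := by ring
  have b4 : |ξ * (u * g1 + v * h1)| ≤ 1 / 4 := by
    rw [abs_mul]
    calc |ξ| * |u * g1 + v * h1| ≤ 1 / (8 * α ^ 3) * (2 * α ^ 2) :=
          mul_le_mul hξ b3 (abs_nonneg _) (by positivity)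
      _ = 1 / (4 * α) := by field_simp; ring
      _ ≤ 1 / 4 := by
          apply one_div_le_one_div_of_le (by norm_num)
          linarith
  have b5 : |D| ≤ 3 / 4 := by
    rw [e1]
    calc |u * g + v * h - ξ * (u * g1 + v * h1)| ≤ |u * g + v * h| + |ξ * (u * g1 + v * h1)| :=
          abs_sub _ _
      _ ≤ (|u * g| + |v * h|) + |ξ * (u * g1 + v * h1)| := by
          linarith [abs_add_le (u * g) (v * h)]
      _ ≤ 3 / 4 := by linarith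
  linarith

theorem near {n m : ℕ} {F : ℤ[X][X][X]} (HF : DegF n m F) (hn : 2 ≤ n)
    (hl : (F.coeff n).coeff 0 ≠ 0)
    {d1 d2 d3 d4 : ℤ[X]} {G H V A B W A' B' W' : ℤ[X][X][X]} {u v : ℤ[X][X]}
    (hd2 : d2 ≠ 0) (hd3 : d3 ≠ 0) (hd4 : d4 ≠ 0)
    (h1 : C (C d1) * st n F = G * H + C (X ^ (n ^ 2 + 1)) * V) (hA : Tot (n ^ 2) A)
    (h2 : C (C d2) * st (n ^ 2) A = G * B + C (X ^ (n ^ 2 + 1)) * W) (hA' : Tot (n ^ 2) A')
    (h3 : C (C d3) * st (n ^ 2) A' = H * B' + C (X ^ (n ^ 2 + 1)) * W')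
    (h4 : u * G.map (evalRingHom 0) + v * H.map (evalRingHom 0) = C d4) :
    ∃ M : ℕ, ∀ a : ℕ, M ≤ a → ∀ x y : ℤ, ev3 (a : ℤ) x y F = 0 → (a : ℤ) ^ M ≤ |x| →
      ev3 (a : ℤ) x y A = 0 ∨ ev3 (a : ℤ) x y A' = 0 := by
  obtain ⟨G1, hG1⟩ := nr_dec G
  obtain ⟨H1, hH1⟩ := nr_dec H
  obtain ⟨κ, hκ⟩ := ybd HF (by omega) hl
  obtain ⟨A2, hA2⟩ := nz hd2
  obtain ⟨A3, hA3⟩ := nz hd3
  obtain ⟨A4, hA4⟩ := nz hd4
  obtain ⟨m1, b1⟩ := bnd κ V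
  obtain ⟨m2, b2⟩ := bnd κ B
  obtain ⟨m3, b3⟩ := bnd κ W
  obtain ⟨m4, b4⟩ := bnd κ B'
  obtain ⟨m5, b5⟩ := bnd κ W'
  obtain ⟨m6, b6⟩ := bnd κ (u.map C)
  obtain ⟨m7, b7⟩ := bnd κ (v.map C)
  obtain ⟨m8, b8⟩ := bnd κ G1
  obtain ⟨m9, b9⟩ := bnd κ H1
  obtain ⟨M, hM⟩ : ∃ M, M = m1 + m2 + m3 + m4 + m5 + m6 + m7 + m8 + m9 := ⟨_, rfl⟩
  refine ⟨κ + A2 + A3 + A4 + 2 + (3 * M + 3), fun a ha x y hF hx => ?_⟩
  have ha2 : 2 ≤ a := by omega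
  have haR : (2 : ℝ) ≤ a := by exact_mod_cast ha2
  have haR1 : (1 : ℝ) ≤ a := by linarith
  obtain ⟨α, hα⟩ : ∃ α : ℝ, α = (a : ℝ) ^ M := ⟨_, rfl⟩
  have hα1 : 1 ≤ α := by rw [hα]; exact one_le_pow₀ haR1
  have hpow : ∀ k ≤ M, (a : ℝ) ^ k ≤ α := fun k hk => by
    rw [hα]
    exact pow_le_pow_right₀ haR1 hk
  have hx1 : 8 * α ^ 3 ≤ |(x : ℝ)| := by
    have e1 : ((a : ℝ)) ^ (3 * M + 3) ≤ |(x : ℝ)| := by
      have e2 : ((a : ℝ)) ^ (κ + A2 + A3 + A4 + 2 + (3 * M + 3)) ≤ |(x : ℝ)| := by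
        exact_mod_cast hx
      exact (pow_le_pow_right₀ haR1 (by omega)).trans e2
    refine le_trans ?_ e1
    rw [pow_add, mul_comm 3 M, pow_mul, ← hα, mul_comm]
    refine mul_le_mul_of_nonneg_left ?_ (by positivity)
    calc (8 : ℝ) = 2 ^ 3 := by norm_num
      _ ≤ (a : ℝ) ^ 3 := pow_le_pow_left₀ (by norm_num) haR 3
  have hα3 : 1 ≤ α ^ 3 := one_le_pow₀ hα1
  have hxa : 8 ≤ |(x : ℝ)| := by linarith
  have hx0 : (x : ℝ) ≠ 0 := by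
    intro h
    rw [h, abs_zero] at hxa
    linarith
  have hxz : 1 ≤ |x| := by
    have : (8 : ℤ) ≤ |x| := by exact_mod_cast hxa
    linarith
  have hξ : |1 / (x : ℝ)| ≤ 1 / (8 * α ^ 3) := by
    rw [abs_div, abs_one]
    exact one_div_le_one_div_of_le (by positivity) hx1
  have hξ1 : |1 / (x : ℝ)| ≤ 1 := by
    rw [abs_div, abs_one, div_le_one (by linarith)]
    linarith
  have hZ : |(y : ℝ) / x| ≤ (a : ℝ) ^ κ := by
    have e1 := hκ a (by omega) x y hF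
    rw [max_eq_right hxz] at e1
    have e2 : |(y : ℝ)| ≤ (a : ℝ) ^ κ * |(x : ℝ)| := by exact_mod_cast e1
    rw [abs_div, div_le_iff₀ (by linarith)]
    exact e2
  obtain ⟨ξ, hξd⟩ : ∃ ξ : ℝ, ξ = 1 / (x : ℝ) := ⟨_, rfl⟩
  obtain ⟨Z, hZd⟩ : ∃ Z : ℝ, Z = (y : ℝ) / x := ⟨_, rfl⟩
  rw [← hξd] at hξ hξ1
  rw [← hZd] at hZ
  have hcast : ∀ P : ℤ[X][X][X], ((ev3 (a : ℤ) x y P : ℤ) : ℝ) = ev3 (a : ℝ) (x : ℝ) (y : ℝ) P := by
    intro P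
    have := ev3_hom (Int.castRingHom ℝ) (a : ℤ) x y P
    simpa using this
  -- the values
  have c1 := (b1 a ha2 ξ Z hξ1 hZ).trans (hpow _ (by omega))
  have c2 := (b2 a ha2 ξ Z hξ1 hZ).trans (hpow _ (by omega))
  have c3 := (b3 a ha2 ξ Z hξ1 hZ).trans (hpow _ (by omega))
  have c4 := (b4 a ha2 ξ Z hξ1 hZ).trans (hpow _ (by omega))
  have c5 := (b5 a ha2 ξ Z hξ1 hZ).trans (hpow _ (by omega))
  have c6 := (b6 a ha2 ξ Z hξ1 hZ).trans (hpow _ (by omega))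
  have c7 := (b7 a ha2 ξ Z hξ1 hZ).trans (hpow _ (by omega))
  have c8 := (b8 a ha2 ξ Z hξ1 hZ).trans (hpow _ (by omega))
  have c9 := (b9 a ha2 ξ Z hξ1 hZ).trans (hpow _ (by omega))
  rw [nrE_apply] at c1 c2 c3 c4 c5 c6 c7 c8 c9
  have hst0 : nrE (a : ℝ) ξ Z (st n F) = 0 := by
    have e1 := st_eval (D := n) (G := F) HF.tot (t := (a : ℝ)) (y := (y : ℝ)) hx0
    rw [← hcast, hF, Int.cast_zero, ← hξd, ← hZd] at e1
    exact (mul_eq_zero.1 e1.symm).resolve_left (pow_ne_zero _ hx0)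
  have i1 : nrE (a : ℝ) ξ Z G * nrE (a : ℝ) ξ Z H =
      -(ξ ^ (n ^ 2 + 1) * nrE (a : ℝ) ξ Z V) := by
    have e1 := congrArg (nrE (a : ℝ) ξ Z) h1
    rw [map_mul, hst0, mul_zero, map_add, map_mul, map_mul, nrE_X] at e1
    linarith
  have i2 : ((d2.eval (a : ℤ) : ℤ) : ℝ) * nrE (a : ℝ) ξ Z (st (n ^ 2) A) =
      nrE (a : ℝ) ξ Z G * nrE (a : ℝ) ξ Z B + ξ ^ (n ^ 2 + 1) * nrE (a : ℝ) ξ Z W := by
    have e1 := congrArg (nrE (a : ℝ) ξ Z) h2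
    rw [map_mul, map_add, map_mul, map_mul, nrE_X, nrE_CC] at e1
    exact e1
  have i3 : ((d3.eval (a : ℤ) : ℤ) : ℝ) * nrE (a : ℝ) ξ Z (st (n ^ 2) A') =
      nrE (a : ℝ) ξ Z H * nrE (a : ℝ) ξ Z B' + ξ ^ (n ^ 2 + 1) * nrE (a : ℝ) ξ Z W' := by
    have e1 := congrArg (nrE (a : ℝ) ξ Z) h3
    rw [map_mul, map_add, map_mul, map_mul, nrE_X, nrE_CC] at e1
    exact e1
  have g0 : nrE (a : ℝ) ξ Z ((G.map (evalRingHom 0)).map C) =
      nrE (a : ℝ) ξ Z G - ξ * nrE (a : ℝ) ξ Z G1 := by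
    have e1 := congrArg (nrE (a : ℝ) ξ Z) hG1
    have e2 := nrE_X (a : ℝ) ξ Z 1
    rw [pow_one, pow_one] at e2
    rw [map_add, map_mul, e2] at e1
    linarith
  have h0 : nrE (a : ℝ) ξ Z ((H.map (evalRingHom 0)).map C) =
      nrE (a : ℝ) ξ Z H - ξ * nrE (a : ℝ) ξ Z H1 := by
    have e1 := congrArg (nrE (a : ℝ) ξ Z) hH1
    have e2 := nrE_X (a : ℝ) ξ Z 1
    rw [pow_one, pow_one] at e2
    rw [map_add, map_mul, e2] at e1
    linarith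
  have i4 : nrE (a : ℝ) ξ Z (u.map C) * (nrE (a : ℝ) ξ Z G - ξ * nrE (a : ℝ) ξ Z G1) +
      nrE (a : ℝ) ξ Z (v.map C) * (nrE (a : ℝ) ξ Z H - ξ * nrE (a : ℝ) ξ Z H1) =
      ((d4.eval (a : ℤ) : ℤ) : ℝ) := by
    have e1 := congrArg (fun P : ℤ[X][X] => nrE (a : ℝ) ξ Z (P.map C)) h4
    simp only [Polynomial.map_add, Polynomial.map_mul, map_C, map_add, map_mul] at e1
    rw [g0, h0] at e1
    rw [e1]
    exact nrE_CC a ξ Z d4
  have hone : ∀ (d : ℤ[X]), d.eval (a : ℤ) ≠ 0 → 1 ≤ |((d.eval (a : ℤ) : ℤ) : ℝ)| := by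
    intro d hd
    have := Int.one_le_abs hd
    exact_mod_cast this
  have fin : ∀ (d : ℤ[X]) (P : ℤ[X][X][X]), d.eval (a : ℤ) ≠ 0 → Tot (n ^ 2) P →
      |((d.eval (a : ℤ) : ℤ) : ℝ) * ((x : ℝ) ^ (n ^ 2) * nrE (a : ℝ) ξ Z (st (n ^ 2) P))| < 1 →
      ev3 (a : ℤ) x y P = 0 := by
    intro d P hd hP hlt
    have e1 := st_eval (D := n ^ 2) (G := P) hP (t := (a : ℝ)) (y := (y : ℝ)) hx0
    rw [← hξd, ← hZd, nrE_apply (a : ℝ) ξ Z] at e1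
    rw [← e1, ← hcast] at hlt
    have e2 : |d.eval (a : ℤ) * ev3 (a : ℤ) x y P| < 1 := by exact_mod_cast hlt
    have e3 := Int.abs_lt_one_iff.1 e2
    exact (mul_eq_zero.1 e3).resolve_left hd
  have e2 := hA2 a (by omega)
  have e3 := hA3 a (by omega)
  have e4 := hA4 a (by omega)
  rcases near_dich hα1 hξ c6 c7 c8 c9 (hone d4 e4) i4 with hh | hg
  · left
    refine fin d2 A e2 hA ?_
    rw [hξd] at i1 i2 c1 c2 c3 hh ⊢
    exact near_core (n ^ 2) hα1 hx1 i1 c1 c2 c3 hh i2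
  · right
    refine fin d3 A' e3 hA' ?_
    rw [mul_comm (nrE (a : ℝ) ξ Z G)] at i1
    rw [hξd] at i1 i3 c1 c4 c5 hg ⊢
    exact near_core (n ^ 2) hα1 hx1 i1 c1 c4 c5 hg i3

end Pool.Agent.H4.TP
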