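import Pool.Agent.H4.TP.IRT
import Pool.Agent.H4.TP.BND

/-! # [H4 TP RES] Common zeros are polynomially bounded

`A ≠ 0`, `A.natDegree < n`, `F` irreducible over `ℚ(t)` with `F.natDegree = n` (`irr_frac`). Choose `D` with `TD D D D F` and `TD D D D A` (finitely many coefficients; see the start of `window_points` in `Pool/Agent/H37/TE/Win.lean`). `elim3` (`Pool/Agent/H37/TE/Elm.lean`; `1 ≤ (Bivariate.swap F).natDegree` from `hl'`): `R ≠ 0` in `ℤ[t][x]` with `evalEval a x R = 0` at all common zeros with integers `a, x, y`.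
Let `r = R.coeff k ≠ 0`, `k = R.natDegree` the leading coefficient (in `x`), `r ∈ ℤ[t]`; for `a` large `r(a) ≠ 0` (`nz`). The polynomial `R_a = R.map (evalRingHom a) ∈ ℤ[x]` has degree `k` and leading coefficient `r(a)`, a non-zero integer; coefficients `|R_i(a)| ≤ a^M` (`bnd1`). An integer root `x` (`evalEval`): if `|x| > ∑_(i<k) |R_i(a)|`, `|x| ≥ 1`, then `|x|^k ≤ |r(a) x^k| ≤ ∑_(i<k) |R_i(a)| |x|^i ≤ |x|^(k-1) ∑ |R_i(a)| < |x|^k` (`k ≥ 1`; for `k = 0` there is no root): so `|x| ≤ 1 + k a^M ≤ a^C`. -/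

namespace Pool.Agent.H4.TP

open Finset Polynomial Pool.Agent.H37.TE Pool.Agent.H98.TE

private theorem res_sup {R : Type*} [Semiring R] (p : R[X]) (g : R → ℕ) (h0 : g 0 = 0) (k : ℕ) :
    g (p.coeff k) ≤ ∑ j ∈ range (p.natDegree + 1), g (p.coeff j) := by
  by_cases hk : k < p.natDegree + 1
  · exact single_le_sum (f := fun j => g (p.coeff j)) (fun _ _ => Nat.zero_le _)
      (mem_range.2 hk)
  · rw [coeff_eq_zero_of_natDegree_lt (n := k) (by omega), h0]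
    exact Nat.zero_le _

private theorem res_td (G : ℤ[X][X][X]) : ∃ D, ∀ D', D ≤ D' → TD D' D' D' G := by
  obtain ⟨g1, hg1⟩ : ∃ g1 : ℤ[X][X] → ℕ, ∀ q, g1 q =
    ∑ j ∈ range (q.natDegree + 1), (q.coeff j).natDegree := ⟨_, fun _ => rfl⟩
  have h1 := res_sup G (fun q => q.natDegree) natDegree_zero
  have h2 := res_sup G g1 (by rw [hg1]; simp)
  refine ⟨G.natDegree + (∑ j ∈ range (G.natDegree + 1), (G.coeff j).natDegree) +
    ∑ j ∈ range (G.natDegree + 1), g1 (G.coeff j), fun D' hD => ⟨by omega, fun k => ⟨?_,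
      fun j => ?_⟩⟩⟩
  · have h3 : (G.coeff k).natDegree ≤ ∑ j ∈ range (G.natDegree + 1), (G.coeff j).natDegree :=
      h1 k
    omega
  · have h3 := h2 k
    have h4 : ((G.coeff k).coeff j).natDegree ≤
        ∑ j ∈ range ((G.coeff k).natDegree + 1), ((G.coeff k).coeff j).natDegree :=
      res_sup (G.coeff k) (fun q => q.natDegree) natDegree_zero j
    rw [← hg1] at h4
    omega

private theorem res_root (p : ℤ[X]) {x : ℤ} (hx : p.eval x = 0) (k : ℕ) (hk : p.natDegree ≤ k)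
    (hlead : p.coeff k ≠ 0) : |x| ≤ 1 + ∑ i ∈ range k, |p.coeff i| := by
  by_contra hcon
  rw [not_le] at hcon
  have hS : 0 ≤ ∑ i ∈ range k, |p.coeff i| := sum_nonneg fun i _ => abs_nonneg _
  rw [eval_eq_sum_range' (lt_of_le_of_lt hk (Nat.lt_succ_self k)), sum_range_succ] at hx
  have h1 : |p.coeff k * x ^ k| = |∑ i ∈ range k, p.coeff i * x ^ i| := by
    have h2 : p.coeff k * x ^ k = -(∑ i ∈ range k, p.coeff i * x ^ i) := by linarith
    rw [h2, abs_neg]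
  have h2 : |∑ i ∈ range k, p.coeff i * x ^ i| ≤ ∑ i ∈ range k, |p.coeff i| * |x| ^ i := by
    refine (abs_sum_le_sum_abs _ _).trans (le_of_eq (sum_congr rfl fun i _ => ?_))
    rw [abs_mul, abs_pow]
  rcases Nat.eq_zero_or_pos k with hk0 | hk0
  · subst hk0
    rw [range_zero, sum_empty, abs_zero, pow_zero, mul_one, abs_eq_zero] at h1
    exact hlead h1
  · obtain ⟨l, rfl⟩ : ∃ l, k = l + 1 := ⟨k - 1, by omega⟩
    have h3 : ∑ i ∈ range (l + 1), |p.coeff i| * |x| ^ i ≤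
        (∑ i ∈ range (l + 1), |p.coeff i|) * |x| ^ l := by
      rw [sum_mul]
      refine sum_le_sum fun i hi => mul_le_mul_of_nonneg_left
        (pow_le_pow_right₀ (by linarith) ?_) (abs_nonneg _)
      have := mem_range.1 hi
      omega
    have hxp : 0 ≤ |x| ^ (l + 1) := pow_nonneg (abs_nonneg x) _
    have h4 : |x| ^ (l + 1) ≤ |p.coeff (l + 1) * x ^ (l + 1)| := by
      rw [abs_mul, abs_pow]
      exact le_mul_of_one_le_left hxp (Int.one_le_abs hlead)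
    have h5 : (∑ i ∈ range (l + 1), |p.coeff i|) * |x| ^ l < |x| * |x| ^ l :=
      mul_lt_mul_of_pos_right (by linarith) (pow_pos (by linarith) l)
    rw [pow_succ'] at h4
    linarith

theorem common_bound {n m : ℕ} {F : ℤ[X][X][X]} (HF : DegF n m F) (hn : 1 ≤ n) (h : IrrT F)
    (hl : (F.coeff n).coeff 0 ≠ 0) (hl' : (F.coeff 0).coeff n ≠ 0) {A : ℤ[X][X][X]} (hA : A ≠ 0)
    (hAn : A.natDegree < n) : ∃ M : ℕ, ∀ a : ℕ, M ≤ a → ∀ x y : ℤ, ev3 (a : ℤ) x y F = 0 →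
      ev3 (a : ℤ) x y A = 0 → |x| ≤ (a : ℤ) ^ M := by
  have hcn : F.coeff n ≠ 0 := by
    intro h0
    rw [h0, coeff_zero] at hl
    exact hl rfl
  have hnat : F.natDegree = n := natDegree_eq_of_le_of_coeff_ne_zero HF.nat hcn
  have hirr := irr_frac h (by omega)
  obtain ⟨D1, hD1⟩ := res_td F
  obtain ⟨D2, hD2⟩ := res_td A
  have hsw : 1 ≤ (Bivariate.swap F).natDegree := by
    refine hn.trans (le_natDegree_of_ne_zero ?_)
    intro h0
    apply hl'
    have h1 := swap_coeff F n 0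
    rw [h0, coeff_zero] at h1
    exact h1.symm
  obtain ⟨R, R', hR, -, -, -, hRz⟩ := elim3 (hD1 (D1 + D2) (by omega)) (hD2 (D1 + D2) (by omega))
    hirr (by omega) hsw hA (by omega)
  obtain ⟨k, hk⟩ : ∃ k, k = R.natDegree := ⟨_, rfl⟩
  have hlead : R.coeff k ≠ 0 := by
    rw [hk]
    exact leadingCoeff_ne_zero.2 hR
  obtain ⟨A0, hA0⟩ := nz hlead
  choose Mi hMi using fun i => bnd1 (R.coeff i)
  have hM : ∀ i < k, ∀ a : ℕ, 2 ≤ a → |(R.coeff i).eval (a : ℤ)| ≤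
      (a : ℤ) ^ (∑ i ∈ range k, Mi i) := by
    intro i hi a ha
    refine (hMi i a ha).trans (pow_le_pow_right₀ (by exact_mod_cast (by omega : 1 ≤ a)) ?_)
    exact single_le_sum (f := Mi) (fun _ _ => Nat.zero_le _) (mem_range.2 hi)
  obtain ⟨M, hMM⟩ : ∃ M, M = ∑ i ∈ range k, Mi i := ⟨_, rfl⟩
  rw [← hMM] at hM
  refine ⟨A0 + 2 + (k + 1 + M), fun a ha x y h1 h2 => ?_⟩
  have h3 := (hRz a x y h1 h2).1
  rw [← map_evalRingHom_eval] at h3
  have hc : ∀ i, (R.map (evalRingHom (a : ℤ))).coeff i = (R.coeff i).eval (a : ℤ) := by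
    intro i
    rw [coeff_map]
    rfl
  have h4 := res_root (R.map (evalRingHom (a : ℤ))) h3 k (natDegree_map_le.trans hk.ge)
    (by rw [hc]; exact hA0 a (by omega))
  have ha2 : 2 ≤ a := by omega
  have ha1 : (1 : ℤ) ≤ a := by exact_mod_cast (by omega : 1 ≤ a)
  have h5 : ∑ i ∈ range k, |(R.map (evalRingHom (a : ℤ))).coeff i| ≤ (k : ℤ) * (a : ℤ) ^ M := by
    have h6 : ∑ i ∈ range k, |(R.map (evalRingHom (a : ℤ))).coeff i| ≤
        ∑ _i ∈ range k, (a : ℤ) ^ M := by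
      refine sum_le_sum fun i hi => ?_
      rw [hc]
      exact hM i (mem_range.1 hi) a ha2
    rw [sum_const, card_range, nsmul_eq_mul] at h6
    exact h6
  have h7 : (k : ℤ) + 1 ≤ (a : ℤ) ^ (k + 1) := by
    have h8 : k + 1 ≤ a ^ (k + 1) :=
      (Nat.lt_two_pow_self).le.trans (Nat.pow_le_pow_left ha2 (k + 1))
    exact_mod_cast h8
  have h9 : (1 : ℤ) ≤ (a : ℤ) ^ M := one_le_pow₀ ha1
  calc |x| ≤ 1 + (k : ℤ) * (a : ℤ) ^ M := by linarith
    _ ≤ ((k : ℤ) + 1) * (a : ℤ) ^ M := by linarith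
    _ ≤ (a : ℤ) ^ (k + 1) * (a : ℤ) ^ M := mul_le_mul_of_nonneg_right h7 (by linarith)
    _ = (a : ℤ) ^ (k + 1 + M) := by rw [← pow_add]
    _ ≤ (a : ℤ) ^ (A0 + 2 + (k + 1 + M)) := pow_le_pow_right₀ ha1 (by omega)

end Pool.Agent.H4.TP
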