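import Pool.Agent.H4.TP.CLR
import Pool.Agent.H4.TP.NEAR
import Pool.Agent.H4.TP.RES
import Pool.Agent.H4.TP.MID

/-! # [H4 TP LRB] Reducible top form: a uniform Runge theorem -/

namespace Pool.Agent.H4.TP

open Finset Polynomial Pool.Agent.H37.TE Pool.Agent.H98.TE

variable {n m : ℕ} {F : ℤ[X][X][X]}

theorem large_beta (hn : 2 ≤ n) (h : HypG n m F) (hB : Beta (topf n F)) : LargeAll F := by
  obtain ⟨d1, d2, d3, d4, G, H, V, A, B, W, A', B', W', u, v, -, e2, e3, e4, i1, a1, a2, a3, i2,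
    b1, b2, b3, i3, i4⟩ := identities hn h hB
  obtain ⟨M0, h0⟩ := near h.H hn h.lead e2 e3 e4 i1 a3 i2 b3 i3 i4
  obtain ⟨M1, h1⟩ := common_bound h.H (by omega) h.irr h.lead h.lead' a1 a2
  obtain ⟨M2, h2⟩ := common_bound h.H (by omega) h.irr h.lead h.lead' b1 b2
  obtain ⟨κ, h3⟩ := ybd h.H (by omega) h.lead
  obtain ⟨M, hM⟩ : ∃ M, M = M0 + M1 + M2 := ⟨_, rfl⟩
  refine ⟨κ + M + 1, fun a ha x y hxy => ?_⟩
  have ha1 : (1 : ℤ) ≤ a := by exact_mod_cast (by omega : 1 ≤ a)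
  have hx : |x| ≤ (a : ℤ) ^ M := by
    rcases le_total ((a : ℤ) ^ M0) |x| with hc | hc
    · rcases h0 a (by omega) x y hxy hc with h4 | h4
      · exact (h1 a (by omega) x y hxy h4).trans (pow_le_pow_right₀ ha1 (by omega))
      · exact (h2 a (by omega) x y hxy h4).trans (pow_le_pow_right₀ ha1 (by omega))
    · exact hc.trans (pow_le_pow_right₀ ha1 (by omega))
  have hy := h3 a (by omega) x y hxy
  have h5 : max 1 |x| ≤ (a : ℤ) ^ M := max_le (one_le_pow₀ ha1) hx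
  refine ⟨hx.trans (pow_le_pow_right₀ ha1 (by omega)), ?_⟩
  calc |y| ≤ (a : ℤ) ^ κ * max 1 |x| := hy
    _ ≤ (a : ℤ) ^ κ * (a : ℤ) ^ M := mul_le_mul_of_nonneg_left h5 (by positivity)
    _ = (a : ℤ) ^ (κ + M) := by rw [pow_add]
    _ ≤ (a : ℤ) ^ (κ + M + 1) := pow_le_pow_right₀ ha1 (by omega)

end Pool.Agent.H4.TP
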