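import Pool.Agent.H4.TP.BND
import Pool.Agent.H4.TE.IRF
import Pool.Agent.H8.AF.Num

/-! # [H4 TP LRC] Constant irreducible top form: AllCurves

`topf n F = C c * q.map C`, `q ∈ ℤ[Z]` irreducible over `ℚ`. `q.natDegree = n` (`(F.coeff n).coeff 0 = c * C (q.coeff n) ≠ 0`, the degree of `topf` is `≤ n`). Let `k = AdjoinRoot (q.map (Int.castRingHom ℚ))`, a number field of degree `n ≥ 3` (`Fact (Irreducible ..)`; finite dimension: `AdjoinRoot.powerBasis`, `finrank = natDegree`; characteristic `0` as an algebra over `ℚ`; universe `Type`). `Pool.Agent.H8.AF.all_curves k hk n hn`: a finite set `S` of natural numbers and the bound `max |x| |y| ≤ H^(cF n)` or `M ≤ max ≤ M^(wF n)` with `M ∈ S` (see how `Pool/Agent/Results/MP_821da1_nt/AllCurves.lean` uses it; `Pool/Agent/H97/NW` or `H8/AF` for the exact form) for all irreducible members.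
Apply it to `Fm F a` (`Pool/Agent/H4/TE/ING.lean`), `a` large with `c(a) ≠ 0`: irreducible over `ℚ` by `fm_irr` (`fa (topf n F) a = C (c(a)) * q`, a non-zero constant times an irreducible polynomial of degree `n`), degree `≤ n` (`fm_deg`), coefficients `≤ H = max 2 (B1 a^m)` (`fm_coeff`), points at infinity: `ing` gives for all number fields `K` with a real embedding and `X, Y ∈ K((z))`: both are power series or `K` contains a root `θ` of `fa (topf n F) a`, hence of `q`, and then `k → K` (`AdjoinRoot.lift`, ring hom; `q.map (Int.castRingHom ℚ)` over `K`). So `max |x| |y| ≤ H^(cF n) ≤ a^((m+1) cF n)` (`a ≥ B1 + 2`) or `max |x| |y| ≤ M^(wF n) ≤ (max S)^(wF n) ≤ a` for `a` large. `vl_fm` for the value. -/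

namespace Pool.Agent.H4.TP

open Finset Polynomial Pool.Agent.H37.TE Pool.Agent.H98.TE Pool.Agent.H4.TE

theorem large_gamma {n m : ℕ} {F : ℤ[X][X][X]} (hn : 3 ≤ n) (H : DegF n m F)
    (hl : (F.coeff n).coeff 0 ≠ 0) (hG : Gamma (topf n F)) : LargeAll F := by
  classical
  obtain ⟨c, q, hcq, hq⟩ := hG
  have hco : ∀ b, (topf n F).coeff b = c * C (q.coeff b) := by
    intro b
    rw [hcq, coeff_C_mul, coeff_map]
  have htop : (topf n F).coeff n = (F.coeff n).coeff 0 := by
    rw [tpf_coeff, if_pos le_rfl, Nat.sub_self]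
  have hc0 : c ≠ 0 := by
    rintro rfl
    apply hl
    rw [← htop, hco, zero_mul]
  have hqn : q.coeff n ≠ 0 := by
    intro h0
    apply hl
    rw [← htop, hco, h0, map_zero, mul_zero]
  have hqd : q.natDegree = n := by
    refine natDegree_eq_of_le_of_coeff_ne_zero ?_ hqn
    rw [natDegree_le_iff_coeff_eq_zero]
    intro b hb
    have h1 := hco b
    rw [tpf_coeff, if_neg (by omega)] at h1
    rcases mul_eq_zero.1 h1.symm with h2 | h2
    · exact absurd h2 hc0
    · exact C_eq_zero.1 h2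
  obtain ⟨q', hq'⟩ : ∃ q' : ℚ[X], q' = q.map (Int.castRingHom ℚ) := ⟨_, rfl⟩
  rw [← hq'] at hq
  have hq'd : q'.natDegree = n := by
    rw [hq', natDegree_map_eq_of_injective (RingHom.injective_int _), hqd]
  haveI : Fact (Irreducible q') := ⟨hq⟩
  have hq'0 : q' ≠ 0 := hq.ne_zero
  haveI hfd : FiniteDimensional ℚ (AdjoinRoot q') :=
    (AdjoinRoot.powerBasis hq'0).finite
  haveI : CharZero (AdjoinRoot q') := algebraRat.charZero _
  haveI : NumberField (AdjoinRoot q') := ⟨⟩
  have hrk : Module.finrank ℚ (AdjoinRoot q') = n := by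
    rw [(AdjoinRoot.powerBasis hq'0).finrank, AdjoinRoot.powerBasis_dim, hq'd]
  obtain ⟨S, -, hS⟩ := Pool.Agent.H8.AF.all_curves (AdjoinRoot q') (by rw [hrk]; exact hn) n hn
  obtain ⟨B1, hB1⟩ := fm_coeff H
  obtain ⟨A0, hA0⟩ := nz hc0
  obtain ⟨W, hW⟩ : ∃ W : ℕ, W = (S.sup id) ^ Pool.Agent.H8.AF.wF n := ⟨_, rfl⟩
  obtain ⟨E, hE⟩ : ∃ E : ℕ, E = (m + 1) * Pool.Agent.H8.AF.cF n := ⟨_, rfl⟩
  refine ⟨A0 + B1 + 2 + W + E, fun a ha x y hxy => ?_⟩
  have ha1 : 1 ≤ a := by omega
  have hca : c.eval (a : ℤ) ≠ 0 := hA0 a (by omega)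
  have hfa : Pool.Agent.H97.FB.fa (topf n F) a = C (c.eval (a : ℤ)) * q := by
    rw [Pool.Agent.H97.FB.fa, hcq, Polynomial.map_mul, map_C, Polynomial.map_map]
    congr 1
    have h1 : (evalRingHom (a : ℤ)).comp C = RingHom.id ℤ :=
      RingHom.ext_int _ _
    rw [h1, Polynomial.map_id]
  have hp : ((F.coeff n).coeff 0).eval (a : ℤ) ≠ 0 := by
    rw [← htop, hco, eval_mul, eval_C]
    exact mul_ne_zero hca hqn
  have hd : (Pool.Agent.H97.FB.fa (topf n F) a).natDegree = n := by
    rw [hfa, natDegree_C_mul hca, hqd]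
  have hirr : Irreducible ((Pool.Agent.H97.FB.fa (topf n F) a).map (Int.castRingHom ℚ)) := by
    rw [hfa, Polynomial.map_mul, map_C, ← hq']
    have hu : IsUnit (C ((Int.castRingHom ℚ) (c.eval (a : ℤ)))) := by
      rw [isUnit_C]
      apply IsUnit.mk0
      rw [eq_intCast]
      exact_mod_cast hca
    exact (irreducible_isUnit_mul hu).2 hq
  have hinf : Pool.Agent.H34.AC.INFR (AdjoinRoot q') (Fm F a) := by
    intro K _ _ hK X Y hXY
    rcases ing H (by omega) hp K hK X Y hXY with h1 | ⟨θ, hθ⟩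
    · exact Or.inl h1
    right
    rw [hfa, map_mul, aeval_C] at hθ
    have h2 : aeval θ q = 0 := by
      rcases mul_eq_zero.1 hθ with h3 | h3
      · exfalso
        rw [eq_intCast] at h3
        exact hca (by exact_mod_cast h3)
      · exact h3
    refine ⟨AdjoinRoot.lift (algebraMap ℚ K) θ ?_⟩
    rw [hq', eval₂_map]
    rw [aeval_def] at h2
    rw [← h2]
    congr 1
    exact RingHom.ext_int _ _
  have h1 := hS (Fm F a) (fm_irr H (by omega) hd hirr) (fm_deg H a) hinf (max 2 (B1 * a ^ m))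
    (le_max_left _ _) (fun e => (hB1 a ha1 e).trans (by exact_mod_cast le_max_right _ _)) x y (by
      rw [vl_fm]
      exact hxy)
  have h2 : max x.natAbs y.natAbs ≤ a ^ (A0 + B1 + 2 + W + E) := by
    rcases h1 with h1 | ⟨M, hM, -, h1⟩
    · refine h1.trans ?_
      have h2 : max 2 (B1 * a ^ m) ≤ a ^ (m + 1) := by
        have h3 : 1 ≤ a ^ m := Nat.one_le_pow _ _ ha1
        rw [pow_succ]
        refine max_le ?_ ?_
        · nlinarith
        · rw [mul_comm]
          exact Nat.mul_le_mul_left _ (by omega)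
      calc _ ≤ (a ^ (m + 1)) ^ Pool.Agent.H8.AF.cF n := Nat.pow_le_pow_left h2 _
        _ = a ^ E := by rw [← pow_mul, hE]
        _ ≤ _ := Nat.pow_le_pow_right ha1 (by omega)
    · refine h1.trans ?_
      calc _ ≤ (S.sup id) ^ Pool.Agent.H8.AF.wF n :=
            Nat.pow_le_pow_left (Finset.le_sup (f := id) hM) _
        _ = W := hW.symm
        _ ≤ a := by omega
        _ = a ^ 1 := (pow_one a).symm
        _ ≤ _ := Nat.pow_le_pow_right ha1 (by omega)
  have h5 : x.natAbs ≤ a ^ (A0 + B1 + 2 + W + E) := (le_max_left _ _).trans h2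
  have h6 : y.natAbs ≤ a ^ (A0 + B1 + 2 + W + E) := (le_max_right _ _).trans h2
  rw [Int.abs_eq_natAbs, Int.abs_eq_natAbs]
  constructor
  · exact_mod_cast h5
  · exact_mod_cast h6

end Pool.Agent.H4.TP
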