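import Pool.Agent.H98.TE.SWP

/-!
# [H4 TP] MP_821da1_nt: the integer points of 100 per cent of the members of every irreducible family

Extension of Theorem E (`Pool/Agent/H4/TE`). `F ∈ ℤ[t][x][y]` (inner variable `t`, outer variable `y`),
`ev3 t x y F` its value, `Kt = ℚ(t)`.

`IrrT F`: `F` is irreducible over `ℚ(t)` (denominators cleared). `HypG n m F`: total degree at most `n`
in `x, y`, degree at most `m` in `t`, `IrrT`, the top form `f_m(1, Z)` (`topq n m F`) is squarefree of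
degree `n` with non-zero constant coefficient. `Tot D G`: total degree at most `D`.
`st D G`: the reversed polynomial, `G(x, y) = x^D (st D G)(1/x, y/x)`.
For `f = topf n F ∈ ℤ[t][Z]`: `Alpha f`: irreducible over `ℂ(t)`; `Beta f`: reducible over `ℚ(t)`;
`Gamma f`: a constant polynomial, irreducible over `ℚ`, times a polynomial in `t`.
`LargeAll F`: for all large `a` all integer points of the member `a` are at most `a^C`.
-/

namespace Pool.Agent.H4.TP

open Finset Polynomial Pool.Agent.H37.TE Pool.Agent.H98.TE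

/-- the field of rational functions `ℚ(t)` -/
abbrev Kt : Type := FractionRing ℤ[X]

/-- `F` has no factorisation over `ℚ(t)` -/
def IrrT (F : ℤ[X][X][X]) : Prop :=
  ∀ (c : ℤ[X]) (G H : ℤ[X][X][X]), c ≠ 0 → C (C c) * F = G * H →
    (∃ g : ℤ[X], G = C (C g)) ∨ ∃ h : ℤ[X], H = C (C h)

/-- total degree at most `D` -/
def Tot {R : Type*} [Semiring R] (D : ℕ) (G : R[X][X]) : Prop :=
  ∀ a b, D < a + b → (G.coeff b).coeff a = 0

/-- the reversed polynomial: `G(x, y) = x^D (st D G)(1/x, y/x)` for `G` of total degree `≤ D` -/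
noncomputable def st {R : Type*} [Semiring R] (D : ℕ) (G : R[X][X]) : R[X][X] :=
  ∑ b ∈ range (D + 1), C (reflect (D - b) (G.coeff b)) * X ^ b

/-- the hypotheses (after a linear change of variables) -/
structure HypG (n m : ℕ) (F : ℤ[X][X][X]) : Prop where
  H : DegF n m F
  irr : IrrT F
  sq : Squarefree (topq n m F)
  tq : (topq n m F).natDegree = n
  tq0 : (topq n m F).coeff 0 ≠ 0

/-- irreducible over `ℂ(t)` -/
def Alpha (f : ℤ[X][X]) : Prop :=
  ∃ (c : ℤ[X]) (f1 : ℤ[X][X]), c ≠ 0 ∧ f = C c * f1 ∧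
    Irreducible (f1.map (mapRingHom (Int.castRingHom ℂ)))

/-- reducible over `ℚ(t)` -/
def Beta (f : ℤ[X][X]) : Prop :=
  ∃ (c : ℤ[X]) (g h : ℤ[X][X]), c ≠ 0 ∧ 1 ≤ g.natDegree ∧ 1 ≤ h.natDegree ∧ C c * f = g * h

/-- constant up to a factor in `ℤ[t]`, and irreducible over `ℚ` -/
def Gamma (f : ℤ[X][X]) : Prop :=
  ∃ c q : ℤ[X], f = C c * q.map C ∧ Irreducible (q.map (Int.castRingHom ℚ))

/-- for all large `a`: all integer points of the member `a` are polynomially bounded in `a` -/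
def LargeAll (F : ℤ[X][X][X]) : Prop :=
  ∃ C : ℕ, ∀ a : ℕ, C ≤ a → ∀ x y : ℤ, ev3 (a : ℤ) x y F = 0 →
    |x| ≤ (a : ℤ) ^ C ∧ |y| ≤ (a : ℤ) ^ C

end Pool.Agent.H4.TP
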