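import Pool.Agent.H4.TP.FDefs

/-! # [H4 TP LIN] Linear substitutions of determinant `1`

`lin_inv`: two algebra homs agree on `X 0`, `X 1` (`MvPolynomial.algHom_ext`, `ring`, `α δ - β γ = 1` cast to `R`). `lin_tot`: `aeval` with linear forms does not increase the total degree (`totalDegree_aeval...`, or `induction_on'''`/`as_sum`: a monomial goes to a product of powers of the two linear forms, `totalDegree_mul`, `totalDegree_pow`, `totalDegree_finset_sum`), equality by `lin_inv`. `lin_homog`: `p = ∑_i homogeneousComponent i p` (`sum_homogeneousComponent`), `lin` maps forms of degree `i` to forms of degree `i` (`IsHomogeneous.aeval` or monomials), `homogeneousComponent n` of a sum of forms. `lin_map`: two ring homs agree. `dec_lin`: apply the inverse to `C c * lin p = g * h`. `sqf_lin`: `Squarefree` transported by a ring automorphism (`Squarefree` of `MulEquiv`, or directly with the inverse: `x * x ∣ lin p → (lin⁻¹ x)^2 ∣ p`). `lin_eval`: `aeval` composition, `MvPolynomial.algHom_ext`.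
`famP_lin`, `topP_lin`: `map_sum`, `lin_map`, `lin_homog`. -/

namespace Pool.Agent.H4.TP

open Finset Polynomial

variable {R : Type} [CommRing R] {α β γ δ : ℤ}

private theorem lin_zero : lin α β γ δ (MvPolynomial.X 0 : MvPolynomial (Fin 2) R) =
    MvPolynomial.C (α : R) * MvPolynomial.X 0 + MvPolynomial.C (β : R) * MvPolynomial.X 1 := by
  simp [lin]

private theorem lin_one : lin α β γ δ (MvPolynomial.X 1 : MvPolynomial (Fin 2) R) =
    MvPolynomial.C (γ : R) * MvPolynomial.X 0 + MvPolynomial.C (δ : R) * MvPolynomial.X 1 := by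
  simp [lin]

private theorem lin_C (r : R) : lin α β γ δ (MvPolynomial.C r : MvPolynomial (Fin 2) R) =
    MvPolynomial.C r := by
  unfold lin
  exact MvPolynomial.aeval_C _ r

private theorem lin_hom_aux (n : ℕ) {p : MvPolynomial (Fin 2) R} (hp : p.IsHomogeneous n) :
    (lin α β γ δ p).IsHomogeneous n := by
  have h := hp.aeval (n := 1) (![MvPolynomial.C (α : R) * MvPolynomial.X 0 +
      MvPolynomial.C (β : R) * MvPolynomial.X 1,
    MvPolynomial.C (γ : R) * MvPolynomial.X 0 + MvPolynomial.C (δ : R) * MvPolynomial.X 1] :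
      Fin 2 → MvPolynomial (Fin 2) R) (by
      intro i
      fin_cases i
      · exact (MvPolynomial.isHomogeneous_C_mul_X _ _).add (MvPolynomial.isHomogeneous_C_mul_X _ _)
      · exact (MvPolynomial.isHomogeneous_C_mul_X _ _).add (MvPolynomial.isHomogeneous_C_mul_X _ _))
  rw [one_mul] at h
  exact h

private theorem lin_hc (n : ℕ) (p : MvPolynomial (Fin 2) R) :
    MvPolynomial.homogeneousComponent n (lin α β γ δ p) =
      lin α β γ δ (MvPolynomial.homogeneousComponent n p) := by
  induction p using MvPolynomial.induction_on' with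
  | monomial d c =>
    have h1 : (MvPolynomial.monomial d c).IsHomogeneous d.degree :=
      MvPolynomial.isHomogeneous_monomial c rfl
    rw [MvPolynomial.homogeneousComponent_of_mem (lin_hom_aux _ h1),
      MvPolynomial.homogeneousComponent_of_mem h1]
    split_ifs
    · rfl
    · rw [map_zero]
  | add p q hp hq => rw [map_add, map_add, map_add, map_add, hp, hq]

private theorem lin_le (p : MvPolynomial (Fin 2) R) :
    (lin α β γ δ p).totalDegree ≤ p.totalDegree := by
  have e : lin α β γ δ p = ∑ i ∈ range (p.totalDegree + 1),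
      lin α β γ δ (MvPolynomial.homogeneousComponent i p) := by
    rw [← map_sum, MvPolynomial.sum_homogeneousComponent]
  rw [e]
  refine MvPolynomial.totalDegree_finsetSum_le ?_
  intro i hi
  have h1 := (lin_hom_aux (α := α) (β := β) (γ := γ) (δ := δ) i
    (MvPolynomial.homogeneousComponent_isHomogeneous i p)).totalDegree_le
  have h2 := Finset.mem_range.mp hi
  omega

theorem lin_inv (h : α * δ - β * γ = 1) (p : MvPolynomial (Fin 2) R) :
    lin δ (-β) (-γ) α (lin α β γ δ p) = p := by
  have e : ((α : R) * δ - β * γ) = 1 := by exact_mod_cast congrArg (Int.cast : ℤ → R) h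
  have e1 : (lin δ (-β) (-γ) α).comp (lin α β γ δ) = AlgHom.id R (MvPolynomial (Fin 2) R) := by
    apply MvPolynomial.algHom_ext
    intro i
    have eC : (MvPolynomial.C ((α : R) * δ - β * γ) : MvPolynomial (Fin 2) R) = 1 := by
      rw [e, map_one]
    rw [map_sub, map_mul, map_mul] at eC
    fin_cases i
    · change lin δ (-β) (-γ) α (lin α β γ δ (MvPolynomial.X 0)) = MvPolynomial.X 0
      rw [lin_zero, map_add, map_mul, map_mul, lin_C, lin_C, lin_zero, lin_one]
      push_cast
      rw [map_neg, map_neg]
      linear_combination (MvPolynomial.X 0) * eC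
    · change lin δ (-β) (-γ) α (lin α β γ δ (MvPolynomial.X 1)) = MvPolynomial.X 1
      rw [lin_one, map_add, map_mul, map_mul, lin_C, lin_C, lin_zero, lin_one]
      push_cast
      rw [map_neg, map_neg]
      linear_combination (MvPolynomial.X 1) * eC
  exact DFunLike.congr_fun e1 p

theorem lin_tot (h : α * δ - β * γ = 1) (p : MvPolynomial (Fin 2) R) :
    (lin α β γ δ p).totalDegree = p.totalDegree := by
  refine le_antisymm (lin_le p) ?_
  conv_lhs => rw [← lin_inv h p]
  exact lin_le _

theorem lin_homog (n : ℕ) (p : MvPolynomial (Fin 2) R) :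
    MvPolynomial.homogeneousComponent n (lin α β γ δ p) =
      lin α β γ δ (MvPolynomial.homogeneousComponent n p) := by
  exact lin_hc n p

theorem lin_map {S : Type} [CommRing S] (φ : R →+* S) (p : MvPolynomial (Fin 2) R) :
    MvPolynomial.map φ (lin α β γ δ p) = lin α β γ δ (MvPolynomial.map φ p) := by
  have e : (MvPolynomial.map φ).comp (lin α β γ δ : MvPolynomial (Fin 2) R →ₐ[R] _).toRingHom =
      (lin α β γ δ : MvPolynomial (Fin 2) S →ₐ[S] _).toRingHom.comp (MvPolynomial.map φ) := by
    apply MvPolynomial.ringHom_ext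
    · intro r
      change MvPolynomial.map φ (lin α β γ δ (MvPolynomial.C r)) =
        lin α β γ δ (MvPolynomial.map φ (MvPolynomial.C r))
      rw [lin_C, MvPolynomial.map_C, lin_C]
    · intro i
      fin_cases i
      · change MvPolynomial.map φ (lin α β γ δ (MvPolynomial.X 0)) =
          lin α β γ δ (MvPolynomial.map φ (MvPolynomial.X 0))
        rw [lin_zero, MvPolynomial.map_X, lin_zero]
        simp
      · change MvPolynomial.map φ (lin α β γ δ (MvPolynomial.X 1)) =
          lin α β γ δ (MvPolynomial.map φ (MvPolynomial.X 1))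
        rw [lin_one, MvPolynomial.map_X, lin_one]
        simp
  exact DFunLike.congr_fun e p

theorem dec_lin (h : α * δ - β * γ = 1) (p : MvPolynomial (Fin 2) R) :
    Dec (lin α β γ δ p) ↔ Dec p := by
  have h' : δ * α - -β * -γ = 1 := by linear_combination h
  constructor
  · rintro ⟨c, g, k, hc, hg, hk, e⟩
    refine ⟨c, lin δ (-β) (-γ) α g, lin δ (-β) (-γ) α k, hc, ?_, ?_, ?_⟩
    · rw [lin_tot h']
      exact hg
    · rw [lin_tot h']
      exact hk
    · rw [← map_mul, ← e, map_mul, lin_C, lin_inv h]
  · rintro ⟨c, g, k, hc, hg, hk, e⟩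
    refine ⟨c, lin α β γ δ g, lin α β γ δ k, hc, ?_, ?_, ?_⟩
    · rw [lin_tot h]
      exact hg
    · rw [lin_tot h]
      exact hk
    · rw [← map_mul, ← e, map_mul, lin_C]

theorem sqf_lin (h : α * δ - β * γ = 1) {p : MvPolynomial (Fin 2) R} (hp : Squarefree p) :
    Squarefree (lin α β γ δ p) := by
  have h' : δ * α - -β * -γ = 1 := by linear_combination h
  intro x hx
  have h1 : lin δ (-β) (-γ) α x * lin δ (-β) (-γ) α x ∣ p := by
    have h2 := map_dvd (lin δ (-β) (-γ) α) hx
    rw [map_mul, lin_inv h] at h2
    exact h2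
  have h3 := (hp _ h1).map (lin α β γ δ)
  have h4 := lin_inv h' x
  rw [neg_neg, neg_neg] at h4
  rw [h4] at h3
  exact h3

theorem lin_eval {S : Type} [CommRing S] [Algebra R S] (x y : S) (p : MvPolynomial (Fin 2) R) :
    MvPolynomial.aeval ![x, y] (lin α β γ δ p) =
      MvPolynomial.aeval ![(α : S) * x + (β : S) * y, (γ : S) * x + (δ : S) * y] p := by
  have e : (MvPolynomial.aeval (R := R) ![x, y]).comp (lin α β γ δ) =
      MvPolynomial.aeval ![(α : S) * x + (β : S) * y, (γ : S) * x + (δ : S) * y] := by
    apply MvPolynomial.algHom_ext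
    intro i
    fin_cases i
    · change MvPolynomial.aeval ![x, y] (lin α β γ δ (MvPolynomial.X 0)) = _
      rw [lin_zero]
      simp
    · change MvPolynomial.aeval ![x, y] (lin α β γ δ (MvPolynomial.X 1)) = _
      rw [lin_one]
      simp
  exact DFunLike.congr_fun e p

theorem famP_lin (k : Type) [Field k] (m : ℕ) (F : ℕ → MvPolynomial (Fin 2) ℤ) :
    famP k m (fun j => lin α β γ δ (F j)) = lin α β γ δ (famP k m F) := by
  unfold famP
  rw [map_sum]
  refine Finset.sum_congr rfl ?_
  intro j _
  rw [map_mul, lin_C, lin_map]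

theorem topP_lin (k : Type) [Field k] (n m : ℕ) (F : ℕ → MvPolynomial (Fin 2) ℤ) :
    topP k n m (fun j => lin α β γ δ (F j)) = lin α β γ δ (topP k n m F) := by
  unfold topP
  rw [map_sum]
  refine Finset.sum_congr rfl ?_
  intro j _
  rw [map_mul, lin_C, lin_homog, lin_map]

end Pool.Agent.H4.TP
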