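import Pool.Agent.H4.TP.Defs
import Pool.Agent.H4.TE.BRG

/-! # [H4 TP] The families as polynomials in two variables over `k[t]`

`famP k m F = ∑_(j ≤ m) t^j F_j`, `topP k n m F` its part of degree `n` in `x, y`, `Dec p`: `p` is
reducible over the fraction field of `R` (with the denominators cleared).
`lin α β γ δ`: the substitution `x = α x + β y`, `y = γ x + δ y`. -/

namespace Pool.Agent.H4.TP

open Finset Polynomial Pool.Agent.H37.TE Pool.Agent.H98.TE

/-- the family over `k[t]` -/
noncomputable def famP (k : Type) [Field k] (m : ℕ) (F : ℕ → MvPolynomial (Fin 2) ℤ) :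
    MvPolynomial (Fin 2) k[X] :=
  ∑ j ∈ range (m + 1), MvPolynomial.C (X ^ j) * MvPolynomial.map (Int.castRingHom k[X]) (F j)

/-- the part of degree `n` in `x, y` of the family -/
noncomputable def topP (k : Type) [Field k] (n m : ℕ) (F : ℕ → MvPolynomial (Fin 2) ℤ) :
    MvPolynomial (Fin 2) k[X] :=
  ∑ j ∈ range (m + 1), MvPolynomial.C (X ^ j) *
    MvPolynomial.map (Int.castRingHom k[X]) (MvPolynomial.homogeneousComponent n (F j))

/-- reducible over the field of fractions of `R` -/
def Dec {R : Type} [CommRing R] (p : MvPolynomial (Fin 2) R) : Prop :=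
  ∃ (c : R) (g h : MvPolynomial (Fin 2) R), c ≠ 0 ∧ 0 < g.totalDegree ∧ 0 < h.totalDegree ∧
    MvPolynomial.C c * p = g * h

/-- a linear substitution -/
noncomputable def lin {R : Type} [CommRing R] (α β γ δ : ℤ) :
    MvPolynomial (Fin 2) R →ₐ[R] MvPolynomial (Fin 2) R :=
  MvPolynomial.aeval ![MvPolynomial.C (α : R) * MvPolynomial.X 0 +
      MvPolynomial.C (β : R) * MvPolynomial.X 1,
    MvPolynomial.C (γ : R) * MvPolynomial.X 0 + MvPolynomial.C (δ : R) * MvPolynomial.X 1]

end Pool.Agent.H4.TP
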