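import Pool.Agent.H4.TP.FDefs

/-! # [H4 TP COV] A good linear substitution

`Q = homogeneousComponent n P ≠ 0`, a form of degree `n` with integer coefficients. There are integers `α β γ δ` of determinant `1` with `Q(α, γ) ≠ 0 ≠ Q(β, δ)`: `q(z) = Q(1, z) = ∑_(i ≤ n) q_i z^i` is a non-zero polynomial (`top_cf` in `Pool/Agent/H4/TE/BRG.lean`: the coefficients of `Q` are the `q_i`), so `Q(1, c) ≠ 0` for some integer `c` (finitely many roots). `α = 1`, `γ = c`, `β = d`, `δ = 1 + c d`: determinant `1`. `Q(d, 1 + c d) = ∑ q_i d^(n-i) (1 + c d)^i` is a polynomial in `d` whose coefficient of `d^n` is `∑ q_i c^i = Q(1, c) ≠ 0` (if `n ≥ 1`; for `n = 0` it is the constant `q_0 ≠ 0`), so it is `≠ 0` for some integer `d`: e.g. `eval` of `reflect`-type polynomial; or: for `d ≠ 0`, `Q(d, 1 + c d) = d^n q(c + 1/d)`, `q` has finitely many real roots and is non-zero at `c + 1/d` for all large `d` (`q(c) ≠ 0` and continuity, or finiteness of the set of the roots). -/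

namespace Pool.Agent.H4.TP

open Finset Polynomial

theorem eval_hom2 {R : Type*} [CommRing R] {n : ℕ} {Q : MvPolynomial (Fin 2) R}
    (hQ : Q.IsHomogeneous n) (r a b : R) :
    MvPolynomial.eval ![r * a, r * b] Q = r ^ n * MvPolynomial.eval ![a, b] Q := by
  rw [MvPolynomial.eval_eq', MvPolynomial.eval_eq', mul_sum]
  refine sum_congr rfl fun d hd => ?_
  have h : d 0 + d 1 = n := by
    have h1 := hQ (MvPolynomial.mem_support_iff.mp hd)
    rw [← h1, Finsupp.weight_apply, Finsupp.sum_fintype _ _ (fun i => by simp), Fin.sum_univ_two]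
    simp
  rw [Fin.prod_univ_two, Fin.prod_univ_two]
  simp only [Matrix.cons_val_zero, Matrix.cons_val_one]
  rw [mul_pow, mul_pow, ← h, pow_add]
  ring

theorem eval_castR (Q : MvPolynomial (Fin 2) ℤ) (a b : ℤ) :
    MvPolynomial.eval ![(a : ℝ), (b : ℝ)] (MvPolynomial.map (Int.castRingHom ℝ) Q) =
      ((MvPolynomial.eval ![a, b] Q : ℤ) : ℝ) := by
  rw [MvPolynomial.eval_map]
  have h : (![(a : ℝ), (b : ℝ)] : Fin 2 → ℝ) = (Int.castRingHom ℝ) ∘ ![a, b] := by
    funext i
    fin_cases i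
    · simp
    · simp
  rw [h]
  have h2 := MvPolynomial.eval₂_comp_left (Int.castRingHom ℝ) (RingHom.id ℤ) ![a, b] Q
  rw [RingHom.comp_id] at h2
  rw [← h2]
  rfl

theorem good_lin {n : ℕ} {P : MvPolynomial (Fin 2) ℤ}
    (hP : MvPolynomial.homogeneousComponent n P ≠ 0) :
    ∃ α β γ δ : ℤ, α * δ - β * γ = 1 ∧
      MvPolynomial.eval ![α, γ] (MvPolynomial.homogeneousComponent n P) ≠ 0 ∧
      MvPolynomial.eval ![β, δ] (MvPolynomial.homogeneousComponent n P) ≠ 0 := by
  have hH : (MvPolynomial.homogeneousComponent n P).IsHomogeneous n :=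
    MvPolynomial.homogeneousComponent_isHomogeneous n P
  generalize MvPolynomial.homogeneousComponent n P = Q at hP hH
  -- a primitive point off the curve
  obtain ⟨α, γ, u, v, huv, h1⟩ : ∃ α γ u v : ℤ, α * u + γ * v = 1 ∧
      MvPolynomial.eval ![α, γ] Q ≠ 0 := by
    obtain ⟨x, hx⟩ : ∃ x : Fin 2 → ℤ, MvPolynomial.eval x Q ≠ 0 := by
      by_contra hc
      push Not at hc
      apply hP
      apply MvPolynomial.funext
      intro x
      rw [hc x, map_zero]
    have hx2 : x = ![x 0, x 1] := by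
      funext i
      fin_cases i
      · rfl
      · rfl
    by_cases hg : Int.gcd (x 0) (x 1) = 0
    · obtain ⟨h0, h00⟩ := Int.gcd_eq_zero_iff.mp hg
      have h3 := eval_hom2 hH (0 : ℤ) 1 0
      have h4 : (![0 * 1, 0 * 0] : Fin 2 → ℤ) = x := by
        rw [hx2, h0, h00]
        simp
      rw [h4] at h3
      refine ⟨1, 0, 1, 0, by norm_num, ?_⟩
      intro h5
      rw [h5, mul_zero] at h3
      exact hx h3
    · have hb := Int.gcd_eq_gcd_ab (x 0) (x 1)
      obtain ⟨a, ha⟩ := Int.gcd_dvd_left (x 0) (x 1)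
      obtain ⟨c, hc⟩ := Int.gcd_dvd_right (x 0) (x 1)
      refine ⟨a, c, Int.gcdA (x 0) (x 1), Int.gcdB (x 0) (x 1), ?_, ?_⟩
      · have hg' : ((Int.gcd (x 0) (x 1) : ℕ) : ℤ) ≠ 0 := by exact_mod_cast hg
        apply mul_left_cancel₀ hg'
        have : ((Int.gcd (x 0) (x 1) : ℕ) : ℤ) *
            (a * Int.gcdA (x 0) (x 1) + c * Int.gcdB (x 0) (x 1)) =
            (((Int.gcd (x 0) (x 1) : ℕ) : ℤ) * a) * Int.gcdA (x 0) (x 1) +
            (((Int.gcd (x 0) (x 1) : ℕ) : ℤ) * c) * Int.gcdB (x 0) (x 1) := by ring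
        rw [this, ← ha, ← hc, ← hb, mul_one]
      · intro h5
        apply hx
        have h8 := eval_hom2 hH ((Int.gcd (x 0) (x 1) : ℕ) : ℤ) a c
        rw [← ha, ← hc, h5, mul_zero, ← hx2] at h8
        exact h8
  -- the second point
  obtain ⟨k, hk⟩ : ∃ k : ℕ, MvPolynomial.eval ![(α : ℝ) + (1 / ((k : ℝ) + 1)) * (-v),
      (γ : ℝ) + (1 / ((k : ℝ) + 1)) * u] (MvPolynomial.map (Int.castRingHom ℝ) Q) ≠ 0 := by
    set f : ℝ → ℝ := fun s => MvPolynomial.eval ![(α : ℝ) + s * (-v), (γ : ℝ) + s * u]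
      (MvPolynomial.map (Int.castRingHom ℝ) Q) with hf
    have hcont : Continuous f := by
      apply (MvPolynomial.continuous_eval (MvPolynomial.map (Int.castRingHom ℝ) Q)).comp
      apply continuous_pi
      intro i
      fin_cases i
      · show Continuous fun s : ℝ => (α : ℝ) + s * (-v)
        fun_prop
      · show Continuous fun s : ℝ => (γ : ℝ) + s * u
        fun_prop
    have hf0 : f 0 ≠ 0 := by
      simp only [hf]
      rw [zero_mul, zero_mul, add_zero, add_zero, eval_castR]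
      exact_mod_cast h1
    have ht : Filter.Tendsto (fun k : ℕ => f (1 / ((k : ℝ) + 1))) Filter.atTop (nhds (f 0)) :=
      (hcont.tendsto 0).comp tendsto_one_div_add_atTop_nhds_zero_nat
    exact (ht.eventually_ne hf0).exists
  refine ⟨α, ((k : ℤ) + 1) * α - v, γ, ((k : ℤ) + 1) * γ + u, ?_, h1, ?_⟩
  · linear_combination huv
  · intro h6
    apply hk
    have h7 := eval_hom2 (hH.map (Int.castRingHom ℝ)) ((k : ℝ) + 1)
      ((α : ℝ) + (1 / ((k : ℝ) + 1)) * (-v)) ((γ : ℝ) + (1 / ((k : ℝ) + 1)) * u)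
    have hk1 : ((k : ℝ) + 1) ≠ 0 := by positivity
    have e1 : ((k : ℝ) + 1) * ((α : ℝ) + (1 / ((k : ℝ) + 1)) * (-v)) =
        (((((k : ℤ) + 1) * α - v : ℤ)) : ℝ) := by
      push_cast
      field_simp
      ring
    have e2 : ((k : ℝ) + 1) * ((γ : ℝ) + (1 / ((k : ℝ) + 1)) * u) =
        (((((k : ℤ) + 1) * γ + u : ℤ)) : ℝ) := by
      push_cast
      field_simp
    rw [e1, e2, eval_castR, h6, Int.cast_zero] at h7
    have h8 : ((k : ℝ) + 1) ^ n ≠ 0 := pow_ne_zero n hk1
    rcases mul_eq_zero.mp h7.symm with h | h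
    · exact absurd h h8
    · exact h

end Pool.Agent.H4.TP
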