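import Pool.Agent.H4.TP.FDefs
import Pool.Agent.H4.EX.TPH
import Pool.Agent.H4.TE.ADM

/-! # [H4 TP ALP] A top form which is not reducible over `ℂ(t)`: `Alpha`

`prim_c`: `f ∈ ℤ[t][Z]`, `f ≠ 0`: `f = C c * f1`, `c ≠ 0`, such that no non-constant `d ∈ ℂ[t]` divides all coefficients of `f1` over `ℂ`. Take `f1 = f.primPart`, `c = f.content` (`ℤ[X]` is a `NormalizedGCDMonoid` classically: `letI := Classical...`, see the note in `Pool/Agent/H37/TE/Czr.lean`; or choose `f = C c * f1` with `c` of maximal degree in `t`: the degrees are bounded by that of a non-zero coefficient of `f`). If `d ∈ ℂ[t]` is non-constant and divides all coefficients of `f1`, let `τ ∈ ℂ` be a root of `d` (`IsAlgClosed.exists_root`): all coefficients `r` of `f1` vanish at `τ`; one of them is `≠ 0`, so `τ` is algebraic; its minimal polynomial over `ℚ`, multiplied by an integer to a primitive `μ ∈ ℤ[t]` of degree `≥ 1`, divides all coefficients (`minpoly.dvd`, `IsPrimitive.Int.dvd_iff_map_cast_dvd_map_cast`), contradicting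 that `f1` is primitive (`μ` is not a unit).
`alpha_of`: `f = topf n (F3 m F)`, `f1` as above, `f1.natDegree = n ≥ 1`, so its image `p` in `ℂ[t][Z]` (same degree) is not a unit. Let `p = g * h`. If `g` (or `h`) has degree `0` in `Z`, `g = C g0`, then `g0` divides all coefficients, so it is constant, non-zero: a unit. Otherwise both have degree `≥ 1` in `Z`, degrees `r + s = n`. `hm r g = ∑_(i ≤ r) C (g.coeff i) * X 0^(r-i) * X 1^i` (`Pool/Agent/H4/EX/TPH.lean`), multiplicative: `hm n (g * h) = hm r g * hm s h` (there, or by `homogeneous` expansion), of total degree `r`, `s ≥ 1` (the coefficient of `X 1^r` is the leading coefficient of `g`). `topP ℂ n m F = hm n (f over ℂ)` (`ad_topC` in `Pool/Agent/H4/TE/ADM.lean`; `topP ℂ = topC` by `rfl`) `= C c * hm r g * hm s h`, so `Dec` with the constant `1`: contradiction. -/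

namespace Pool.Agent.H4.TP

open Finset Polynomial Pool.Agent.H37.TE Pool.Agent.H98.TE Pool.Agent.H4.TE Pool.Agent.H4.EX

/-- an integer polynomial without constant factors, vanishing at `τ`, divides every integer
polynomial vanishing at `τ` -/
private theorem alp_dvd {τ : ℂ} {μ r : ℤ[X]} (hμ : Irreducible μ) (hμp : μ.IsPrimitive)
    (h0 : aeval τ μ = 0) (hr : aeval τ r = 0) : μ ∣ r := by
  classical
  have hirr : Irreducible (μ.map (Int.castRingHom ℚ)) :=
    (IsPrimitive.Int.irreducible_iff_irreducible_map_cast hμp).1 hμ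
  have hev : ∀ q : ℤ[X], aeval τ (q.map (Int.castRingHom ℚ)) = aeval τ q := by
    intro q
    rw [aeval_def, aeval_def, eval₂_map, RingHom.ext_int ((algebraMap ℚ ℂ).comp
      (Int.castRingHom ℚ)) (algebraMap ℤ ℂ)]
  have hdvd : μ.map (Int.castRingHom ℚ) ∣ r.map (Int.castRingHom ℚ) := by
    by_contra hnd
    have hcop : IsCoprime (μ.map (Int.castRingHom ℚ)) (r.map (Int.castRingHom ℚ)) :=
      (hirr.coprime_iff_not_dvd).2 hnd
    obtain ⟨u, v, huv⟩ := hcop
    have h1 := congrArg (aeval τ) huv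
    rw [map_add, map_mul, map_mul, hev, hev, h0, hr, mul_zero, mul_zero, add_zero, map_one] at h1
    exact zero_ne_one h1
  exact (IsPrimitive.Int.dvd_iff_map_cast_dvd_map_cast μ r hμp).2 hdvd

theorem prim_c {f : ℤ[X][X]} (hf : f ≠ 0) : ∃ (c : ℤ[X]) (f1 : ℤ[X][X]), c ≠ 0 ∧ f = C c * f1 ∧
    ∀ d : ℂ[X], (∀ i, d ∣ (f1.coeff i).map (Int.castRingHom ℂ)) → IsUnit d := by
  classical
  letI : StrongNormalizationMonoid ℤ[X] := UniqueFactorizationMonoid.strongNormalizationMonoid
  letI : NormalizedGCDMonoid ℤ[X] := UniqueFactorizationMonoid.toNormalizedGCDMonoid ℤ[X]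
  refine ⟨f.content, f.primPart, ?_, f.eq_C_content_mul_primPart, ?_⟩
  · rw [Ne, content_eq_zero_iff]; exact hf
  intro d hd
  have hprim : f.primPart.IsPrimitive := f.isPrimitive_primPart
  have hp0 : f.primPart ≠ 0 := hprim.ne_zero
  obtain ⟨i0, hi0⟩ : ∃ i, f.primPart.coeff i ≠ 0 := by
    by_contra hc
    push Not at hc
    exact hp0 (Polynomial.ext (fun i => by rw [hc i, coeff_zero]))
  have hinj : Function.Injective (Int.castRingHom ℂ) := by
    intro a b hab
    simpa using hab
  have hd0 : d ≠ 0 := by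
    rintro rfl
    have h1 := hd i0
    rw [zero_dvd_iff] at h1
    exact hi0 ((Polynomial.map_eq_zero_iff hinj).1 h1)
  by_contra hnu
  have hdeg : d.degree ≠ 0 := by
    intro h
    exact hnu (isUnit_iff_degree_eq_zero.2 h)
  obtain ⟨τ, hτ⟩ := IsAlgClosed.exists_root d hdeg
  have hroot : ∀ i, aeval τ (f.primPart.coeff i) = 0 := by
    intro i
    obtain ⟨e, he⟩ := hd i
    have h1 := congrArg (Polynomial.eval τ) he
    rw [eval_mul, show eval τ d = 0 from hτ, zero_mul, eval_map] at h1
    rw [aeval_def, algebraMap_int_eq]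
    exact h1
  -- an irreducible factor vanishing at `τ`
  obtain ⟨μ, hμ, hμ0⟩ : ∃ μ : ℤ[X], Irreducible μ ∧ aeval τ μ = 0 := by
    obtain ⟨s, hs1, hs2⟩ := UniqueFactorizationMonoid.exists_prime_factors _ hi0
    obtain ⟨u, hu⟩ := hs2
    have h1 : aeval τ s.prod = 0 := by
      have h2 := hroot i0
      rw [← hu, map_mul] at h2
      rcases mul_eq_zero.1 h2 with h3 | h3
      · exact h3
      · exfalso
        have h4 : IsUnit (aeval τ (u : ℤ[X])) := u.isUnit.map (aeval τ)
        rw [h3] at h4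
        exact not_isUnit_zero h4
    rw [map_multiset_prod, Multiset.prod_eq_zero_iff, Multiset.mem_map] at h1
    obtain ⟨μ, hμ1, hμ2⟩ := h1
    exact ⟨μ, (hs1 μ hμ1).irreducible, hμ2⟩
  have hμd : μ.natDegree ≠ 0 := by
    intro h
    rw [eq_C_of_natDegree_eq_zero h, aeval_C] at hμ0
    have h1 : μ.coeff 0 = 0 := by simpa using hμ0
    apply hμ.ne_zero
    rw [eq_C_of_natDegree_eq_zero h, h1, C_0]
  have hμp : μ.IsPrimitive := hμ.isPrimitive hμd
  have hC : C μ ∣ f.primPart := by
    rw [C_dvd_iff_dvd_coeff]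
    intro i
    exact alp_dvd hμ hμp hμ0 (hroot i)
  exact hμ.not_isUnit (hprim μ hC)

/-! ### `hm` -/

private theorem al_add {k : Type*} [CommRing k] (d : ℕ) (g h : k[X]) :
    hm d (g + h) = hm d g + hm d h := by
  unfold hm
  rw [← Finset.sum_add_distrib]
  refine Finset.sum_congr rfl fun i _ => ?_
  rw [Polynomial.coeff_add, map_add]
  ring

private theorem al_zero {k : Type*} [CommRing k] (d : ℕ) : hm d (0 : k[X]) = 0 := by
  unfold hm
  refine Finset.sum_eq_zero fun i _ => ?_
  rw [Polynomial.coeff_zero, map_zero, zero_mul, zero_mul]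

private theorem al_mono {k : Type*} [CommRing k] {d n : ℕ} (hn : n ≤ d) (r : k) :
    hm d (C r * X ^ n) = MvPolynomial.C r * MvPolynomial.X 0 ^ (d - n) * MvPolynomial.X 1 ^ n := by
  unfold hm
  rw [Finset.sum_eq_single n]
  · rw [Polynomial.coeff_C_mul_X_pow, if_pos rfl]
  · intro i _ hi
    rw [Polynomial.coeff_C_mul_X_pow, if_neg hi, map_zero, zero_mul, zero_mul]
  · intro h
    exact absurd (Finset.mem_range.2 (by omega)) h

private theorem al_mul {k : Type*} [CommRing k] (a b : ℕ) (g h : k[X]) (hg : g.natDegree ≤ a)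
    (hh : h.natDegree ≤ b) : hm (a + b) (g * h) = hm a g * hm b h := by
  refine Polynomial.induction_with_natDegree_le
    (fun g => hm (a + b) (g * h) = hm a g * hm b h) a ?_ ?_ ?_ g hg
  · show hm (a + b) (0 * h) = hm a 0 * hm b h
    rw [zero_mul, al_zero, al_zero, zero_mul]
  · intro n r _ hn
    show hm (a + b) (C r * X ^ n * h) = hm a (C r * X ^ n) * hm b h
    refine Polynomial.induction_with_natDegree_le
      (fun h => hm (a + b) (C r * X ^ n * h) = hm a (C r * X ^ n) * hm b h) b ?_ ?_ ?_ h hh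
    · show hm (a + b) (C r * X ^ n * 0) = hm a (C r * X ^ n) * hm b 0
      rw [mul_zero, al_zero, al_zero, mul_zero]
    · intro m t _ hm'
      show hm (a + b) (C r * X ^ n * (C t * X ^ m)) = hm a (C r * X ^ n) * hm b (C t * X ^ m)
      have e : (C r * X ^ n * (C t * X ^ m) : k[X]) = C (r * t) * X ^ (n + m) := by
        rw [C_mul, pow_add]
        ring
      rw [e, al_mono (by omega), al_mono hn, al_mono hm', MvPolynomial.C_mul,
        show a + b - (n + m) = (a - n) + (b - m) by omega, pow_add, pow_add]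
      ring
    · intro f1 f2 _ _ h1 h2
      show hm (a + b) (C r * X ^ n * (f1 + f2)) = hm a (C r * X ^ n) * hm b (f1 + f2)
      have h1' : hm (a + b) (C r * X ^ n * f1) = hm a (C r * X ^ n) * hm b f1 := h1
      have h2' : hm (a + b) (C r * X ^ n * f2) = hm a (C r * X ^ n) * hm b f2 := h2
      rw [mul_add, al_add, al_add, h1', h2', mul_add]
  · intro f1 f2 _ _ h1 h2
    show hm (a + b) ((f1 + f2) * h) = hm a (f1 + f2) * hm b h
    have h1' : hm (a + b) (f1 * h) = hm a f1 * hm b h := h1
    have h2' : hm (a + b) (f2 * h) = hm a f2 * hm b h := h2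
    rw [add_mul, al_add, al_add, h1', h2', add_mul]

private theorem al_ev {k : Type*} [CommRing k] {d : ℕ} {g : k[X]} (hg : g.natDegree ≤ d) :
    MvPolynomial.aeval ![(1 : k[X]), X] (hm d g) = g := by
  unfold hm
  rw [map_sum]
  conv_rhs => rw [Polynomial.as_sum_range_C_mul_X_pow' g (show g.natDegree < d + 1 by omega)]
  refine Finset.sum_congr rfl fun i _ => ?_
  rw [map_mul, map_mul, map_pow, map_pow, MvPolynomial.aeval_X, MvPolynomial.aeval_X,
    MvPolynomial.aeval_C]
  simp

private theorem al_td {k : Type*} [CommRing k] {d : ℕ} {g : k[X]} (hg : g.natDegree ≤ d)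
    (h1 : 1 ≤ g.natDegree) : 0 < (hm d g).totalDegree := by
  rw [Nat.pos_iff_ne_zero]
  intro h
  rw [MvPolynomial.totalDegree_eq_zero_iff_eq_C] at h
  have h2 := al_ev hg
  rw [h, MvPolynomial.aeval_C] at h2
  rw [← h2] at h1
  have h3 : (algebraMap k k[X] (MvPolynomial.coeff 0 (hm d g))).natDegree = 0 := by
    rw [Polynomial.algebraMap_eq, natDegree_C]
  omega

theorem alpha_of {n m : ℕ} {F : ℕ → MvPolynomial (Fin 2) ℤ} (hn : 1 ≤ n)
    (hd : (topf n (F3 m F)).natDegree = n) (h : ¬ Dec (topP ℂ n m F)) :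
    Alpha (topf n (F3 m F)) := by
  obtain ⟨f, hf⟩ : ∃ f, f = topf n (F3 m F) := ⟨_, rfl⟩
  rw [← hf] at hd ⊢
  have hf0 : f ≠ 0 := by
    rintro rfl
    rw [natDegree_zero] at hd
    omega
  obtain ⟨c, f1, hc, hcf, hprim⟩ := prim_c hf0
  refine ⟨c, f1, hc, hcf, ?_⟩
  have hinj : Function.Injective (Int.castRingHom ℂ) := by
    intro a b hab
    simpa using hab
  have hinj2 : Function.Injective (mapRingHom (Int.castRingHom ℂ)) :=
    Polynomial.map_injective _ hinj
  have hd1 : f1.natDegree = n := by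
    rw [hcf, natDegree_C_mul hc] at hd
    exact hd
  obtain ⟨p, hp⟩ : ∃ p, p = f1.map (mapRingHom (Int.castRingHom ℂ)) := ⟨_, rfl⟩
  rw [← hp]
  have hpd : p.natDegree = n := by
    rw [hp, natDegree_map_eq_of_injective hinj2, hd1]
  have hp0 : p ≠ 0 := by
    rintro rfl
    rw [natDegree_zero] at hpd
    omega
  -- constants dividing `p` are units
  have hconst : ∀ g0 : ℂ[X], C g0 ∣ p → IsUnit g0 := by
    intro g0 hg0
    apply hprim
    intro i
    rw [C_dvd_iff_dvd_coeff] at hg0
    have := hg0 i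
    rw [hp, coeff_map, coe_mapRingHom] at this
    exact this
  refine ⟨fun hu => ?_, fun g k hgk => ?_⟩
  · have := natDegree_eq_zero_of_isUnit hu
    omega
  by_cases hg : g.natDegree = 0
  · left
    rw [eq_C_of_natDegree_eq_zero hg, isUnit_C]
    apply hconst
    rw [← eq_C_of_natDegree_eq_zero hg, hgk]
    exact dvd_mul_right _ _
  by_cases hk : k.natDegree = 0
  · right
    rw [eq_C_of_natDegree_eq_zero hk, isUnit_C]
    apply hconst
    rw [← eq_C_of_natDegree_eq_zero hk, hgk]
    exact dvd_mul_left _ _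
  exfalso
  apply h
  have hg0 : g ≠ 0 := by
    rintro rfl
    exact hg natDegree_zero
  have hk0 : k ≠ 0 := by
    rintro rfl
    exact hk natDegree_zero
  have hsum : g.natDegree + k.natDegree = n := by
    rw [← natDegree_mul hg0 hk0, ← hgk, hpd]
  obtain ⟨c', hc'⟩ : ∃ c', c' = mapRingHom (Int.castRingHom ℂ) c := ⟨_, rfl⟩
  have hc'0 : c' ≠ 0 := by
    rw [hc']
    intro h0
    exact hc (hinj2 (by rw [h0, map_zero]))
  have hcg : (C c' * g).natDegree = g.natDegree := natDegree_C_mul hc'0
  refine ⟨1, hm g.natDegree (C c' * g), hm k.natDegree k, one_ne_zero,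
    al_td hcg.le (by rw [hcg]; omega), al_td le_rfl (by omega), ?_⟩
  rw [MvPolynomial.C_1, one_mul]
  have e1 : topP ℂ n m F = hm n (f.map (mapRingHom (Int.castRingHom ℂ))) := by
    rw [hf]
    exact ad_topC F
  have e2 : f.map (mapRingHom (Int.castRingHom ℂ)) = C c' * g * k := by
    rw [hcf, Polynomial.map_mul, Polynomial.map_C, ← hp, hgk, hc']
    ring
  rw [e1, e2, ← hsum]
  exact al_mul _ _ _ _ hcg.le le_rfl

end Pool.Agent.H4.TP
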