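import Pool.Agent.H4.TP.FDefs
import Pool.Agent.H4.EX.TPH

/-! # [H4 TP BET] A reducible top form: `Beta`

`C c * topP ℚ n m F = g * h` in `MvPolynomial (Fin 2) ℚ[X]`. The ring hom `ev : MvPolynomial (Fin 2) ℚ[X] → ℚ[X][X]`, `eval₂Hom C ![1, X]` (`x = 1`, `y = Z`): `ev (topP ℚ n m F) = (topf n (F3 m F)).map (mapRingHom (Int.castRingHom ℚ))` (`topP` is a sum of `C (..) * X 0^(n-i) * X 1^i`: `top_cf`, `coeff_f3`, `tpf_coeff`, see `ad_topC` in `Pool/Agent/H4/TE/ADM.lean`). `natDegree (ev p) ≤ p.totalDegree`.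
`totalDegree (C c * topP) ≤ n` (`topP` is homogeneous of degree `n`), `= g.totalDegree + h.totalDegree` (`MvPolynomial.totalDegree_mul_of_isDomain`), and `n = natDegree (C c * ev topP) = natDegree (ev g) + natDegree (ev h)` (`natDegree_mul`, no zero divisors, hypothesis `hd`). So `natDegree (ev g) = g.totalDegree ≥ 1`, and the same for `h`. Clear the denominators in `ℚ[X][X]` (an integer `s ≠ 0` with `C (C s) * p` integral: finitely many coefficients, `IsLocalization.integerNormalization` or induction): `C c * f = g1 * h1` over `ℚ` becomes `C c' * f = g2 * h2` over `ℤ` (injectivity of the map). -/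

namespace Pool.Agent.H4.TP

open Finset Polynomial Pool.Agent.H37.TE Pool.Agent.H98.TE Pool.Agent.H4.TE Pool.Agent.H4.EX

private theorem bet_topP {k : Type} [Field k] {n m : ℕ} (F : ℕ → MvPolynomial (Fin 2) ℤ) :
    topP k n m F = hm n ((topf n (F3 m F)).map (mapRingHom (Int.castRingHom k))) := by
  unfold topP hm
  have h1 : ∀ i ∈ range (n + 1),
      (MvPolynomial.C (((topf n (F3 m F)).map (mapRingHom (Int.castRingHom k))).coeff i) *
        MvPolynomial.X 0 ^ (n - i) * MvPolynomial.X 1 ^ i : MvPolynomial (Fin 2) k[X]) =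
      ∑ j ∈ range (m + 1), MvPolynomial.C (X ^ j) *
        MvPolynomial.map (Int.castRingHom k[X]) (MvPolynomial.C
          ((F j).coeff (Finsupp.single 0 (n - i) + Finsupp.single 1 i)) *
          MvPolynomial.X 0 ^ (n - i) * MvPolynomial.X 1 ^ i) := by
    intro i hi
    have hi' : i ≤ n := Nat.lt_succ_iff.1 (mem_range.1 hi)
    rw [coeff_map, tpf_coeff, if_pos hi', coeff_f3, map_sum, map_sum, sum_mul, sum_mul]
    refine sum_congr rfl fun j _ => ?_
    simp only [map_mul, map_pow, MvPolynomial.map_C, MvPolynomial.map_X, coe_mapRingHom,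
      Polynomial.map_X, eq_intCast, map_intCast]
    ring
  rw [sum_congr rfl h1, sum_comm]
  refine sum_congr rfl fun j _ => ?_
  rw [top_cf, map_sum, mul_sum]

private theorem bet_cl1 (q : ℚ[X]) : ∃ (s : ℤ) (P : ℤ[X]), s ≠ 0 ∧
    P.map (Int.castRingHom ℚ) = C (s : ℚ) * q := by
  obtain ⟨b, hb0, hb⟩ := IsLocalization.integerNormalization_spec (nonZeroDivisors ℤ) q
  refine ⟨b, IsLocalization.integerNormalization (nonZeroDivisors ℤ) q,
    nonZeroDivisors.ne_zero hb0, ?_⟩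
  rw [show (Int.castRingHom ℚ) = algebraMap ℤ ℚ from rfl, hb]
  ext i
  rw [coeff_smul, coeff_C_mul]
  simp

private theorem bet_cl2 (p : ℚ[X][X]) : ∃ (s : ℤ) (P : ℤ[X][X]), s ≠ 0 ∧
    P.map (mapRingHom (Int.castRingHom ℚ)) = C (C (s : ℚ)) * p := by
  induction p using Polynomial.induction_on' with
  | add p q hp hq =>
    obtain ⟨s, P, hs, hP⟩ := hp
    obtain ⟨t, Q, ht, hQ⟩ := hq
    refine ⟨s * t, C (C t) * P + C (C s) * Q, mul_ne_zero hs ht, ?_⟩
    rw [Polynomial.map_add, Polynomial.map_mul, Polynomial.map_mul, hP, hQ, Polynomial.map_C,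
      Polynomial.map_C, coe_mapRingHom, Polynomial.map_C, Polynomial.map_C, eq_intCast,
      eq_intCast, Int.cast_mul, C_mul, C_mul]
    ring
  | monomial i a =>
    obtain ⟨s, P, hs, hP⟩ := bet_cl1 a
    refine ⟨s, monomial i P, hs, ?_⟩
    rw [Polynomial.map_monomial, coe_mapRingHom, hP, C_mul_monomial]

private theorem bet_deg (p : MvPolynomial (Fin 2) ℚ[X]) :
    (MvPolynomial.aeval ![(1 : ℚ[X][X]), X] p).natDegree ≤ p.totalDegree := by
  rw [MvPolynomial.aeval_def, MvPolynomial.eval₂_eq']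
  refine natDegree_sum_le_of_forall_le _ _ fun d hd => ?_
  have h1 : d 1 ≤ p.totalDegree := by
    refine le_trans ?_ (MvPolynomial.le_totalDegree hd)
    rw [Finsupp.sum_fintype _ _ (fun _ => rfl), Fin.sum_univ_two]
    exact Nat.le_add_left _ _
  rw [Fin.prod_univ_two]
  simp only [Matrix.cons_val_zero, Matrix.cons_val_one, one_pow, one_mul]
  exact (natDegree_C_mul_X_pow_le _ _).trans h1

private theorem bet_ev {d : ℕ} {g : ℚ[X][X]} (hg : g.natDegree ≤ d) :
    MvPolynomial.aeval ![(1 : ℚ[X][X]), X] (hm d g) = g := by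
  unfold hm
  rw [map_sum]
  conv_rhs => rw [Polynomial.as_sum_range_C_mul_X_pow' g (show g.natDegree < d + 1 by omega)]
  refine Finset.sum_congr rfl fun i _ => ?_
  rw [map_mul, map_mul, map_pow, map_pow, MvPolynomial.aeval_X, MvPolynomial.aeval_X,
    MvPolynomial.aeval_C]
  simp

private theorem bet_tot {n : ℕ} (g : ℚ[X][X]) : (hm n g).totalDegree ≤ n := by
  unfold hm
  refine MvPolynomial.totalDegree_finsetSum_le fun i hi => ?_
  have hi' : i ≤ n := Nat.lt_succ_iff.1 (mem_range.1 hi)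
  refine (MvPolynomial.totalDegree_mul _ _).trans ?_
  refine (add_le_add (MvPolynomial.totalDegree_mul _ _) le_rfl).trans ?_
  rw [MvPolynomial.totalDegree_C, MvPolynomial.totalDegree_X_pow, MvPolynomial.totalDegree_X_pow]
  omega

theorem beta_of {n m : ℕ} {F : ℕ → MvPolynomial (Fin 2) ℤ}
    (hd : (topf n (F3 m F)).natDegree = n) (h : Dec (topP ℚ n m F)) :
    Beta (topf n (F3 m F)) := by
  obtain ⟨c, g, h, hc, hg, hh, e⟩ := h
  obtain ⟨f, hf⟩ : ∃ f, f = (topf n (F3 m F)).map (mapRingHom (Int.castRingHom ℚ)) := ⟨_, rfl⟩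
  have hinj : Function.Injective (Polynomial.map (mapRingHom (Int.castRingHom ℚ))) :=
    map_injective _ (map_injective _ Int.cast_injective)
  have hfd : f.natDegree = n := by
    rw [hf, natDegree_map_eq_of_injective (map_injective _ Int.cast_injective), hd]
  rw [bet_topP, ← hf] at e
  have hg0 : g ≠ 0 := by
    rintro rfl
    rw [MvPolynomial.totalDegree_zero] at hg
    omega
  have hh0 : h ≠ 0 := by
    rintro rfl
    rw [MvPolynomial.totalDegree_zero] at hh
    omega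
  have ht : g.totalDegree + h.totalDegree ≤ n := by
    rw [← MvPolynomial.totalDegree_mul_of_isDomain hg0 hh0, ← e]
    refine (MvPolynomial.totalDegree_mul _ _).trans ?_
    rw [MvPolynomial.totalDegree_C, zero_add]
    exact bet_tot f
  have hf0 : f ≠ 0 := by
    rintro rfl
    rw [natDegree_zero] at hfd
    omega
  have e2 : C c * f = MvPolynomial.aeval ![(1 : ℚ[X][X]), X] g *
      MvPolynomial.aeval ![(1 : ℚ[X][X]), X] h := by
    rw [← map_mul, ← e, map_mul, bet_ev hfd.le, MvPolynomial.aeval_C]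
    rfl
  obtain ⟨g1, hg1⟩ : ∃ g1, g1 = MvPolynomial.aeval ![(1 : ℚ[X][X]), X] g := ⟨_, rfl⟩
  obtain ⟨h1, hh1⟩ : ∃ h1, h1 = MvPolynomial.aeval ![(1 : ℚ[X][X]), X] h := ⟨_, rfl⟩
  have hgd := bet_deg g
  have hhd := bet_deg h
  rw [← hg1, ← hh1] at e2
  rw [← hg1] at hgd
  rw [← hh1] at hhd
  have hcf : C c * f ≠ 0 := mul_ne_zero (C_ne_zero.2 hc) hf0
  have hg10 : g1 ≠ 0 := by
    rintro h0
    rw [e2, h0, zero_mul] at hcf
    exact hcf rfl
  have hh10 : h1 ≠ 0 := by
    rintro h0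
    rw [e2, h0, mul_zero] at hcf
    exact hcf rfl
  have hdd : g1.natDegree + h1.natDegree = n := by
    rw [← natDegree_mul hg10 hh10, ← e2, natDegree_C_mul hc, hfd]
  obtain ⟨s0, c0, hs0, hc0⟩ := bet_cl1 c
  obtain ⟨s1, G, hs1, hG⟩ := bet_cl2 g1
  obtain ⟨s2, H, hs2, hH⟩ := bet_cl2 h1
  have hCC : ∀ s : ℤ, s ≠ 0 → (C (C (s : ℚ)) : ℚ[X][X]) ≠ 0 := fun s hs =>
    C_ne_zero.2 (C_ne_zero.2 (Int.cast_ne_zero.2 hs))
  have hCd : ∀ (s : ℤ) (p : ℚ[X][X]), s ≠ 0 → (C (C (s : ℚ)) * p).natDegree = p.natDegree :=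
    fun s p hs => natDegree_C_mul (C_ne_zero.2 (Int.cast_ne_zero.2 hs))
  have hmd : ∀ P : ℤ[X][X], (P.map (mapRingHom (Int.castRingHom ℚ))).natDegree = P.natDegree :=
    fun P => natDegree_map_eq_of_injective (map_injective _ Int.cast_injective) P
  refine ⟨c0 * C s1 * C s2, C (C s0) * G, H, ?_, ?_, ?_, ?_⟩
  · refine mul_ne_zero (mul_ne_zero ?_ (C_ne_zero.2 hs1)) (C_ne_zero.2 hs2)
    rintro rfl
    rw [Polynomial.map_zero] at hc0
    exact mul_ne_zero (C_ne_zero.2 (Int.cast_ne_zero.2 hs0)) hc hc0.symm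
  · rw [natDegree_C_mul (C_ne_zero.2 hs0), ← hmd G, hG, hCd s1 _ hs1]
    omega
  · rw [← hmd H, hH, hCd s2 _ hs2]
    omega
  · apply hinj
    show Polynomial.map (mapRingHom (Int.castRingHom ℚ)) (C (c0 * C s1 * C s2) * topf n (F3 m F)) =
      Polynomial.map (mapRingHom (Int.castRingHom ℚ)) (C (C s0) * G * H)
    have hm2 : ∀ s : ℤ, (C s : ℤ[X]).map (Int.castRingHom ℚ) = C (s : ℚ) := fun s => by
      rw [Polynomial.map_C, eq_intCast]
    rw [Polynomial.map_mul, Polynomial.map_mul, Polynomial.map_mul, hG, hH, ← hf,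
      Polynomial.map_C, Polynomial.map_C, coe_mapRingHom, Polynomial.map_mul, Polynomial.map_mul,
      hc0, hm2, hm2, hm2, C_mul, C_mul, C_mul]
    calc _ = C (C (s0 : ℚ)) * C (C (s1 : ℚ)) * C (C (s2 : ℚ)) * (C c * f) := by ring
      _ = _ := by rw [e2]; ring

end Pool.Agent.H4.TP
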