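import Pool.Agent.H4.TP.Defs

/-! # [H4 TP TRI] Pencils: the three cases

`f = p + t q`, `p, q ∈ ℤ[Z]`, `q.natDegree = n ≥ 1`, `p.natDegree ≤ n`. `P, Q ∈ ℚ[Z]` the images, `h = gcd P Q` (`EuclideanDomain.gcd`), `P = h P1`, `Q = h Q1`.
`natDegree h = 0`: `P, Q` coprime. `Alpha` with `c = 1`, `f1 = f`: its image in `ℂ[t][Z]` is `p + t q`; exchange the variables (`Bivariate.swap`, a ring isomorphism, `MulEquiv.irreducible_iff`): `q t + p ∈ ℂ[Z][t]` of degree `1` in `t` and primitive (`p, q` coprime over `ℂ`: Bezout over `ℚ`, mapped to `ℂ`), so irreducible (a factor of degree `0` in `t` divides `p` and `q`: `IsPrimitive.irreducible_of_degree_eq_one`, if available, or directly).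
`1 ≤ natDegree h < n`: `Beta`: over `ℚ[t][Z]`, `f = h * (P1 + t Q1)`, degrees `natDegree h ≥ 1` and `natDegree Q1 = n - natDegree h ≥ 1` (`natDegree P1 ≤ natDegree Q1` if `P1 ≠ 0`; the coefficient of `Z^(natDegree Q1)` of `P1 + t Q1` is non-zero since its coefficient at `t` is). Clear the denominators: an integer `s ≠ 0`: `C (C s) * f = g * h'` over `ℤ[t][Z]`.
`natDegree h = n`: `Q1` is a constant, `P = r Q` with `r ∈ ℚ`, `r = u / v`. `q = (content q) q0`, `q0` primitive; `v p = u q`, so `v p = u (content q) q0` and `v ∣ u content q` (contents: `content (C v * p) = ..`), `p = w q0`, `q = z q0` with integers `w, z`, `z ≠ 0`: `f = C (C w + X * C z) * q0.map C`. If `q0` is irreducible over `ℚ`: `Gamma`. Otherwise (degree `n ≥ 1`, not a unit) `q0 = g1 h1` over `ℚ` with both degrees `≥ 1`, after clearing denominators (`s q0 = g2 h2` over `ℤ`) `Beta`: `C (C s) * f = (C (w + z t) * g2.map C) * h2.map C`. -/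

namespace Pool.Agent.H4.TP

open Finset Polynomial

/-- clear the denominators -/
private lemma tri_clear (P : ℚ[X]) :
    ∃ (s : ℤ) (p : ℤ[X]), s ≠ 0 ∧ p.map (Int.castRingHom ℚ) = C (s : ℚ) * P := by
  obtain ⟨b, hb, h⟩ := IsLocalization.integerNormalization_spec (nonZeroDivisors ℤ) P
  refine ⟨b, IsLocalization.integerNormalization (nonZeroDivisors ℤ) P,
    nonZeroDivisors.ne_zero hb, ?_⟩
  have h2 : (algebraMap ℤ ℚ) = Int.castRingHom ℚ := RingHom.ext_int _ _
  rw [h2] at h
  rw [h, zsmul_eq_mul]
  congr 1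

private lemma tri_inj : Function.Injective (Polynomial.map (Int.castRingHom ℚ)) :=
  map_injective _ (RingHom.injective_int _)

private lemma tri_deg (p : ℤ[X]) : (p.map (Int.castRingHom ℚ)).natDegree = p.natDegree :=
  natDegree_map_eq_of_injective (RingHom.injective_int _) p

private lemma tri_degC (p : ℤ[X]) : (p.map (C : ℤ →+* ℤ[X])).natDegree = p.natDegree :=
  natDegree_map_eq_of_injective C_injective p

/-- coprime over `ℚ`: absolutely irreducible -/
private lemma tri_alpha {p q : ℤ[X]} (hq0 : q ≠ 0)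
    (h : IsCoprime (p.map (Int.castRingHom ℚ)) (q.map (Int.castRingHom ℚ))) :
    Alpha (p.map C + C X * q.map C) := by
  refine ⟨1, p.map C + C X * q.map C, one_ne_zero, by simp, ?_⟩
  have hc : IsCoprime (p.map (Int.castRingHom ℂ)) (q.map (Int.castRingHom ℂ)) := by
    have h1 := h.map (mapRingHom (algebraMap ℚ ℂ))
    simp only [coe_mapRingHom, Polynomial.map_map] at h1
    have h2 : (algebraMap ℚ ℂ).comp (Int.castRingHom ℚ) = Int.castRingHom ℂ := RingHom.ext_int _ _
    rwa [h2] at h1
  have hq : q.map (Int.castRingHom ℂ) ≠ 0 := by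
    rw [Ne, Polynomial.map_eq_zero_iff (RingHom.injective_int _)]
    exact hq0
  have e1 : (p.map C + C X * q.map C : ℤ[X][X]).map (mapRingHom (Int.castRingHom ℂ)) =
      (p.map (Int.castRingHom ℂ)).map C + C X * (q.map (Int.castRingHom ℂ)).map C := by
    have h3 : (mapRingHom (Int.castRingHom ℂ)).comp (C : ℤ →+* ℤ[X]) =
        (C : ℂ →+* ℂ[X]).comp (Int.castRingHom ℂ) := RingHom.ext_int _ _
    simp only [Polynomial.map_add, Polynomial.map_mul, Polynomial.map_map, map_C, h3]
    simp
  rw [e1]
  have h4 := (irreducible_C_mul_X_add_C hq hc.symm.isRelPrime)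
  have h5 : Bivariate.swap ((p.map (Int.castRingHom ℂ)).map C +
      C X * (q.map (Int.castRingHom ℂ)).map C) =
      C (q.map (Int.castRingHom ℂ)) * X + C (p.map (Int.castRingHom ℂ)) := by
    rw [map_add, map_mul, Bivariate.swap_map_C, Bivariate.swap_map_C, Bivariate.swap_X]
    ring
  rw [← h5] at h4
  exact (MulEquiv.irreducible_iff (Bivariate.swap (R := ℂ))).1 h4

/-- a common factor of positive degree less than the degree of `q` -/
private lemma tri_beta {p q : ℤ[X]} {h P1 Q1 : ℚ[X]}
    (h1 : p.map (Int.castRingHom ℚ) = h * P1) (h2 : q.map (Int.castRingHom ℚ) = h * Q1)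
    (hh : 1 ≤ h.natDegree) (hQ : 1 ≤ Q1.natDegree) :
    Beta (p.map C + C X * q.map C) := by
  obtain ⟨s1, h', hs1, e1⟩ := tri_clear h
  obtain ⟨s2, P', hs2, e2⟩ := tri_clear P1
  obtain ⟨s3, Q', hs3, e3⟩ := tri_clear Q1
  have hd1 : h'.natDegree = h.natDegree := by
    rw [← tri_deg, e1, natDegree_C_mul (by exact_mod_cast hs1)]
  have hd3 : Q'.natDegree = Q1.natDegree := by
    rw [← tri_deg, e3, natDegree_C_mul (by exact_mod_cast hs3)]
  have k1 : C (s1 * s2 * s3) * p = h' * (C s3 * P') := by
    apply tri_inj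
    rw [Polynomial.map_mul, Polynomial.map_mul, Polynomial.map_mul, map_C, map_C, e1, e2, h1,
      eq_intCast, eq_intCast, Int.cast_mul, Int.cast_mul, C_mul, C_mul]
    ring
  have k2 : C (s1 * s2 * s3) * q = h' * (C s2 * Q') := by
    apply tri_inj
    rw [Polynomial.map_mul, Polynomial.map_mul, Polynomial.map_mul, map_C, map_C, e1, e3, h2,
      eq_intCast, eq_intCast, Int.cast_mul, Int.cast_mul, C_mul, C_mul]
    ring
  refine ⟨C (s1 * s2 * s3), h'.map C, (C s3 * P').map C + C X * (C s2 * Q').map C, ?_, ?_, ?_, ?_⟩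
  · rw [Ne, C_eq_zero]
    exact mul_ne_zero (mul_ne_zero hs1 hs2) hs3
  · rw [tri_degC, hd1]
    exact hh
  · have hne : ((C s3 * P').map C + C X * (C s2 * Q').map C : ℤ[X][X]).coeff Q'.natDegree ≠ 0 := by
      intro h0
      have h3 := congrArg (fun r : ℤ[X] => r.coeff 1) h0
      simp only [coeff_add, coeff_map, coeff_C_mul, coeff_zero] at h3
      simp only [coeff_C, coeff_X_mul] at h3
      have h4 : s2 * Q'.leadingCoeff = 0 := by
        simpa using h3
      have h5 : Q' ≠ 0 := by
        rintro rfl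
        simp at hd3
        omega
      rcases mul_eq_zero.1 h4 with h6 | h6
      · exact hs2 h6
      · exact h5 (leadingCoeff_eq_zero.1 h6)
    exact le_trans (hd3 ▸ hQ) (le_natDegree_of_ne_zero hne)
  · have l1 := congrArg (Polynomial.map (C : ℤ →+* ℤ[X])) k1
    have l2 := congrArg (Polynomial.map (C : ℤ →+* ℤ[X])) k2
    rw [Polynomial.map_mul, map_C, Polynomial.map_mul (C : ℤ →+* ℤ[X])] at l1 l2
    rw [mul_add, mul_add, l1]
    rw [mul_left_comm, l2]
    ring

theorem tri {n : ℕ} (hn : 1 ≤ n) (p q : ℤ[X]) (hq : q.natDegree = n) (hp : p.natDegree ≤ n) :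
    Alpha (p.map C + C X * q.map C) ∨ Beta (p.map C + C X * q.map C) ∨
      Gamma (p.map C + C X * q.map C) := by
  have hq0 : q ≠ 0 := by
    rintro rfl
    simp at hq
    omega
  set P := p.map (Int.castRingHom ℚ) with hP
  set Q := q.map (Int.castRingHom ℚ) with hQ
  have hQ0 : Q ≠ 0 := by
    rw [hQ, Ne, Polynomial.map_eq_zero_iff (RingHom.injective_int _)]
    exact hq0
  have hQd : Q.natDegree = n := by rw [hQ, tri_deg, hq]
  set h := EuclideanDomain.gcd P Q with hh
  obtain ⟨P1, hP1⟩ := EuclideanDomain.gcd_dvd_left P Q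
  obtain ⟨Q1, hQ1⟩ := EuclideanDomain.gcd_dvd_right P Q
  rw [← hh] at hP1 hQ1
  have hh0 : h ≠ 0 := by
    intro h0
    rw [h0, zero_mul] at hQ1
    exact hQ0 hQ1
  have hQ10 : Q1 ≠ 0 := by
    intro h0
    rw [h0, mul_zero] at hQ1
    exact hQ0 hQ1
  have hsum : h.natDegree + Q1.natDegree = n := by
    rw [← natDegree_mul hh0 hQ10, ← hQ1, hQd]
  rcases Nat.eq_zero_or_pos h.natDegree with hd | hd
  · left
    apply tri_alpha hq0
    rw [← EuclideanDomain.gcd_isUnit_iff]
    exact isUnit_iff_degree_eq_zero.2 (by rw [degree_eq_natDegree hh0, hd]; rfl)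
  rcases Nat.eq_zero_or_pos Q1.natDegree with hd1 | hd1
  swap
  · right; left
    exact tri_beta hP1 hQ1 hd hd1
  · right
    -- `Q1` is a constant
    have hnd : h.natDegree = n := by omega
    have hP1d : P1.natDegree = 0 := by
      by_cases hP10 : P1 = 0
      · rw [hP10, natDegree_zero]
      · have h1 : h.natDegree + P1.natDegree = P.natDegree := by
          rw [← natDegree_mul hh0 hP10, ← hP1]
        rw [hP, tri_deg] at h1
        omega
    obtain ⟨k, hk⟩ := natDegree_eq_zero.1 hd1
    obtain ⟨l, hl⟩ := natDegree_eq_zero.1 hP1d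
    have hk0 : k ≠ 0 := by
      rintro rfl
      rw [C_0] at hk
      exact hQ10 hk.symm
    set q0 := q.primPart with hq0'
    have hprim : q0.IsPrimitive := isPrimitive_primPart q
    have hqq : q = C q.content * q0 := eq_C_content_mul_primPart q
    have hz : q.content ≠ 0 := by
      rw [Ne, content_eq_zero_iff]
      exact hq0
    have hzQ : (q.content : ℚ) ≠ 0 := by exact_mod_cast hz
    have hq0d : q0.natDegree = n := by rw [hq0', natDegree_primPart, hq]
    -- `q0 ∣ p`
    have hdvd : q0 ∣ p := by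
      apply hprim.dvd_of_fraction_map_dvd_fraction_map (K := ℚ)
      have h2 : (algebraMap ℤ ℚ) = Int.castRingHom ℚ := RingHom.ext_int _ _
      rw [h2, ← hP]
      have h3 : Q = C (q.content : ℚ) * q0.map (Int.castRingHom ℚ) := by
        rw [hQ]
        conv_lhs => rw [hqq]
        rw [Polynomial.map_mul, map_C, eq_intCast]
      refine ⟨C (l * k⁻¹ * q.content), ?_⟩
      have h4 : h * C k = Q := by rw [hk, ← hQ1]
      have h5 : P = C (l * k⁻¹) * Q := by
        rw [← h4, hP1, ← hl, C_mul]
        have : C k⁻¹ * C k = (1 : ℚ[X]) := by rw [← C_mul, inv_mul_cancel₀ hk0, C_1]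
        linear_combination (-(h * C l)) * this
      rw [h5, h3]
      simp only [C_mul]
      ring
    obtain ⟨e, he⟩ := hdvd
    have hw : ∃ w : ℤ, p = C w * q0 := by
      by_cases he0 : e = 0
      · exact ⟨0, by rw [he, he0]; simp⟩
      · have h1 : q0.natDegree + e.natDegree = p.natDegree := by
          rw [← natDegree_mul hprim.ne_zero he0, ← he]
        obtain ⟨w, hw⟩ := natDegree_eq_zero.1 (show e.natDegree = 0 by omega)
        exact ⟨w, by rw [he, ← hw]; ring⟩
    obtain ⟨w, hw⟩ := hw
    set z := q.content with hz'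
    have hf : p.map C + C X * q.map C = C (C w + X * C z) * q0.map (C : ℤ →+* ℤ[X]) := by
      conv_lhs => rw [hw, hqq]
      simp only [Polynomial.map_mul, map_C, C_add, C_mul]
      ring
    have hc0 : (C w + X * C z : ℤ[X]) ≠ 0 := by
      intro h0
      have h1 : (C w + X * C z : ℤ[X]).coeff 1 = (0 : ℤ[X]).coeff 1 := by rw [h0]
      rw [coeff_add, coeff_X_mul, coeff_C_zero, coeff_C_of_ne_zero one_ne_zero, zero_add,
        coeff_zero] at h1
      exact hz h1
    by_cases hirr : Irreducible (q0.map (Int.castRingHom ℚ))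
    · right
      exact ⟨_, q0, hf, hirr⟩
    · left
      have hnu : ¬ IsUnit (q0.map (Int.castRingHom ℚ)) := by
        intro hu
        have := natDegree_eq_zero_of_isUnit hu
        rw [tri_deg, hq0d] at this
        omega
      rw [irreducible_iff] at hirr
      push Not at hirr
      obtain ⟨a, b, hab, ha, hb⟩ := hirr hnu
      have hq0Q : q0.map (Int.castRingHom ℚ) ≠ 0 := by
        rw [Ne, Polynomial.map_eq_zero_iff (RingHom.injective_int _)]
        exact hprim.ne_zero
      have ha0 : a ≠ 0 := by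
        rintro rfl
        rw [zero_mul] at hab
        exact hq0Q hab
      have hb0 : b ≠ 0 := by
        rintro rfl
        rw [mul_zero] at hab
        exact hq0Q hab
      have had : 1 ≤ a.natDegree := by
        by_contra hlt
        exact ha (isUnit_iff_degree_eq_zero.2
          (by rw [degree_eq_natDegree ha0, show a.natDegree = 0 by omega]; rfl))
      have hbd : 1 ≤ b.natDegree := by
        by_contra hlt
        exact hb (isUnit_iff_degree_eq_zero.2
          (by rw [degree_eq_natDegree hb0, show b.natDegree = 0 by omega]; rfl))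
      obtain ⟨s, a', hs, ea⟩ := tri_clear a
      obtain ⟨t, b', ht, eb⟩ := tri_clear b
      have k1 : C (s * t) * q0 = a' * b' := by
        apply tri_inj
        rw [Polynomial.map_mul, Polynomial.map_mul, map_C, ea, eb, hab, eq_intCast, Int.cast_mul,
          C_mul]
        ring
      refine ⟨C (s * t), C (C w + X * C z) * a'.map C, b'.map C, ?_, ?_, ?_, ?_⟩
      · rw [Ne, C_eq_zero]
        exact mul_ne_zero hs ht
      · rw [natDegree_C_mul hc0, tri_degC, ← tri_deg, ea, natDegree_C_mul (by exact_mod_cast hs)]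
        exact had
      · rw [tri_degC, ← tri_deg, eb, natDegree_C_mul (by exact_mod_cast ht)]
        exact hbd
      · have l1 := congrArg (Polynomial.map (C : ℤ →+* ℤ[X])) k1
        rw [Polynomial.map_mul, map_C, Polynomial.map_mul (C : ℤ →+* ℤ[X])] at l1
        rw [hf, mul_left_comm, l1]
        ring

end Pool.Agent.H4.TP
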