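import Pool.Agent.H4.TP.IRF
import Pool.Agent.H4.TP.BET
import Pool.Agent.H4.TP.ALP
import Pool.Agent.H4.TP.TRI
import Pool.Agent.H4.TE.ADM

/-! # [H4 TP HYP] The hypotheses of the theorem imply `HypG` and one of the three cases

`H = deg_f3 hF`; `irr = irrT_of`; `ad_topq` (`Pool/Agent/H4/TE/ADM.lean`) and `form_sqf` (`Pool/Agent/H4/EX/TPH.lean`, `topq_deg`): `sq`. `topq.coeff n` and `topq.coeff 0` are the coefficients of `Y^n`, `X^n` of `F_m` (`topq_coeff`, `cf3`, `coeff_f3`, as in `ad_topq`), i.e. the values of the homogeneous component at `(0, 1)` and `(1, 0)` (`top_cf` evaluated): both `≠ 0`.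
`top_natDegree`-type statement: `(topf n (F3 m F)).natDegree = n` since its coefficient `n` has a non-zero coefficient at `t^m`. Cases: `m ≥ 2`: `Dec (topP ℂ ..)` → `Dec (topP ℚ ..)` → `beta_of`, otherwise `alpha_of`. `m = 1`: `topf n (F3 1 F) = p.map C + C X * q.map C` with `p = ∑_(b ≤ n) C (coefficient (n-b, b) of F 0) X^b`, `q` the same for `F 1` (`tpf_coeff`, `coeff_f3`), `q.natDegree = n`: `tri`. -/

namespace Pool.Agent.H4.TP

open Finset Polynomial Pool.Agent.H37.TE Pool.Agent.H98.TE Pool.Agent.H4.TE Pool.Agent.H4.EX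

theorem hyp_of {n m : ℕ} (hn : 2 ≤ n) (hm : 1 ≤ m) {F : ℕ → MvPolynomial (Fin 2) ℤ}
    (hF : ∀ j ≤ m, (F j).totalDegree ≤ n) (hirr : ¬ Dec (famP ℚ m F))
    (hsq : Squarefree (MvPolynomial.map (Int.castRingHom ℚ)
      (MvPolynomial.homogeneousComponent n (F m))))
    (htop : 2 ≤ m → Dec (topP ℂ n m F) → Dec (topP ℚ n m F))
    (h0 : MvPolynomial.eval ![1, 0] (MvPolynomial.homogeneousComponent n (F m)) ≠ 0)
    (h1 : MvPolynomial.eval ![0, 1] (MvPolynomial.homogeneousComponent n (F m)) ≠ 0) :
    HypG n m (F3 m F) ∧ (Alpha (topf n (F3 m F)) ∨ Beta (topf n (F3 m F)) ∨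
      Gamma (topf n (F3 m F))) := by
  have cfq : ∀ i ≤ n, (topq n m (F3 m F)).coeff i =
      (((F m).coeff (Finsupp.single 0 (n - i) + Finsupp.single 1 i) : ℤ) : ℚ) := by
    intro i hi
    rw [topq_coeff, if_pos hi, cf3, coeff_f3, finsetSum_coeff]
    congr 1
    rw [sum_eq_single m]
    · rw [coeff_C_mul, coeff_X_pow, if_pos rfl, mul_one]
    · intro j _ hj
      rw [coeff_C_mul, coeff_X_pow, if_neg (Ne.symm hj), mul_zero]
    · intro h
      exact absurd (mem_range.2 (Nat.lt_succ_self m)) h
  have e0 : (F m).coeff (Finsupp.single 0 n + Finsupp.single 1 0) ≠ 0 := by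
    rw [top_cf, map_sum, sum_eq_single 0] at h0
    · simpa using h0
    · intro l _ hl
      rw [map_mul, map_pow, MvPolynomial.eval_X]
      simp [hl]
    · intro h
      exact absurd (mem_range.2 (Nat.succ_pos n)) h
  have e1 : (F m).coeff (Finsupp.single 0 0 + Finsupp.single 1 n) ≠ 0 := by
    rw [top_cf, map_sum, sum_eq_single n] at h1
    · simpa using h1
    · intro l hl hln
      rw [mem_range] at hl
      rw [map_mul, map_mul, map_pow, MvPolynomial.eval_X]
      have : n - l ≠ 0 := by omega
      simp [this]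
    · intro h
      exact absurd (mem_range.2 (Nat.lt_succ_self n)) h
  have hcn : (topf n (F3 m F)).coeff n ≠ 0 := by
    intro h
    rw [tpf_coeff, if_pos le_rfl, coeff_f3] at h
    have h2 := congrArg (fun r : ℤ[X] => r.coeff m) h
    simp only [finsetSum_coeff] at h2
    rw [sum_eq_single m] at h2
    · rw [coeff_C_mul, coeff_X_pow, if_pos rfl, mul_one, coeff_zero, Nat.sub_self] at h2
      exact e1 h2
    · intro j _ hj
      rw [coeff_C_mul, coeff_X_pow, if_neg (Ne.symm hj), mul_zero]
    · intro h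
      exact absurd (mem_range.2 (Nat.lt_succ_self m)) h
  have hc : (topf n (F3 m F)).natDegree = n := by
    apply le_antisymm
    · rw [natDegree_le_iff_coeff_eq_zero]
      intro b hb
      rw [tpf_coeff, if_neg (by omega)]
    · exact le_natDegree_of_ne_zero hcn
  refine ⟨⟨deg_f3 hF, irrT_of hirr, form_sqf (topq_deg n m _) (ad_topq F ▸ hsq), ?_, ?_⟩, ?_⟩
  · apply le_antisymm (topq_deg n m _)
    apply le_natDegree_of_ne_zero
    rw [cfq n le_rfl, Nat.sub_self]
    exact_mod_cast e1
  · rw [cfq 0 (Nat.zero_le n), Nat.sub_zero]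
    exact_mod_cast e0
  · rcases Nat.lt_or_ge 1 m with h2 | h2
    · by_cases h : Dec (topP ℂ n m F)
      · exact Or.inr (Or.inl (beta_of hc (htop h2 h)))
      · exact Or.inl (alpha_of (by omega) hc h)
    · have hm1 : m = 1 := by omega
      subst hm1
      have hpq : ∀ (j b : ℕ), (∑ i ∈ range (n + 1),
          C ((F j).coeff (Finsupp.single 0 (n - i) + Finsupp.single 1 i)) * X ^ i : ℤ[X]).coeff b =
          if b ≤ n then (F j).coeff (Finsupp.single 0 (n - b) + Finsupp.single 1 b) else 0 := by
        intro j b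
        rw [finsetSum_coeff]
        simp only [coeff_C_mul, coeff_X_pow, mul_ite, mul_one, mul_zero]
        rw [Finset.sum_ite_eq]
        simp only [mem_range, Nat.lt_succ_iff]
      have e : topf n (F3 1 F) = (∑ i ∈ range (n + 1),
          C ((F 0).coeff (Finsupp.single 0 (n - i) + Finsupp.single 1 i)) * X ^ i : ℤ[X]).map C +
          C X * (∑ i ∈ range (n + 1),
          C ((F 1).coeff (Finsupp.single 0 (n - i) + Finsupp.single 1 i)) * X ^ i : ℤ[X]).map C := by
        ext1 b
        rw [tpf_coeff, coeff_add, coeff_C_mul, coeff_map, coeff_map, hpq, hpq]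
        by_cases hb : b ≤ n
        · rw [if_pos hb, if_pos hb, if_pos hb, coeff_f3, sum_range_succ, sum_range_one, pow_zero,
            pow_one, mul_one]
          ring
        · rw [if_neg hb, if_neg hb, if_neg hb]
          simp
      rw [e]
      refine tri (n := n) (by omega) _ _ ?_ ?_
      · apply le_antisymm
        · rw [natDegree_le_iff_coeff_eq_zero]
          intro b hb
          rw [hpq, if_neg (by omega)]
        · apply le_natDegree_of_ne_zero
          rw [hpq, if_pos le_rfl, Nat.sub_self]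
          exact e1
      · rw [natDegree_le_iff_coeff_eq_zero]
        intro b hb
        rw [hpq, if_neg (by omega)]

end Pool.Agent.H4.TP
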