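import Pool.Agent.H4.TP.ST

/-! # [H4 TP AXP] An auxiliary polynomial divisible by the factor `G`

`K` a field, `G` monic of degree `n1 < n`. Index set `I = {(a, b) : b < n, a + b ≤ n^2}`, a finite type with
`∑_{b<n} (n^2 + 1 - b) = n (n^2+1) - n(n-1)/2` elements. For `v : I → K` let `A_v = ∑ v(a,b) x^a y^b` (`C (C v * X^a) * X^b`). The map `v ↦ ((st (n^2) A_v %ₘ G).coeff i).coeff j`, `i < n1`, `j ≤ n^2`, is `K`-linear `(I → K) → (Fin n1 × Fin (n^2+1) → K)`
(`st D` is additive and `K`-linear: `reflect_add`, `reflect_C_mul`; `modByMonic` is linear: `Polynomial.modByMonicHom`, `add_modByMonic`, `smul_modByMonic` over `K[X]`, restrict the scalars or use `C (C r) *`). Dimension of the target `n1 (n^2+1) ≤ (n-1)(n^2+1)`, and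
`n (n^2+1) - n (n-1)/2 - (n-1)(n^2+1) = n^2 + 1 - n(n-1)/2 > 0`. So there is `v ≠ 0` in the kernel (`LinearMap.exists_ne_zero_of_finrank_lt`? or `LinearMap.ker_ne_bot_of_finrank_lt`). `A = A_v ≠ 0` (a coefficient is `v i ≠ 0`), `A.natDegree < n`, `Tot (n^2) A`. `r = st D A %ₘ G` has degree `< n1` (`natDegree_modByMonic_lt`, if `n1 = 0` then `G = 1`, `r = 0`) and all its coefficients have vanishing coefficients of order `≤ n^2`, so `C (X^(n^2+1)) ∣ r` (`C_dvd_iff_dvd_coeff`, `X_pow_dvd_iff`). `st D A = G * (st D A /ₘ G) + r` (`modByMonic_add_div`). -/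

namespace Pool.Agent.H4.TP

open Finset Polynomial

/-- the index set -/
def Ix (n : ℕ) : Finset (Σ _ : ℕ, ℕ) := (range n).sigma fun b => range (n ^ 2 + 1 - b)

theorem Ix_card {n n1 : ℕ} (h : n1 < n) : n1 * (n ^ 2 + 1) < (Ix n).card := by
  unfold Ix
  rw [card_sigma]
  simp only [card_range]
  have h1 : ∑ _b ∈ range n, (n ^ 2 + 1 - (n - 1)) ≤ ∑ b ∈ range n, (n ^ 2 + 1 - b) := by
    refine sum_le_sum fun b hb => ?_
    have := mem_range.1 hb
    omega
  rw [sum_const, card_range, smul_eq_mul] at h1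
  refine lt_of_lt_of_le ?_ h1
  obtain ⟨k, rfl⟩ : ∃ k, n = k + 1 := ⟨n - 1, by omega⟩
  have h2 : n1 ≤ k := by omega
  have h3 : (k + 1) ^ 2 + 1 - (k + 1 - 1) = k ^ 2 + k + 2 := by
    have : (k + 1) ^ 2 + 1 = (k ^ 2 + k + 2) + k := by ring
    omega
  rw [h3]
  calc n1 * ((k + 1) ^ 2 + 1) ≤ k * ((k + 1) ^ 2 + 1) := Nat.mul_le_mul_right _ h2
    _ < (k + 1) * (k ^ 2 + k + 2) := by nlinarith

variable {K : Type*} [Field K]

/-- the polynomial with coefficients `v` -/
noncomputable def Av (n : ℕ) : (Ix n → K) →ₗ[K] K[X][X] where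
  toFun v := ∑ i : Ix n, monomial i.1.1 (monomial i.1.2 (v i))
  map_add' u v := by
    rw [← sum_add_distrib]
    exact sum_congr rfl fun i _ => by rw [Pi.add_apply, map_add, map_add]
  map_smul' c v := by
    rw [RingHom.id_apply, smul_sum]
    exact sum_congr rfl fun i _ => by rw [Pi.smul_apply, smul_monomial, smul_monomial]

theorem Av_apply (n : ℕ) (v : Ix n → K) :
    Av n v = ∑ i : Ix n, monomial i.1.1 (monomial i.1.2 (v i)) := rfl

theorem Av_coeff (n : ℕ) (v : Ix n → K) (a b : ℕ) :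
    ((Av n v).coeff b).coeff a = ∑ i : Ix n, if i.1.1 = b ∧ i.1.2 = a then v i else 0 := by
  rw [Av_apply]
  simp only [finsetSum_coeff, coeff_monomial]
  refine sum_congr rfl fun i _ => ?_
  by_cases h1 : i.1.1 = b
  · by_cases h2 : i.1.2 = a
    · simp [h1, h2]
    · simp [h1, h2, coeff_monomial]
  · simp [h1]

/-- `st D` as a linear map -/
noncomputable def stL (D : ℕ) : K[X][X] →ₗ[K] K[X][X] where
  toFun F := st D F
  map_add' F G := by
    unfold st
    rw [← sum_add_distrib]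
    refine sum_congr rfl fun b _ => ?_
    rw [coeff_add, reflect_add, C_add, add_mul]
  map_smul' c F := by
    unfold st
    rw [RingHom.id_apply, smul_sum]
    refine sum_congr rfl fun b _ => ?_
    have h1 : reflect (D - b) ((c • F).coeff b) = c • reflect (D - b) (F.coeff b) := by
      rw [coeff_smul, smul_eq_C_mul, reflect_C_mul, smul_eq_C_mul]
    rw [h1, ← smul_C, smul_mul_assoc]

/-- the linear map whose kernel is used -/
noncomputable def Lm (n n1 : ℕ) (G : K[X][X]) : (Ix n → K) →ₗ[K] (Fin n1 × Fin (n ^ 2 + 1) → K) :=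
  LinearMap.pi fun ij => (lcoeff K (ij.2 : ℕ)) ∘ₗ ((lcoeff K[X] (ij.1 : ℕ)).restrictScalars K) ∘ₗ
    ((modByMonicHom G).restrictScalars K) ∘ₗ (stL (n ^ 2)) ∘ₗ (Av n)

theorem aux {K : Type*} [Field K] (n n1 : ℕ) (G : K[X][X]) (hG : G.Monic) (hd : G.natDegree = n1)
    (hn1 : n1 < n) :
    ∃ A B W : K[X][X], A ≠ 0 ∧ A.natDegree < n ∧ Tot (n ^ 2) A ∧
      st (n ^ 2) A = G * B + C (X ^ (n ^ 2 + 1)) * W := by
  have hker : LinearMap.ker (Lm n n1 G) ≠ ⊥ := by
    apply LinearMap.ker_ne_bot_of_finrank_lt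
    rw [Module.finrank_fintype_fun_eq_card, Module.finrank_fintype_fun_eq_card, Fintype.card_prod,
      Fintype.card_fin, Fintype.card_fin, Fintype.card_coe]
    exact Ix_card hn1
  obtain ⟨v, hv, hv0⟩ := (Submodule.ne_bot_iff _).1 hker
  rw [LinearMap.mem_ker] at hv
  have hL : ∀ i < n1, ∀ j ≤ n ^ 2, ((st (n ^ 2) (Av n v) %ₘ G).coeff i).coeff j = 0 := by
    intro i hi j hj
    exact congrFun hv (⟨i, hi⟩, ⟨j, by omega⟩)
  have hr : (C (X ^ (n ^ 2 + 1)) : K[X][X]) ∣ st (n ^ 2) (Av n v) %ₘ G := by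
    rw [C_dvd_iff_dvd_coeff]
    intro i
    rcases lt_or_ge i n1 with hi | hi
    · rw [X_pow_dvd_iff]
      exact fun d hd' => hL i hi d (by omega)
    · have h1 := degree_modByMonic_lt (st (n ^ 2) (Av n v)) hG
      have h2 : (st (n ^ 2) (Av n v) %ₘ G).coeff i = 0 := by
        apply coeff_eq_zero_of_degree_lt
        refine lt_of_lt_of_le h1 ?_
        rw [degree_eq_natDegree hG.ne_zero, hd]
        exact_mod_cast hi
      rw [h2]
      exact dvd_zero _
  obtain ⟨W, hW⟩ := hr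
  refine ⟨Av n v, st (n ^ 2) (Av n v) /ₘ G, W, ?_, ?_, ?_, ?_⟩
  · intro h0
    apply hv0
    funext i
    have h1 := Av_coeff n v i.1.2 i.1.1
    rw [h0, coeff_zero, coeff_zero, sum_eq_single i] at h1
    · simpa using h1.symm
    · intro j _ hj
      rw [if_neg]
      rintro ⟨e1, e2⟩
      exact hj (Subtype.ext (Sigma.ext e1 (heq_of_eq e2)))
    · intro h
      exact absurd (mem_univ i) h
  · have h1 : (Av n v).natDegree ≤ n - 1 := by
      rw [natDegree_le_iff_coeff_eq_zero]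
      intro b hb
      ext1 a
      rw [Av_coeff, coeff_zero]
      refine sum_eq_zero fun i _ => if_neg ?_
      rintro ⟨e1, e2⟩
      have := (mem_sigma.1 i.2).1
      rw [mem_range] at this
      omega
    omega
  · intro a b hab
    rw [Av_coeff]
    refine sum_eq_zero fun i _ => if_neg ?_
    rintro ⟨e1, e2⟩
    have := (mem_sigma.1 i.2).2
    rw [mem_range] at this
    omega
  · rw [← hW, add_comm]
    exact (modByMonic_add_div _ G).symm

end Pool.Agent.H4.TP
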