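import Pool.Agent.H4.TP.Defs

/-! # [H4 TP SEP] The two factors of the top form are coprime

`F` as in `HypG` (only `H`, `sq`, `tq` are used), `f = topf n F`, `C c * f = g * h`, `c ≠ 0`. Suppose that `g, h` are not coprime over the field `Kt`. Then (`EuclideanDomain.isCoprime_iff...`, `isCoprime_of_irreducible_dvd`: a common irreducible factor) there is `r ∈ Kt[Z]` of degree `≥ 1` with `r ∣ g`, `r ∣ h` over `Kt`, so `r^2 ∣ f` over `Kt` (`c` is a unit). Clear the denominators (`IsLocalization.integerNormalization`, `IsFractionRing`, or `Polynomial.exists... `): there are `R, S ∈ ℤ[t][Z]`, `e ∈ ℤ[t]`, `e ≠ 0`, `R.natDegree ≥ 1`, with `C e * f = R * R * S`.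
Leading coefficients in `t`: apply `Bivariate.swap` (`ℤ[t][Z] → ℤ[Z][t]`, a ring isomorphism) and `leadingCoeff_mul`: `(lc e) * lc(f) = lc(R)^2 lc(S)` in `ℤ[Z]`, where the coefficient of `t^m` of `f` is `q = ∑_b cf3 F m (n-b) b Z^b`, which is `≠ 0` (its image in `ℚ[Z]` is `topq n m F`, of degree `n`), and the degree in `t` of `f` is `≤ m` (`H.deg`), so `lc(f) = q`. Over `ℚ`: `lc(R)^2 ∣ topq` up to the unit `lc e`, squarefree, so `lc(R)` is a constant: degree `0` in `Z`. Degrees in `Z`: `n = deg q = 2 deg lc(R) + deg lc(S) = deg lc(S) ≤ S.natDegree` and `n = f.natDegree = 2 R.natDegree + S.natDegree ≥ 2 + S.natDegree` (`tpf_coeff`: `f.natDegree ≤ n`). Contradiction. -/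

namespace Pool.Agent.H4.TP

open Finset Polynomial Pool.Agent.H37.TE Pool.Agent.H98.TE

variable {n m : ℕ} {F : ℤ[X][X][X]}

theorem top_natDegree (h : HypG n m F) : (topf n F).natDegree = n := by
  have h1 : (topf n F).natDegree ≤ n := by
    rw [natDegree_le_iff_coeff_eq_zero]
    intro b hb
    rw [tpf_coeff, if_neg (by omega)]
  have h2 : (topq n m F).coeff n ≠ 0 := by
    have h3 : (topq n m F).leadingCoeff ≠ 0 := leadingCoeff_ne_zero.2 h.sq.ne_zero
    rwa [leadingCoeff, h.tq] at h3
  refine le_antisymm h1 (le_natDegree_of_ne_zero fun h3 => h2 ?_)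
  rw [topq_coeff, if_pos le_rfl, cf3]
  rw [tpf_coeff, if_pos le_rfl] at h3
  rw [h3, coeff_zero, Int.cast_zero]

/-- the leading coefficient in `t` -/
private theorem sep_lead (h : HypG n m F) :
    (Bivariate.swap (topf n F)).leadingCoeff.map (Int.castRingHom ℚ) = topq n m F ∧
      (Bivariate.swap (topf n F)).leadingCoeff.natDegree = n := by
  have h0 : ∀ i, ((Bivariate.swap (topf n F)).coeff i).map (Int.castRingHom ℚ) =
      ∑ b ∈ range (n + 1), C ((cf3 F i (n - b) b : ℤ) : ℚ) * X ^ b := by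
    intro i
    ext b
    rw [coeff_map, swap_coeff, tpf_coeff, finsetSum_coeff]
    simp only [coeff_C_mul, coeff_X_pow, mul_ite, mul_one, mul_zero]
    rw [Finset.sum_ite_eq]
    simp only [mem_range, Nat.lt_succ_iff]
    split_ifs with h1
    · rfl
    · rw [coeff_zero, map_zero]
  have h1 : ((Bivariate.swap (topf n F)).coeff m).map (Int.castRingHom ℚ) = topq n m F := h0 m
  have h2 : (Bivariate.swap (topf n F)).coeff m ≠ 0 := by
    intro h3
    rw [h3, Polynomial.map_zero] at h1
    exact h.sq.ne_zero h1.symm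
  have h3 : (Bivariate.swap (topf n F)).natDegree ≤ m := by
    rw [natDegree_le_iff_coeff_eq_zero]
    intro i hi
    ext b
    rw [swap_coeff, tpf_coeff, coeff_zero]
    split_ifs with h4
    · exact coeff_eq_zero_of_natDegree_lt (lt_of_le_of_lt (h.H.deg _ _) hi)
    · exact coeff_zero _
  have h4 : (Bivariate.swap (topf n F)).natDegree = m :=
    le_antisymm h3 (le_natDegree_of_ne_zero h2)
  have h5 : (Bivariate.swap (topf n F)).leadingCoeff = (Bivariate.swap (topf n F)).coeff m := by
    rw [leadingCoeff, h4]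
  rw [h5]
  refine ⟨h1, ?_⟩
  have h6 := natDegree_map_eq_of_injective (f := Int.castRingHom ℚ)
    (RingHom.injective_int _) ((Bivariate.swap (topf n F)).coeff m)
  rw [← h6, h1, h.tq]

private theorem sep_deg (P : ℤ[X][X]) : (Bivariate.swap P).leadingCoeff.natDegree ≤ P.natDegree := by
  rw [natDegree_le_iff_coeff_eq_zero]
  intro j hj
  rw [leadingCoeff, swap_coeff, coeff_eq_zero_of_natDegree_lt hj, coeff_zero]

/-- no square divides the top form -/
private theorem sep_sq (hF : HypG n m F) {e : ℤ[X]} {R S : ℤ[X][X]} (he : e ≠ 0)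
    (h : C e * topf n F = R * R * S) : R.natDegree = 0 := by
  obtain ⟨h1, h2⟩ := sep_lead hF
  have hf0 : topf n F ≠ 0 := by
    intro h3
    rw [h3, map_zero, leadingCoeff_zero, Polynomial.map_zero] at h1
    exact hF.sq.ne_zero h1.symm
  have hl0 : C e * topf n F ≠ 0 := mul_ne_zero (C_ne_zero.2 he) hf0
  have hR0 : R ≠ 0 := by
    rintro rfl
    rw [zero_mul, zero_mul] at h
    exact hl0 h
  have hS0 : S ≠ 0 := by
    rintro rfl
    rw [mul_zero] at h
    exact hl0 h
  -- degrees in `Z`
  have hd : n = R.natDegree + R.natDegree + S.natDegree := by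
    have h3 := congrArg natDegree h
    rw [natDegree_C_mul he, natDegree_mul (mul_ne_zero hR0 hR0) hS0, natDegree_mul hR0 hR0,
      top_natDegree hF] at h3
    exact h3
  -- leading coefficients in `t`
  have h3 := congrArg (fun P => (Bivariate.swap P).leadingCoeff) h
  simp only [map_mul, leadingCoeff_mul] at h3
  have hce : (Bivariate.swap (C e : ℤ[X][X])).leadingCoeff.natDegree = 0 := by
    have := sep_deg (C e)
    rw [natDegree_C] at this
    omega
  have hce0 : (Bivariate.swap (C e : ℤ[X][X])).leadingCoeff ≠ 0 := by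
    rw [leadingCoeff_ne_zero]
    intro h4
    have h5 : (C e : ℤ[X][X]) = 0 := (map_eq_zero_iff _ (Bivariate.swap (R := ℤ)).injective).1 h4
    exact he (C_eq_zero.1 h5)
  obtain ⟨w, hw⟩ := natDegree_eq_zero.1 hce
  have hw0 : w ≠ 0 := by
    rintro rfl
    rw [← hw, map_zero] at hce0
    exact hce0 rfl
  have hR0' : (Bivariate.swap R).leadingCoeff ≠ 0 := by
    rw [leadingCoeff_ne_zero]
    intro h4
    exact hR0 ((map_eq_zero_iff _ (Bivariate.swap (R := ℤ)).injective).1 h4)
  have hS0' : (Bivariate.swap S).leadingCoeff ≠ 0 := by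
    rw [leadingCoeff_ne_zero]
    intro h4
    exact hS0 ((map_eq_zero_iff _ (Bivariate.swap (R := ℤ)).injective).1 h4)
  have hq0 : (Bivariate.swap (topf n F)).leadingCoeff ≠ 0 := by
    rw [leadingCoeff_ne_zero]
    intro h4
    exact hf0 ((map_eq_zero_iff _ (Bivariate.swap (R := ℤ)).injective).1 h4)
  -- over the rationals
  have h4 := congrArg (Polynomial.map (Int.castRingHom ℚ)) h3
  rw [Polynomial.map_mul, Polynomial.map_mul, Polynomial.map_mul, h1, ← hw, map_C] at h4
  have h5 : (Bivariate.swap R).leadingCoeff.map (Int.castRingHom ℚ) *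
      (Bivariate.swap R).leadingCoeff.map (Int.castRingHom ℚ) ∣ topq n m F := by
    have hu : IsUnit (C ((Int.castRingHom ℚ) w) : ℚ[X]) := by
      rw [isUnit_C]
      exact IsUnit.mk0 _ (by simpa using hw0)
    have h6 : (Bivariate.swap R).leadingCoeff.map (Int.castRingHom ℚ) *
      (Bivariate.swap R).leadingCoeff.map (Int.castRingHom ℚ) ∣
        C ((Int.castRingHom ℚ) w) * topq n m F := by
      rw [h4]
      exact dvd_mul_right _ _
    exact (hu.dvd_mul_left).1 h6
  have h6 := hF.sq _ h5
  have h7 : (Bivariate.swap R).leadingCoeff.natDegree = 0 := by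
    have h8 := natDegree_eq_zero_of_isUnit h6
    rwa [natDegree_map_eq_of_injective (RingHom.injective_int _)] at h8
  have h8 := congrArg natDegree h3
  rw [natDegree_mul hce0 hq0, natDegree_mul (mul_ne_zero hR0' hR0') hS0', natDegree_mul hR0' hR0',
    hce, h2, h7] at h8
  have h9 := sep_deg S
  omega

private theorem sep_clear (p : Kt[X]) : ∃ (e : ℤ[X]) (P : ℤ[X][X]), e ≠ 0 ∧
    P.map (algebraMap ℤ[X] Kt) = C (algebraMap ℤ[X] Kt e) * p := by
  obtain ⟨b, hb, h⟩ := IsLocalization.integerNormalization_spec (nonZeroDivisors ℤ[X]) p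
  refine ⟨b, _, nonZeroDivisors.ne_zero hb, h.trans ?_⟩
  rw [Polynomial.C_mul', algebraMap_smul]

theorem coprime_of_top (hF : HypG n m F) {c : ℤ[X]} {g h : ℤ[X][X]} (hc : c ≠ 0)
    (hgh : C c * topf n F = g * h) :
    IsCoprime (g.map (algebraMap ℤ[X] Kt)) (h.map (algebraMap ℤ[X] Kt)) := by
  have hinj : Function.Injective (algebraMap ℤ[X] Kt) := IsFractionRing.injective ℤ[X] Kt
  have hf0 : topf n F ≠ 0 := by
    intro h3
    obtain ⟨h1, -⟩ := sep_lead hF
    rw [h3, map_zero, leadingCoeff_zero, Polynomial.map_zero] at h1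
    exact hF.sq.ne_zero h1.symm
  have hl0 : g * h ≠ 0 := by
    rw [← hgh]
    exact mul_ne_zero (C_ne_zero.2 hc) hf0
  refine isCoprime_of_irreducible_dvd ?_ ?_
  · rintro ⟨h1, -⟩
    rw [Polynomial.map_eq_zero_iff hinj] at h1
    rw [h1, zero_mul] at hl0
    exact hl0 rfl
  · intro r hr hg hh
    obtain ⟨g1, hg1⟩ := hg
    obtain ⟨h1, hh1⟩ := hh
    obtain ⟨e1, R, he1, hR⟩ := sep_clear r
    obtain ⟨e2, S, he2, hS⟩ := sep_clear (g1 * h1)
    have key : C (c * e1 * e1 * e2) * topf n F = R * R * S := by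
      apply map_injective _ hinj
      have h2 := congrArg (Polynomial.map (algebraMap ℤ[X] Kt)) hgh
      rw [Polynomial.map_mul, Polynomial.map_mul, hg1, hh1, map_C] at h2
      rw [Polynomial.map_mul, Polynomial.map_mul, Polynomial.map_mul, hR, hS, map_C]
      simp only [map_mul]
      linear_combination (C (algebraMap ℤ[X] Kt e1) * C (algebraMap ℤ[X] Kt e1) *
        C (algebraMap ℤ[X] Kt e2)) * h2
    have h3 := sep_sq hF (mul_ne_zero (mul_ne_zero (mul_ne_zero hc he1) he1) he2) key
    have h4 : R.natDegree = r.natDegree := by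
      rw [← natDegree_map_eq_of_injective hinj, hR, natDegree_C_mul]
      intro h5
      exact he1 (hinj (by rw [h5, map_zero]))
    have h5 := hr.natDegree_pos
    omega

end Pool.Agent.H4.TP
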