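import Pool.Agent.H4.TP.HEN
import Pool.Agent.H4.TP.AXP
import Pool.Agent.H4.TP.SEP

/-! # [H4 TP CLR] The integral identities

`K = Kt`, `φ = algebraMap ℤ[X] Kt` (injective), `Φ = mapRingHom (mapRingHom φ) : ℤ[X][X][X] → K[X][X]` (also injective). `clr`: every `P ∈ K[X][X]` is `Φ P0` divided by some `d`: `C (C (φ d)) * P = Φ P0` (finitely many coefficients; `Polynomial.induction_on'` twice, or `IsLocalization.exist_integer_multiples_of_finset`).
Let `C c * topf n F = g * h` (`Beta`). Over `K`: `g' = g / lc(g)` monic, `h' = lc(g) h / c`: `(topf n F).map φ = g' * h'`, coprime (`coprime_of_top`; multiplying by non-zero constants preserves `IsCoprime`: `isCoprime_mul_unit_left`), `natDegree g' + natDegree h' = n` (`top_natDegree`), both `≥ 1`. `P = Φ (st n F) = st n (Φ F)` (`st_map`): `P.natDegree ≤ n`, `P.coeff n = C ℓ`, `ℓ = φ ((F.coeff n).coeff 0) ≠ 0` (`st_lead`; non-zero since `topq` has degree `n`), `P(0) = g' h'`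 (`st_zero`). `hensel` with `N = n^2 + 1`: `P = G1 * H1 + C (X^N) * V1`, `G1` monic. `aux` for `G1` and for the monic `H1' = C (C ℓ⁻¹) * H1` (both degrees are `< n`): `st A1 = G1 B1 + X^N W1`, `st A2 = H1 (C (C ℓ⁻¹) B2) + X^N W2`. Bezout: `a g' + b h' = 1`.
Clear all the denominators. `G, H, V`: `d_G G1 = Φ G`, `d_H H1 = Φ H`, `d_V V1 = Φ V`. `(d_G d_H d_V) st n F = (d_V G) H + X^N (d_G d_H V)` after applying `Φ`, which is injective; rename `G := d_V G`. Then the other identities: `st A1 = G1 B1 + ...` with `G1 = Φ(G) / (d_G d_V)`: multiply by the product of all denominators. `A ≠ 0`, degrees and `Tot` are preserved (coefficientwise multiplication by a non-zero constant). `u, v`: from `a g' + b h' = 1`, `g' = Φ(G)(0)/(d_G d_V)`, `h' = Φ(H)(0)/d_H`. -/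

namespace Pool.Agent.H4.TP

open Finset Polynomial Pool.Agent.H37.TE Pool.Agent.H98.TE

variable {n m : ℕ} {F : ℤ[X][X][X]}

theorem map_CC (d : ℤ[X]) : (C (C d) : ℤ[X][X][X]).map (mapRingHom (algebraMap ℤ[X] Kt)) =
    C (C (algebraMap ℤ[X] Kt d)) := by
  rw [map_C, coe_mapRingHom, map_C]

theorem map_CX (N : ℕ) : (C (X ^ N) : ℤ[X][X][X]).map (mapRingHom (algebraMap ℤ[X] Kt)) =
    C (X ^ N) := by
  rw [map_C, coe_mapRingHom, Polynomial.map_pow, map_X]

theorem clr1 (p : Kt[X]) : ∃ (d : ℤ[X]) (p0 : ℤ[X][X]), d ≠ 0 ∧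
    p0.map (algebraMap ℤ[X] Kt) = C (algebraMap ℤ[X] Kt d) * p := by
  induction p using Polynomial.induction_on' with
  | add p q hp hq =>
    obtain ⟨d1, p1, h1, h2⟩ := hp
    obtain ⟨d2, p2, h3, h4⟩ := hq
    refine ⟨d1 * d2, C d2 * p1 + C d1 * p2, mul_ne_zero h1 h3, ?_⟩
    rw [Polynomial.map_add, Polynomial.map_mul, Polynomial.map_mul, map_C, map_C, h2, h4, map_mul,
      C_mul]
    ring
  | monomial j r =>
    obtain ⟨a, b, hb, hr⟩ := IsFractionRing.div_surjective (A := ℤ[X]) r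
    refine ⟨b, monomial j a, nonZeroDivisors.ne_zero hb, ?_⟩
    have hb0 : algebraMap ℤ[X] Kt b ≠ 0 := by
      intro h
      exact nonZeroDivisors.ne_zero hb (IsFractionRing.injective ℤ[X] Kt (by rw [h, map_zero]))
    rw [map_monomial, C_mul_monomial, ← hr, mul_div_cancel₀ _ hb0]

theorem clr (P : Kt[X][X]) : ∃ (d : ℤ[X]) (P0 : ℤ[X][X][X]), d ≠ 0 ∧
    P0.map (mapRingHom (algebraMap ℤ[X] Kt)) = C (C (algebraMap ℤ[X] Kt d)) * P := by
  induction P using Polynomial.induction_on' with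
  | add p q hp hq =>
    obtain ⟨d1, p1, h1, h2⟩ := hp
    obtain ⟨d2, p2, h3, h4⟩ := hq
    refine ⟨d1 * d2, C (C d2) * p1 + C (C d1) * p2, mul_ne_zero h1 h3, ?_⟩
    rw [Polynomial.map_add, Polynomial.map_mul, Polynomial.map_mul, map_CC, map_CC, h2, h4, map_mul,
      C_mul, C_mul]
    ring
  | monomial j r =>
    obtain ⟨d, r0, h1, h2⟩ := clr1 r
    refine ⟨d, monomial j r0, h1, ?_⟩
    rw [map_monomial, C_mul_monomial, coe_mapRingHom, h2]

/-- `st` is linear over the constants -/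
theorem st_smul {R : Type*} [CommRing R] (D : ℕ) (k : R) (A : R[X][X]) :
    st D (C (C k) * A) = C (C k) * st D A := by
  ext1 b
  rw [st_coeff, coeff_C_mul, coeff_C_mul, st_coeff]
  split_ifs
  · rw [reflect_C_mul]
  · rw [mul_zero]

theorem phi_inj : Function.Injective (algebraMap ℤ[X] Kt) := IsFractionRing.injective _ _

theorem Phi_inj : Function.Injective
    (Polynomial.map (mapRingHom (algebraMap ℤ[X] Kt)) : ℤ[X][X][X] → Kt[X][X]) :=
  map_injective _ (by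
    intro a b hab
    exact map_injective _ phi_inj (by simpa using hab))

/-- clearing the denominators of an identity `st A1 = G1 B1 + X^N W1` -/
theorem fac {D N : ℕ} {G1 : Kt[X][X]} {G : ℤ[X][X][X]} {e : ℤ[X]} (he : e ≠ 0)
    (hG : G.map (mapRingHom (algebraMap ℤ[X] Kt)) = C (C (algebraMap ℤ[X] Kt e)) * G1)
    {A1 B1 W1 : Kt[X][X]} (hst : st D A1 = G1 * B1 + C (X ^ N) * W1) (h0 : A1 ≠ 0)
    (hn : A1.natDegree < n) (hT : Tot D A1) :
    ∃ (d : ℤ[X]) (A B W : ℤ[X][X][X]), d ≠ 0 ∧ A ≠ 0 ∧ A.natDegree < n ∧ Tot D A ∧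
      C (C d) * st D A = G * B + C (X ^ N) * W := by
  obtain ⟨dA, A, hdA, hA⟩ := clr A1
  obtain ⟨dB, B, hdB, hB⟩ := clr B1
  obtain ⟨dW, W, hdW, hW⟩ := clr W1
  have hphA : algebraMap ℤ[X] Kt dA ≠ 0 := fun h => hdA (phi_inj (by rw [h, map_zero]))
  refine ⟨e * dB * dW, A, C (C (dA * dW)) * B, C (C (dA * e * dB)) * W,
    mul_ne_zero (mul_ne_zero he hdB) hdW, ?_, ?_, ?_, ?_⟩
  · intro h
    rw [h, Polynomial.map_zero] at hA
    rcases mul_eq_zero.1 hA.symm with h1 | h1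
    · exact hphA (C_eq_zero.1 (C_eq_zero.1 h1))
    · exact h0 h1
  · have h1 : (A.map (mapRingHom (algebraMap ℤ[X] Kt))).natDegree = A.natDegree :=
      natDegree_map_eq_of_injective (by
        intro a b hab
        exact map_injective _ phi_inj (by simpa using hab)) _
    rw [← h1, hA]
    exact lt_of_le_of_lt (natDegree_C_mul_le _ _) hn
  · intro a b hab
    apply phi_inj
    rw [map_zero]
    have h1 : algebraMap ℤ[X] Kt ((A.coeff b).coeff a) =
        ((A.map (mapRingHom (algebraMap ℤ[X] Kt))).coeff b).coeff a := by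
      rw [coeff_map, coe_mapRingHom, coeff_map]
    rw [h1, hA, coeff_C_mul, coeff_C_mul, hT a b hab, mul_zero]
  · apply Phi_inj
    simp only [Polynomial.map_add, Polynomial.map_mul, map_CC, map_CX, st_map]
    rw [hG, hA, hB, hW, st_smul, hst]
    simp only [map_mul, C_mul]
    ring

/-- the factorisation over `ℚ(t)` and the auxiliary polynomials -/
theorem overK (hF : HypG n m F) (hB : Beta (topf n F)) :
    ∃ (g' h' : Kt[X]) (G1 H1 V1 A1 B1 W1 A2 B2 W2 : Kt[X][X]),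
      IsCoprime g' h' ∧ G1.map (evalRingHom 0) = g' ∧ H1.map (evalRingHom 0) = h' ∧
      (st n F).map (mapRingHom (algebraMap ℤ[X] Kt)) = G1 * H1 + C (X ^ (n ^ 2 + 1)) * V1 ∧
      A1 ≠ 0 ∧ A1.natDegree < n ∧ Tot (n ^ 2) A1 ∧
      st (n ^ 2) A1 = G1 * B1 + C (X ^ (n ^ 2 + 1)) * W1 ∧
      A2 ≠ 0 ∧ A2.natDegree < n ∧ Tot (n ^ 2) A2 ∧
      st (n ^ 2) A2 = H1 * B2 + C (X ^ (n ^ 2 + 1)) * W2 := by
  obtain ⟨c, g, h, hc, hg1, hh1, hgh⟩ := hB
  have hco := coprime_of_top hF hc hgh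
  have hdeg := top_natDegree hF
  have hg0 : g ≠ 0 := fun h0 => by rw [h0, natDegree_zero] at hg1; omega
  have hh0 : h ≠ 0 := fun h0 => by rw [h0, natDegree_zero] at hh1; omega
  have hsum : g.natDegree + h.natDegree = n := by
    rw [← natDegree_mul hg0 hh0, ← hgh, natDegree_C_mul hc, hdeg]
  obtain ⟨φ, hφ⟩ : ∃ φ : ℤ[X] →+* Kt, φ = algebraMap ℤ[X] Kt := ⟨_, rfl⟩
  have hφi : Function.Injective φ := by rw [hφ]; exact phi_inj
  rw [← hφ] at hco ⊢
  have hφ0 : ∀ z : ℤ[X], z ≠ 0 → φ z ≠ 0 := fun z hz h0 => hz (hφi (by rw [h0, map_zero]))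
  have hlg : g.leadingCoeff ≠ 0 := leadingCoeff_ne_zero.2 hg0
  have hl := hφ0 _ hlg
  have hcK := hφ0 c hc
  -- the factors, normalised
  obtain ⟨g', hg'⟩ : ∃ g' : Kt[X], g' = C (φ g.leadingCoeff)⁻¹ * g.map φ := ⟨_, rfl⟩
  obtain ⟨h', hh'⟩ : ∃ h' : Kt[X], h' = C (φ g.leadingCoeff / φ c) * h.map φ := ⟨_, rfl⟩
  have hgm : g'.Monic := by
    rw [hg', Monic, leadingCoeff_mul, leadingCoeff_C, leadingCoeff_map_of_injective hφi,
      inv_mul_cancel₀ hl]
  have hgd : g'.natDegree = g.natDegree := by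
    rw [hg', natDegree_C_mul (inv_ne_zero hl), natDegree_map_eq_of_injective hφi]
  have hhd : h'.natDegree = h.natDegree := by
    rw [hh', natDegree_C_mul (div_ne_zero hl hcK), natDegree_map_eq_of_injective hφi]
  have hprod : g' * h' = (topf n F).map φ := by
    have h1 : C (φ c) * (topf n F).map φ = g.map φ * h.map φ := by
      rw [← Polynomial.map_mul, ← hgh, Polynomial.map_mul, map_C]
    have h2 : g' * h' = C ((φ g.leadingCoeff)⁻¹ * (φ g.leadingCoeff / φ c)) *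
        (g.map φ * h.map φ) := by
      rw [hg', hh', C_mul]
      ring
    rw [h2, ← h1, ← mul_assoc, ← C_mul]
    have h3 : (φ g.leadingCoeff)⁻¹ * (φ g.leadingCoeff / φ c) * φ c = 1 := by
      field_simp
    rw [h3, C_1, one_mul]
  have hcop : IsCoprime g' h' := by
    rw [hg', hh']
    exact ((isCoprime_mul_unit_left_left (isUnit_C.2 (isUnit_iff_ne_zero.2 (inv_ne_zero hl)))
      _ _).2 ((isCoprime_mul_unit_left_right (isUnit_C.2 (isUnit_iff_ne_zero.2
        (div_ne_zero hl hcK))) _ _).2 hco))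
  -- the polynomial to be factored
  have hTot : Tot n (F.map (mapRingHom φ)) := by
    intro a b hab
    rw [coeff_map, coe_mapRingHom, coeff_map, hF.H.tot a b hab, map_zero]
  obtain ⟨hPd, hPc⟩ := st_lead hTot
  obtain ⟨l, hldef⟩ : ∃ l : Kt, l = ((F.map (mapRingHom φ)).coeff n).coeff 0 := ⟨_, rfl⟩
  have hl0 : l ≠ 0 := by
    rw [hldef, coeff_map, coe_mapRingHom, coeff_map]
    apply hφ0
    intro h0
    have h1 : (topq n m F).coeff n = 0 := by
      rw [topq_coeff, if_pos le_rfl, cf3, Nat.sub_self, h0, coeff_zero, Int.cast_zero]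
    have h2 : (topq n m F).leadingCoeff = 0 := by rw [leadingCoeff, hF.tq, h1]
    exact hF.sq.ne_zero (leadingCoeff_eq_zero.1 h2)
  rw [← hldef] at hPc
  have htp : tpf n (F.map (mapRingHom φ)) = (topf n F).map φ := by
    ext b
    rw [tpf_coeff, coeff_map, coe_mapRingHom, coeff_map, coeff_map, tpf_coeff]
    split_ifs
    · rfl
    · rw [map_zero]
  have hP0 : (st n (F.map (mapRingHom φ))).map (evalRingHom 0) = g' * h' := by
    rw [st_zero, htp, hprod]
  obtain ⟨G1, H1, V1, hG1m, hG1d, hH1d, hH1c, hG10, hH10, hPf⟩ :=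
    hensel (st n (F.map (mapRingHom φ))) n l g' h' hgm hl0 (by rw [hgd, hhd, hsum]) hPd hPc hP0
      hcop (n ^ 2 + 1)
  obtain ⟨A1, B1, W1, hA1, hA1d, hA1T, hA1f⟩ := aux n G1.natDegree G1 hG1m rfl (by
    rw [hG1d, hgd]; omega)
  have hH1l : H1.leadingCoeff = C l := by
    rw [leadingCoeff, hH1d, hH1c]
  have hmon : (C (C l⁻¹) * H1).Monic := by
    rw [Monic, leadingCoeff_mul, leadingCoeff_C, hH1l, ← C_mul, inv_mul_cancel₀ hl0, C_1]
  have hmond : (C (C l⁻¹) * H1).natDegree = h.natDegree := by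
    rw [natDegree_C_mul, hH1d, hhd]
    intro h0
    exact inv_ne_zero hl0 (C_eq_zero.1 h0)
  obtain ⟨A2, B2, W2, hA2, hA2d, hA2T, hA2f⟩ := aux n h.natDegree (C (C l⁻¹) * H1) hmon hmond (by
    omega)
  refine ⟨g', h', G1, H1, V1, A1, B1, W1, A2, C (C l⁻¹) * B2, W2, hcop, hG10, hH10, ?_, hA1, hA1d,
    hA1T, hA1f, hA2, hA2d, hA2T, ?_⟩
  · rw [st_map, hPf]
  · rw [hA2f]
    ring

theorem identities (hn : 2 ≤ n) (hF : HypG n m F) (hB : Beta (topf n F)) :
    ∃ (d1 d2 d3 d4 : ℤ[X]) (G H V A B W A' B' W' : ℤ[X][X][X]) (u v : ℤ[X][X]),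
      d1 ≠ 0 ∧ d2 ≠ 0 ∧ d3 ≠ 0 ∧ d4 ≠ 0 ∧
      C (C d1) * st n F = G * H + C (X ^ (n ^ 2 + 1)) * V ∧
      A ≠ 0 ∧ A.natDegree < n ∧ Tot (n ^ 2) A ∧
      C (C d2) * st (n ^ 2) A = G * B + C (X ^ (n ^ 2 + 1)) * W ∧
      A' ≠ 0 ∧ A'.natDegree < n ∧ Tot (n ^ 2) A' ∧
      C (C d3) * st (n ^ 2) A' = H * B' + C (X ^ (n ^ 2 + 1)) * W' ∧
      u * G.map (evalRingHom 0) + v * H.map (evalRingHom 0) = C d4 := by
  obtain ⟨g', h', G1, H1, V1, A1, B1, W1, A2, B2, W2, hcop, hG10, hH10, hPf, hA1, hA1d, hA1T, hA1f,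
    hA2, hA2d, hA2T, hA2f⟩ := overK hF hB
  obtain ⟨a, b, hab⟩ := hcop
  obtain ⟨dG, G0, hdG, hG0⟩ := clr G1
  obtain ⟨dH, H0, hdH, hH0⟩ := clr H1
  obtain ⟨dV, V0, hdV, hV0⟩ := clr V1
  obtain ⟨da, a0, hda, ha0⟩ := clr1 a
  obtain ⟨db, b0, hdb, hb0⟩ := clr1 b
  have hGm : (C (C dV) * G0).map (mapRingHom (algebraMap ℤ[X] Kt)) =
      C (C (algebraMap ℤ[X] Kt (dV * dG))) * G1 := by
    rw [Polynomial.map_mul, map_CC, hG0, map_mul, C_mul, C_mul]
    ring
  obtain ⟨d2, A, B, W, hd2, hA, hAd, hAT, hAf⟩ :=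
    fac (mul_ne_zero hdV hdG) hGm hA1f hA1 hA1d hA1T
  obtain ⟨d3, A', B', W', hd3, hA', hAd', hAT', hAf'⟩ := fac hdH hH0 hA2f hA2 hA2d hA2T
  refine ⟨dG * dH * dV, d2, d3, da * db * dH * dV * dG, C (C dV) * G0, H0,
    C (C (dG * dH)) * V0, A, B, W, A', B', W', C (db * dH) * a0, C (da * dV * dG) * b0,
    mul_ne_zero (mul_ne_zero hdG hdH) hdV, hd2, hd3,
    mul_ne_zero (mul_ne_zero (mul_ne_zero (mul_ne_zero hda hdb) hdH) hdV) hdG,
    ?_, hA, hAd, hAT, hAf, hA', hAd', hAT', hAf', ?_⟩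
  · apply Phi_inj
    simp only [Polynomial.map_add, Polynomial.map_mul, map_CC, map_CX]
    rw [hG0, hH0, hV0, hPf]
    simp only [map_mul]
    ring
  · have hev : ∀ Q : ℤ[X][X][X], (Q.map (evalRingHom 0)).map (algebraMap ℤ[X] Kt) =
        (Q.map (mapRingHom (algebraMap ℤ[X] Kt))).map (evalRingHom 0) := by
      intro Q
      rw [Polynomial.map_map, Polynomial.map_map]
      congr 1
      refine Polynomial.ringHom_ext (fun x => ?_) ?_
      · simp
      · simp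
    have e1 : (C (db * dH) * a0 * ((C (C dV) * G0).map (evalRingHom 0))).map
        (algebraMap ℤ[X] Kt) = C (algebraMap ℤ[X] Kt (db * dH)) *
          (C (algebraMap ℤ[X] Kt da) * a) * (C (algebraMap ℤ[X] Kt (dV * dG)) * g') := by
      rw [Polynomial.map_mul (algebraMap ℤ[X] Kt), Polynomial.map_mul (algebraMap ℤ[X] Kt), map_C,
        ha0, hev, hGm, Polynomial.map_mul, hG10, map_C, coe_evalRingHom, eval_C]
    have e2 : (C (da * dV * dG) * b0 * (H0.map (evalRingHom 0))).map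
        (algebraMap ℤ[X] Kt) = C (algebraMap ℤ[X] Kt (da * dV * dG)) *
          (C (algebraMap ℤ[X] Kt db) * b) * (C (algebraMap ℤ[X] Kt dH) * h') := by
      rw [Polynomial.map_mul (algebraMap ℤ[X] Kt), Polynomial.map_mul (algebraMap ℤ[X] Kt), map_C,
        hb0, hev, hH0, Polynomial.map_mul, hH10, map_C, coe_evalRingHom, eval_C]
    apply map_injective _ phi_inj
    rw [Polynomial.map_add, e1, e2, map_C]
    have h1 : (C (algebraMap ℤ[X] Kt (da * db * dH * dV * dG)) : Kt[X]) =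
        C (algebraMap ℤ[X] Kt (da * db * dH * dV * dG)) * (a * g' + b * h') := by
      rw [hab, mul_one]
    rw [h1]
    simp only [map_mul, C_mul]
    ring

end Pool.Agent.H4.TP
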