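import Mathlib

/-! # [H4 TP HEN] Hensel factorisation over `K[ξ]`, `K` a field

Induction on `N`. `N = 1`: `G0 = g.map C`, `H0 = h.map C + (C ξ-part?)`: take `G = g.map C`, `H = h.map C`; both have constant coefficients, `P - G * H` vanishes at `ξ = 0`, so every coefficient is divisible by `X`; the coefficient of `Z^n` of `P - G H` is `C ℓ - C ℓ = 0`.
Step `N → N + 1` (keep in the induction: `G` monic, `natDegree G = natDegree g`, `natDegree H = natDegree h`, `H.coeff (natDegree h) = C ℓ`, `G(0) = g`, `H(0) = h`, `P = G * H + C (X^N) * V`). Then `V.natDegree < n` or `V = 0`: the coefficient of `Z^i` in `P - G H` vanishes for `i ≥ n` (`i = n`: `C ℓ - 1 * C ℓ`), `C (X^N)` is a non-zero divisor. Let `e = V.map (evalRingHom 0) ∈ K[Z]`, `e.degree < n`. `IsCoprime g h`: there are `γ, η ∈ K[Z]` with `e = γ * h + η * g`, `γ.degree < g.degree` (Bezout `a g + b h = 1`: `γ = (e b) %ₘ g`, `η = e a + h ((e b) /ₘ g)`), and then `η.degree < h.degree`: `η g = e - γ h` has degree `< n = deg g + deg h`.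
Put `G' = G + C (X^N) * γ.map C`, `H' = H + C (X^N) * η.map C`: `P - G' H' = C (X^N) * (V - γ H - η G) - C (X^(2N)) γ η`, and `V - γ H - η G` vanishes at `ξ = 0`, so `= C X * V'`; `2 N ≥ N + 1` (`N ≥ 1`). Leading coefficients are unchanged as `γ, η` have smaller degree.
For `N = 0` use the case `1` (`C (X^1) * V = C (X^0) * (C X * V)`). -/

namespace Pool.Agent.H4.TP

open Finset Polynomial

/-- a polynomial which vanishes at `ξ = 0` is divisible by `ξ` -/
theorem hen_dvd {K : Type*} [Field K] (Q : K[X][X]) (h : Q.map (evalRingHom 0) = 0) :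
    ∃ V : K[X][X], Q = C X * V := by
  have h1 : (C X : K[X][X]) ∣ Q := by
    rw [C_dvd_iff_dvd_coeff]
    intro i
    rw [X_dvd_iff]
    have h2 := congrArg (fun f : K[X] => f.coeff i) h
    simp only [coeff_map, coeff_zero] at h2
    rw [coeff_zero_eq_eval_zero]
    exact h2
  exact h1

theorem hen_map {K : Type*} [Field K] (g : K[X]) :
    (g.map (C : K →+* K[X])).map (evalRingHom 0) = g := by
  rw [Polynomial.map_map]
  have : (evalRingHom (0 : K)).comp C = RingHom.id K := by
    ext x
    simp
  rw [this, Polynomial.map_id]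

/-- Bezout with degrees -/
theorem hen_bez {K : Type*} [Field K] {g h e : K[X]} (hg : g.Monic) (hh : h ≠ 0)
    (hco : IsCoprime g h) (he : e.degree < g.degree + h.degree) :
    ∃ γ η : K[X], e = γ * h + η * g ∧ γ.degree < g.degree ∧ η.degree < h.degree := by
  obtain ⟨a, b, hab⟩ := hco
  have hg0 : g ≠ 0 := hg.ne_zero
  have h1 := modByMonic_add_div (e * b) g
  have h2 : ((e * b) %ₘ g).degree < g.degree := degree_modByMonic_lt _ hg
  have h3 : e = ((e * b) %ₘ g) * h + (e * a + h * ((e * b) /ₘ g)) * g := by
    calc e = e * (a * g + b * h) := by rw [hab, mul_one]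
      _ = e * a * g + (e * b) * h := by ring
      _ = e * a * g + ((e * b) %ₘ g + g * ((e * b) /ₘ g)) * h := by rw [h1]
      _ = _ := by ring
  refine ⟨(e * b) %ₘ g, e * a + h * ((e * b) /ₘ g), h3, h2, ?_⟩
  set γ := (e * b) %ₘ g
  set η := e * a + h * ((e * b) /ₘ g)
  have h4 : η * g = e - γ * h := by
    rw [eq_sub_iff_add_eq, add_comm]
    exact h3.symm
  have h5 : (γ * h).degree < g.degree + h.degree := by
    rw [degree_mul]
    have : h.degree ≠ ⊥ := by rwa [Ne, degree_eq_bot]
    exact WithBot.add_lt_add_right this h2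
  have h6 : (η * g).degree < g.degree + h.degree := by
    rw [h4]
    exact (degree_sub_le _ _).trans_lt (max_lt he h5)
  rw [degree_mul] at h6
  by_contra hcon
  push Not at hcon
  have h7 : g.degree + h.degree ≤ η.degree + g.degree := by
    rw [add_comm]
    gcongr
  exact absurd h6 (not_lt.2 h7)

theorem hensel {K : Type*} [Field K] (P : K[X][X]) (n : ℕ) (ℓ : K) (g h : K[X]) (hg : g.Monic)
    (hℓ : ℓ ≠ 0) (hn : g.natDegree + h.natDegree = n) (hP : P.natDegree ≤ n)
    (hPn : P.coeff n = C ℓ) (h0 : P.map (evalRingHom 0) = g * h) (hco : IsCoprime g h) (N : ℕ) :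
    ∃ G H V : K[X][X], G.Monic ∧ G.natDegree = g.natDegree ∧ H.natDegree = h.natDegree ∧
      H.coeff h.natDegree = C ℓ ∧ G.map (evalRingHom 0) = g ∧ H.map (evalRingHom 0) = h ∧
      P = G * H + C (X ^ N) * V := by
  have hlc : h.leadingCoeff = ℓ := by
    have h1 := congrArg (fun f : K[X] => f.coeff n) h0
    simp only [coeff_map, hPn] at h1
    rw [← hn, coeff_mul_degree_add_degree, hg.leadingCoeff, one_mul] at h1
    rw [← h1]
    simp
  have hh0 : h ≠ 0 := by
    rintro rfl
    rw [leadingCoeff_zero] at hlc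
    exact hℓ hlc.symm
  have hg0 : g ≠ 0 := hg.ne_zero
  have hCinj : Function.Injective (C : K →+* K[X]) := C_injective
  have key : ∀ m : ℕ, ∃ G H V : K[X][X], G.Monic ∧ G.natDegree = g.natDegree ∧
      H.natDegree = h.natDegree ∧ H.coeff h.natDegree = C ℓ ∧ G.map (evalRingHom 0) = g ∧
      H.map (evalRingHom 0) = h ∧ P = G * H + C (X ^ (m + 1)) * V := by
    intro m
    induction m with
    | zero =>
      obtain ⟨V, hV⟩ := hen_dvd (P - g.map C * h.map C) (by
        rw [Polynomial.map_sub, Polynomial.map_mul, hen_map, hen_map, h0, sub_self])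
      refine ⟨g.map C, h.map C, V, hg.map _, ?_, ?_, ?_, hen_map g, hen_map h, ?_⟩
      · exact natDegree_map_eq_of_injective hCinj g
      · exact natDegree_map_eq_of_injective hCinj h
      · rw [coeff_map, coeff_natDegree, hlc]
      · rw [zero_add, pow_one, ← hV]
        ring
    | succ m ih =>
      obtain ⟨G, H, V, hG, hGd, hHd, hHc, hG0, hH0, hPe⟩ := ih
      have hHne : H ≠ 0 := by
        rintro rfl
        rw [Polynomial.map_zero] at hH0
        exact hh0 hH0.symm
      have hGdeg : G.degree = g.degree := by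
        rw [degree_eq_natDegree hG.ne_zero, degree_eq_natDegree hg0, hGd]
      have hHdeg : H.degree = h.degree := by
        rw [degree_eq_natDegree hHne, degree_eq_natDegree hh0, hHd]
      have hHl : H.leadingCoeff = C ℓ := by
        rw [← hHc, ← hHd]; rfl
      -- degree of `V`
      have hVc : ∀ i, n ≤ i → V.coeff i = 0 := by
        intro i hi
        have h1 : (P - G * H).coeff i = 0 := by
          rw [coeff_sub]
          rcases hi.eq_or_lt with h2 | h2
          · subst h2
            rw [hPn]
            have h3 : (G * H).coeff n = C ℓ := by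
              rw [← hn, ← hGd, ← hHd, coeff_mul_degree_add_degree, hG.leadingCoeff, hHl, one_mul]
            rw [h3, sub_self]
          · rw [coeff_eq_zero_of_natDegree_lt (hP.trans_lt h2), coeff_eq_zero_of_natDegree_lt,
              sub_zero]
            refine lt_of_le_of_lt natDegree_mul_le ?_
            rw [hGd, hHd, hn]
            exact h2
        have h4 : P - G * H = C (X ^ (m + 1)) * V := by rw [hPe]; ring
        rw [h4, coeff_C_mul] at h1
        exact (mul_eq_zero.1 h1).resolve_left (pow_ne_zero _ X_ne_zero)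
      have hed : (V.map (evalRingHom 0)).degree < g.degree + h.degree := by
        rw [degree_eq_natDegree hg0, degree_eq_natDegree hh0, ← Nat.cast_add, hn,
          degree_lt_iff_coeff_zero]
        intro i hi
        rw [coeff_map, hVc i hi, map_zero]
      obtain ⟨γ, η, he, hγ, hη⟩ := hen_bez hg hh0 hco hed
      obtain ⟨V', hV'⟩ := hen_dvd (V - γ.map C * H - η.map C * G) (by
        rw [Polynomial.map_sub, Polynomial.map_sub, Polynomial.map_mul, Polynomial.map_mul,
          hen_map, hen_map, hG0, hH0, he]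
        ring)
      have hXne : (X ^ (m + 1) : K[X]) ≠ 0 := pow_ne_zero _ X_ne_zero
      have hdγ : (C (X ^ (m + 1)) * γ.map C : K[X][X]).degree < G.degree := by
        rw [degree_C_mul hXne, degree_map_eq_of_injective hCinj, hGdeg]
        exact hγ
      have hdη : (C (X ^ (m + 1)) * η.map C : K[X][X]).degree < H.degree := by
        rw [degree_C_mul hXne, degree_map_eq_of_injective hCinj, hHdeg]
        exact hη
      have hev : ∀ q : K[X], (C (X ^ (m + 1)) * q.map C : K[X][X]).map (evalRingHom 0) = 0 := by
        intro q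
        rw [Polynomial.map_mul, map_C]
        simp
      refine ⟨G + C (X ^ (m + 1)) * γ.map C, H + C (X ^ (m + 1)) * η.map C,
        V' - C (X ^ m) * (γ.map C * η.map C), hG.add_of_left hdγ, ?_, ?_, ?_, ?_, ?_, ?_⟩
      · rw [natDegree_add_eq_left_of_degree_lt hdγ, hGd]
      · rw [natDegree_add_eq_left_of_degree_lt hdη, hHd]
      · rw [coeff_add, hHc, coeff_eq_zero_of_degree_lt, add_zero]
        rw [← degree_eq_natDegree hh0, ← hHdeg]
        exact hdη
      · rw [Polynomial.map_add, hev, add_zero, hG0]
      · rw [Polynomial.map_add, hev, add_zero, hH0]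
      · have hV2 : V = C X * V' + γ.map C * H + η.map C * G := by
          rw [← hV']; ring
        have e1 : (C (X ^ (m + 1)) : K[X][X]) = C (X ^ m) * C X := by
          rw [← C_mul, ← pow_succ]
        have e2 : (C (X ^ (m + 1 + 1)) : K[X][X]) = C (X ^ m) * C X * C X := by
          rw [← C_mul, ← C_mul, ← pow_succ, ← pow_succ]
        rw [hPe, hV2, e1, e2]
        ring
  rcases N with _ | m
  · obtain ⟨G, H, V, h1, h2, h3, h4, h5, h6, h7⟩ := key 0
    refine ⟨G, H, C X * V, h1, h2, h3, h4, h5, h6, ?_⟩
    rw [h7]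
    simp
  · exact key m

end Pool.Agent.H4.TP
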