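import Pool.Agent.H4.TP.FDefs

/-! # [H4 TP IRF] From the family over `ℚ[t]` to `IrrT`

`Ψ : ℤ[X][X][X] → MvPolynomial (Fin 2) ℚ[X]` the ring hom `eval₂RingHom (eval₂RingHom (C.comp (mapRingHom (Int.castRingHom ℚ))) (X 0)) (X 1)`, i.e. `t ↦ t`, `x ↦ X 0`, `y ↦ X 1`. Coefficients: `(Ψ G).coeff (single 0 a + single 1 b) = ((G.coeff b).coeff a).map (Int.castRingHom ℚ)` (induction on `G` as in `coeff_aev` in `Pool/Agent/H4/TE/BRG.lean`), so `Ψ` is injective; `Ψ (F3 m F) = famP ℚ m F` (compare coefficients with `coeff_f3`, or two ring homs on `MvPolynomial`).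
`C (C c) * F3 m F = G * H`, `c ≠ 0`: `C (c.map ..) * famP ℚ m F = Ψ G * Ψ H`, `c.map .. ≠ 0`; not `Dec`: `(Ψ G).totalDegree = 0` or `(Ψ H).totalDegree = 0`. `totalDegree = 0`: all coefficients with `(a, b) ≠ (0, 0)` vanish, so `(G.coeff b).coeff a = 0` for them: `G = C (C g)`. -/

namespace Pool.Agent.H4.TP

open Finset Polynomial Pool.Agent.H37.TE Pool.Agent.H98.TE Pool.Agent.H4.TE

/-- `t ↦ t`, `x ↦ X 0`, `y ↦ X 1` -/
private noncomputable def psi3 : ℤ[X][X][X] →+* MvPolynomial (Fin 2) ℚ[X] :=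
  eval₂RingHom (eval₂RingHom (MvPolynomial.C.comp (mapRingHom (Int.castRingHom ℚ)))
    (MvPolynomial.X 0)) (MvPolynomial.X 1)

private theorem psi3_monomial (a b : ℕ) (q : ℤ[X]) :
    psi3 (monomial b (monomial a q)) =
      MvPolynomial.monomial (Finsupp.single 0 a + Finsupp.single 1 b)
        (q.map (Int.castRingHom ℚ)) := by
  rw [psi3, coe_eval₂RingHom, eval₂_monomial, coe_eval₂RingHom, eval₂_monomial,
    RingHom.comp_apply, coe_mapRingHom, MvPolynomial.X_pow_eq_monomial,
    MvPolynomial.X_pow_eq_monomial, MvPolynomial.C_mul_monomial, MvPolynomial.monomial_mul,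
    mul_one, mul_one]

private theorem psi3_coeff (G : ℤ[X][X][X]) (a b : ℕ) :
    (psi3 G).coeff (Finsupp.single 0 a + Finsupp.single 1 b) =
      ((G.coeff b).coeff a).map (Int.castRingHom ℚ) := by
  classical
  induction G using Polynomial.induction_on' with
  | add p q hp hq =>
    rw [map_add, MvPolynomial.coeff_add, hp, hq, coeff_add, coeff_add, Polynomial.map_add]
  | monomial b' p =>
    induction p using Polynomial.induction_on' with
    | add p q hp hq =>
      rw [map_add, map_add, MvPolynomial.coeff_add, hp, hq, coeff_add, coeff_add,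
        Polynomial.map_add]
    | monomial a' q =>
      rw [psi3_monomial, MvPolynomial.coeff_monomial, coeff_monomial]
      by_cases hb : b' = b
      · subst hb
        rw [if_pos rfl, coeff_monomial]
        by_cases ha : a' = a
        · subst ha
          rw [if_pos rfl, if_pos rfl]
        · rw [if_neg ha, if_neg, Polynomial.map_zero]
          intro h
          apply ha
          have h1 := DFunLike.congr_fun h 0
          simpa using h1
      · rw [if_neg hb, if_neg, coeff_zero, Polynomial.map_zero]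
        intro h
        apply hb
        have h1 := DFunLike.congr_fun h 1
        simpa using h1

private theorem psi3_deg {G : ℤ[X][X][X]} (h : (psi3 G).totalDegree = 0) :
    ∃ g : ℤ[X], G = C (C g) := by
  refine ⟨(G.coeff 0).coeff 0, ?_⟩
  have hz : ∀ a b, (a, b) ≠ (0, 0) → (G.coeff b).coeff a = 0 := by
    intro a b hab
    have h1 := psi3_coeff G a b
    rw [MvPolynomial.coeff_eq_zero_of_totalDegree_lt] at h1
    · rw [eq_comm, Polynomial.map_eq_zero_iff (RingHom.injective_int _)] at h1
      exact h1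
    · rw [h]
      change 0 < (Finsupp.single 0 a + Finsupp.single 1 b : Fin 2 →₀ ℕ).degree
      rw [Finsupp.degree_eq_sum, Fin.sum_univ_two]
      simp only [Finsupp.add_apply]
      simp
      by_contra hc
      apply hab
      rw [Prod.mk.injEq]
      omega
  ext b a : 2
  rw [coeff_C]
  by_cases hb : b = 0
  · subst hb
    rw [if_pos rfl, coeff_C]
    by_cases ha : a = 0
    · subst ha
      rw [if_pos rfl]
    · rw [if_neg ha]
      exact hz a 0 (fun h => ha (Prod.mk.inj h).1)
  · rw [if_neg hb, coeff_zero]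
    exact hz a b (fun h => hb (Prod.mk.inj h).2)

private theorem psi3_f3 {m : ℕ} {F : ℕ → MvPolynomial (Fin 2) ℤ} :
    psi3 (F3 m F) = famP ℚ m F := by
  have hP : ∀ P : MvPolynomial (Fin 2) ℤ,
      psi3 (MvPolynomial.aeval ![(C X : ℤ[X][X][X]), X] P) =
        MvPolynomial.map (Int.castRingHom ℚ[X]) P := by
    intro P
    have h : (psi3).comp
        ((MvPolynomial.aeval ![(C X : ℤ[X][X][X]), X] :
          MvPolynomial (Fin 2) ℤ →ₐ[ℤ] ℤ[X][X][X]) : MvPolynomial (Fin 2) ℤ →+* ℤ[X][X][X]) =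
        MvPolynomial.map (Int.castRingHom ℚ[X]) := by
      apply MvPolynomial.ringHom_ext
      · intro r
        simp
      · intro i
        fin_cases i
        · simp [psi3]
        · simp [psi3]
    exact congrArg (fun g : MvPolynomial (Fin 2) ℤ →+* MvPolynomial (Fin 2) ℚ[X] => g P) h
  rw [F3, famP, map_sum]
  refine sum_congr rfl fun j _ => ?_
  rw [map_mul, hP]
  congr 1
  rw [psi3, coe_eval₂RingHom, eval₂_C, coe_eval₂RingHom, eval₂_C, RingHom.comp_apply,
    coe_mapRingHom, Polynomial.map_pow, Polynomial.map_X]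

theorem irrT_of {m : ℕ} {F : ℕ → MvPolynomial (Fin 2) ℤ} (h : ¬ Dec (famP ℚ m F)) :
    IrrT (F3 m F) := by
  intro c G H hc hGH
  by_contra hcon
  rw [not_or] at hcon
  obtain ⟨h1, h2⟩ := hcon
  apply h
  refine ⟨c.map (Int.castRingHom ℚ), psi3 G, psi3 H, ?_, ?_, ?_, ?_⟩
  · rw [Ne, Polynomial.map_eq_zero_iff (RingHom.injective_int _)]
    exact hc
  · exact Nat.pos_of_ne_zero fun h0 => h1 (psi3_deg h0)
  · exact Nat.pos_of_ne_zero fun h0 => h2 (psi3_deg h0)
  · rw [← psi3_f3, ← map_mul psi3, ← hGH, map_mul psi3]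
    congr 1
    simp [psi3]

end Pool.Agent.H4.TP
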