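import Pool.Agent.H4.TP.Defs
import Pool.Agent.H37.TE.Win
import Pool.Agent.H4.TE.NEG

/-! # [H4 TP IRT] Irreducibility over `ℚ(t)`

`irr_frac`: `φ = algebraMap ℤ[X] Kt` injective, `P = F.map (mapRingHom φ)`, `P.natDegree = F.natDegree ≥ 1`, so `P` is not a unit (`natDegree_eq_zero_of_isUnit`). If `P = g * h` in `Kt[X][X]`: clear the denominators (finitely many coefficients: `C (C (φ d1)) * g = G.map (mapRingHom φ)`, `C (C (φ d2)) * h = H.map ..`, with `d1, d2 ≠ 0`; `IsLocalization.exist_integer_multiples_of_finset` or `Polynomial.induction_on'` twice), so `C (C (d1 d2)) * F = G * H` (injectivity of `map`), `IrrT`: `G = C (C g0)`, so `C (C (φ d1)) * g = C (C (φ g0))`, `g = C (C (φ g0 / φ d1))`, `g0 ≠ 0` because `P ≠ 0`: a unit. The same for `h`.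
`irrT_equiv`: `τ` a ring automorphism of `ℤ[X][X][X]` mapping `C (C c)` to `C (C (σ c))`, `σ` an automorphism of `ℤ[X]`: `C (C c) * τ F = G * H` gives `C (C (σ⁻¹ c)) * F = τ⁻¹ G * τ⁻¹ H`. Applied to `swap` (`Bivariate.swap`, `σ = id`, `swap (C (C c)) = C (C c)`), to `sh A` (`σ = comp (X + C A)`, inverse `sh (-A)`), to `ngF` (involution `ngF_ngF`, `σ = comp (-X)`). -/

namespace Pool.Agent.H4.TP

open Finset Polynomial Pool.Agent.H37.TE Pool.Agent.H98.TE Pool.Agent.H4.TE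

theorem clear1 (p : Kt[X]) : ∃ d : ℤ[X], d ≠ 0 ∧ ∃ q : ℤ[X][X],
    C (algebraMap ℤ[X] Kt d) * p = q.map (algebraMap ℤ[X] Kt) := by
  obtain ⟨b, hb0, hb⟩ := IsLocalization.integerNormalization_spec (nonZeroDivisors ℤ[X]) (S := Kt) p
  refine ⟨b, nonZeroDivisors.ne_zero hb0, IsLocalization.integerNormalization (nonZeroDivisors ℤ[X]) p, ?_⟩
  rw [hb, ← Polynomial.smul_eq_C_mul, algebraMap_smul]

theorem clear2 (g : Kt[X][X]) : ∃ d : ℤ[X], d ≠ 0 ∧ ∃ G : ℤ[X][X][X],
    C (C (algebraMap ℤ[X] Kt d)) * g = G.map (mapRingHom (algebraMap ℤ[X] Kt)) := by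
  induction g using Polynomial.induction_on' with
  | add p q hp hq =>
    obtain ⟨d1, h1, G1, e1⟩ := hp
    obtain ⟨d2, h2, G2, e2⟩ := hq
    refine ⟨d1 * d2, mul_ne_zero h1 h2, C (C d2) * G1 + C (C d1) * G2, ?_⟩
    rw [Polynomial.map_add, Polynomial.map_mul, Polynomial.map_mul, ← e1, ← e2, map_C, map_C,
      coe_mapRingHom, map_C, map_C]
    simp only [map_mul]
    ring
  | monomial n a =>
    obtain ⟨d, hd, q, e⟩ := clear1 a
    refine ⟨d, hd, monomial n q, ?_⟩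
    rw [map_monomial, coe_mapRingHom, ← e, C_mul_monomial]

theorem map_inj : Function.Injective
    (Polynomial.map (mapRingHom (algebraMap ℤ[X] Kt)) : ℤ[X][X][X] → Kt[X][X]) :=
  map_injective _ (map_injective _ (IsFractionRing.injective ℤ[X] Kt))

theorem irrT_hom {F : ℤ[X][X][X]} (h : IrrT F) (τ τ' : ℤ[X][X][X] →+* ℤ[X][X][X])
    (σ σ' : ℤ[X] →+* ℤ[X]) (h1 : ∀ G, τ (τ' G) = G) (h2 : ∀ G, τ' (τ G) = G)
    (e1 : ∀ c : ℤ[X], τ (C (C c)) = C (C (σ c))) (e2 : ∀ c : ℤ[X], τ' (C (C c)) = C (C (σ' c))) :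
    IrrT (τ F) := by
  intro c G H hc hG
  have h3 : C (C (σ' c)) * F = τ' G * τ' H := by
    rw [← e2, ← map_mul, ← hG, map_mul, h2]
  have h4 : σ' c ≠ 0 := by
    intro h0
    have h5 : τ (τ' (C (C c))) = 0 := by rw [e2, h0]; simp
    rw [h1] at h5
    exact hc (C_injective (C_injective (by rw [h5]; simp)))
  rcases h _ _ _ h4 h3 with ⟨g, hg⟩ | ⟨g, hg⟩
  · left
    exact ⟨σ g, by rw [← h1 G, hg, e1]⟩
  · right
    exact ⟨σ g, by rw [← h1 H, hg, e1]⟩

theorem irr_frac {F : ℤ[X][X][X]} (h : IrrT F) (hF : 1 ≤ F.natDegree) :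
    Irreducible (F.map (mapRingHom (algebraMap ℤ[X] Kt))) := by
  have hd : (F.map (mapRingHom (algebraMap ℤ[X] Kt))).natDegree = F.natDegree :=
    natDegree_map_eq_of_injective (map_injective _ (IsFractionRing.injective ℤ[X] Kt)) F
  have h0 : F.map (mapRingHom (algebraMap ℤ[X] Kt)) ≠ 0 := by
    intro h0
    rw [h0, natDegree_zero] at hd
    omega
  constructor
  · intro hu
    have := natDegree_eq_zero_of_isUnit hu
    omega
  · intro g k hgk
    obtain ⟨d1, h1, G, e1⟩ := clear2 g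
    obtain ⟨d2, h2, H, e2⟩ := clear2 k
    have h3 : C (C (d1 * d2)) * F = G * H := by
      apply map_inj
      rw [Polynomial.map_mul, Polynomial.map_mul, ← e1, ← e2, map_C, coe_mapRingHom, map_C, hgk]
      simp only [map_mul]
      ring
    have key : ∀ (d : ℤ[X]) (g : Kt[X][X]) (q : ℤ[X]), d ≠ 0 → g ≠ 0 →
        C (C (algebraMap ℤ[X] Kt d)) * g =
          (C (C q) : ℤ[X][X][X]).map (mapRingHom (algebraMap ℤ[X] Kt)) → IsUnit g := by
      intro d g q hd hg e
      rw [map_C, coe_mapRingHom, map_C] at e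
      have hφ : algebraMap ℤ[X] Kt d ≠ 0 := by
        intro h
        exact hd (IsFractionRing.injective ℤ[X] Kt (by rw [h, map_zero]))
      have h4 : g = C (C ((algebraMap ℤ[X] Kt d)⁻¹ * algebraMap ℤ[X] Kt q)) := by
        calc g = C (C ((algebraMap ℤ[X] Kt d)⁻¹)) * (C (C (algebraMap ℤ[X] Kt d)) * g) := by
              rw [← mul_assoc, ← C_mul, ← C_mul, inv_mul_cancel₀ hφ]
              simp
          _ = _ := by rw [e, ← C_mul, ← C_mul]
      have h5 : (algebraMap ℤ[X] Kt d)⁻¹ * algebraMap ℤ[X] Kt q ≠ 0 := by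
        intro h
        rw [h] at h4
        exact hg (by rw [h4]; simp)
      rw [h4]
      exact ((isUnit_iff_ne_zero.2 h5).map C).map C
    have hg0 : g ≠ 0 := by
      rintro rfl
      exact h0 (by rw [hgk, zero_mul])
    have hk0 : k ≠ 0 := by
      rintro rfl
      exact h0 (by rw [hgk, mul_zero])
    rcases h _ _ _ (mul_ne_zero h1 h2) h3 with ⟨q, hq⟩ | ⟨q, hq⟩
    · left
      exact key d1 g q h1 hg0 (by rw [e1, hq])
    · right
      exact key d2 k q h2 hk0 (by rw [e2, hq])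

theorem irrT_swap {F : ℤ[X][X][X]} (h : IrrT F) : IrrT (Pool.Agent.H98.TE.swF F) := by
  have h1 : ∀ G : ℤ[X][X][X], Bivariate.swap (Bivariate.swap G) = G := by
    intro G
    ext1 b
    ext1 a
    exact (swF_coeff (Bivariate.swap G) b a).trans (swF_coeff G a b)
  have h2 : ∀ c : ℤ[X], Bivariate.swap (C (C c) : ℤ[X][X][X]) = C (C c) := by
    intro c
    exact (Bivariate.swap (R := ℤ[X])).commutes c
  exact irrT_hom h (Bivariate.swap (R := ℤ[X])).toRingEquiv.toRingHom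
    (Bivariate.swap (R := ℤ[X])).toRingEquiv.toRingHom (RingHom.id _) (RingHom.id _) h1 h1 h2 h2

theorem irrT_sh {F : ℤ[X][X][X]} (h : IrrT F) (A : ℤ) : IrrT (sh A F) := by
  have h1 : ∀ (A : ℤ) (G : ℤ[X][X][X]), sh A (sh (-A) G) = G := by
    intro A G
    ext1 b
    ext1 a
    rw [sh_coeff, sh_coeff, comp_assoc]
    simp
  have h2 : ∀ (A : ℤ) (c : ℤ[X]), sh A (C (C c)) = C (C (compRingHom (X + C A) c)) := by
    intro A c
    simp [sh]
  refine irrT_hom h (sh A) (sh (-A)) (compRingHom (X + C A)) (compRingHom (X + C (-A))) (h1 A) ?_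
    (h2 A) (h2 (-A))
  intro G
  have := h1 (-A) G
  rwa [neg_neg] at this

theorem irrT_ng {F : ℤ[X][X][X]} (h : IrrT F) : IrrT (ngF F) := by
  have h1 : ∀ G : ℤ[X][X][X], mapRingHom (mapRingHom (compRingHom (-X))) G = ngF G := fun _ => rfl
  have h2 : ∀ c : ℤ[X], mapRingHom (mapRingHom (compRingHom (-X))) (C (C c) : ℤ[X][X][X]) =
      C (C (compRingHom (-X) c)) := by
    intro c
    simp
  exact irrT_hom h (mapRingHom (mapRingHom (compRingHom (-X))))
    (mapRingHom (mapRingHom (compRingHom (-X)))) (compRingHom (-X)) (compRingHom (-X))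
    (fun G => by rw [h1, h1, ngF_ngF]) (fun G => by rw [h1, h1, ngF_ngF]) h2 h2

end Pool.Agent.H4.TP
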