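import Pool.Agent.H4.TP.Defs

/-! # [H4 TP ST] The reversed polynomial

`st_coeff`: as `tpf_coeff` (`Pool/Agent/H37/TE/Irr.lean`). `st_map`: `reflect_map`, coefficients (see `map_reflect` in `Pool/Agent/H98/TE/SWP.lean`). `st_zero`: `(reflect (n-b) p).eval 0 = (reflect (n-b) p).coeff 0 = p.coeff (n-b)` (`coeff_reflect`, `revAt_le`).
`st_lead`: `b = n` in `st_coeff`: `reflect 0 p`, `p = F.coeff n` has degree `0` by `Tot`. `st_eval`: both sides are sums over `b ≤ D`, `a ≤ D - b` (`F.natDegree ≤ D`, `(F.coeff b).natDegree ≤ D - b` by `Tot`): `ev3_sum` (`Pool/Agent/H37/TE/Cor.lean`) for both, or: `ev3` is a ring hom (`evH`), `ev3 t ξ Z (st D G) = ∑_b (eval₂ of reflect (D-b) (G.coeff b)) * Z^b`, `eval₂_reflect_mul_pow` in Mathlib: `eval₂ i (↑x⁻¹) (reflect N f) * x^N = eval₂ i x f` for `x` invertible, `f.natDegree ≤ N`. -/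

namespace Pool.Agent.H4.TP

open Finset Polynomial Pool.Agent.H37.TE Pool.Agent.H98.TE

theorem st_coeff {R : Type*} [Semiring R] (D : ℕ) (G : R[X][X]) (b : ℕ) :
    (st D G).coeff b = if b ≤ D then reflect (D - b) (G.coeff b) else 0 := by
  unfold st
  rw [finsetSum_coeff]
  simp only [coeff_C_mul, coeff_X_pow, mul_ite, mul_one, mul_zero]
  rw [Finset.sum_ite_eq]
  simp only [mem_range]
  split_ifs <;> first | rfl | omega

theorem st_map {R S : Type*} [CommRing R] [CommRing S] (φ : R →+* S) (D : ℕ) (G : R[X][X]) :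
    (st D G).map (mapRingHom φ) = st D (G.map (mapRingHom φ)) := by
  ext1 b
  rw [coeff_map, st_coeff, st_coeff, coeff_map]
  by_cases hb : b ≤ D
  · rw [if_pos hb, if_pos hb]
    exact map_reflect φ _ _
  · rw [if_neg hb, if_neg hb, map_zero]

theorem st_zero {R : Type*} [CommRing R] (n : ℕ) (F : R[X][X]) :
    (st n F).map (evalRingHom 0) = tpf n F := by
  ext b
  rw [coeff_map, st_coeff, tpf_coeff]
  by_cases hb : b ≤ n
  · rw [if_pos hb, if_pos hb, coe_evalRingHom, ← coeff_zero_eq_eval_zero, coeff_reflect,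
      revAt_le (Nat.zero_le _), Nat.sub_zero]
  · rw [if_neg hb, if_neg hb, map_zero]

/-- the leading coefficient is constant -/
theorem st_lead {R : Type*} [CommRing R] {n : ℕ} {F : R[X][X]} (hF : Tot n F) :
    (st n F).natDegree ≤ n ∧ (st n F).coeff n = C ((F.coeff n).coeff 0) := by
  constructor
  · rw [natDegree_le_iff_coeff_eq_zero]
    intro b hb
    rw [st_coeff, if_neg (by omega)]
  · rw [st_coeff, if_pos le_rfl, Nat.sub_self]
    have h : F.coeff n = C ((F.coeff n).coeff 0) := by
      ext a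
      rcases a with _ | a
      · rw [coeff_C_zero]
      · rw [hF (a + 1) n (by omega), coeff_C_succ]
    rw [h, reflect_C, pow_zero, mul_one, coeff_C_zero]

theorem st_eval {D : ℕ} {G : ℤ[X][X][X]} (hG : Tot D G) {t x y : ℝ} (hx : x ≠ 0) :
    ev3 t x y G = x ^ D * ev3 t (1 / x) (y / x) (st D G) := by
  have hst : ∀ a b, b ≤ D → ((st D G).coeff b).coeff a =
      if a + b ≤ D then (G.coeff b).coeff (D - b - a) else 0 := by
    intro a b hb
    rw [st_coeff, if_pos hb, coeff_reflect]
    by_cases ha : a + b ≤ D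
    · rw [if_pos ha, revAt_le (by omega)]
    · rw [if_neg ha, revAt_eq_self_of_lt (by omega)]
      exact hG a b (by omega)
  have hT : ∀ a b, D < a + b → ((st D G).coeff b).coeff a = 0 := by
    intro a b hab
    by_cases hb : b ≤ D
    · rw [hst a b hb, if_neg (by omega)]
    · rw [st_coeff, if_neg hb, coeff_zero]
  rw [ev3_sum t x y G D hG, ev3_sum t (1 / x) (y / x) (st D G) D hT, Finset.mul_sum]
  refine Finset.sum_congr rfl fun b hb => ?_
  have hb' : b ≤ D := by
    have := mem_range.1 hb
    omega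
  have hsub : range (D - b + 1) ⊆ range (D + 1) := by
    intro a ha
    rw [mem_range] at ha ⊢
    omega
  rw [← Finset.sum_subset hsub (f := fun a => eval₂ (Int.castRingHom ℝ) t ((G.coeff b).coeff a) *
      x ^ a * y ^ b),
    ← Finset.sum_subset hsub (f := fun a => eval₂ (Int.castRingHom ℝ) t
      (((st D G).coeff b).coeff a) * (1 / x) ^ a * (y / x) ^ b)]
  · rw [← Finset.sum_range_reflect, Finset.mul_sum]
    refine Finset.sum_congr rfl fun a ha => ?_
    have ha' : a ≤ D - b := by
      have := mem_range.1 ha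
      omega
    rw [hst a b hb', if_pos (by omega)]
    have e1 : D - b + 1 - 1 - a = D - b - a := by omega
    rw [e1]
    have e2 : x ^ D = x ^ (D - b - a) * x ^ a * x ^ b := by
      rw [← pow_add, ← pow_add]
      congr 1
      omega
    rw [e2, div_pow, div_pow, one_pow]
    field_simp
  · intro a ha1 ha2
    rw [mem_range] at ha1 ha2
    rw [hst a b hb', if_neg (by omega), eval₂_zero, zero_mul, zero_mul]
  · intro a ha1 ha2
    rw [mem_range] at ha1 ha2
    rw [hG a b (by omega), eval₂_zero, zero_mul, zero_mul]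

end Pool.Agent.H4.TP
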