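import Pool.Agent.H4.TP.IRT

/-! # [H4 TP WIN] Points in a window, for `IrrT` (copy of `Pool/Agent/H37/TE/Win.lean`) -/

namespace Pool.Agent.H4.TP

open Finset Polynomial Pool.Agent.H37.TE Pool.Agent.H98.TE

theorem nat_of {n : ℕ} {F : ℤ[X][X][X]} (hdeg : ∀ a b, n < a + b → (F.coeff b).coeff a = 0)
    (hlead : (F.coeff n).coeff 0 ≠ 0) : F.natDegree = n := by
  refine le_antisymm ?_ (le_natDegree_of_ne_zero ?_)
  · rw [natDegree_le_iff_coeff_eq_zero]
    intro b hb
    ext1 a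
    rw [hdeg a b (by omega), coeff_zero]
  · intro h
    rw [h, coeff_zero] at hlead
    exact hlead rfl

theorem window_points (n D κ : ℕ) (hn : 1 ≤ n) (F : ℤ[X][X][X])
    (hdeg : ∀ a b, n < a + b → (F.coeff b).coeff a = 0) (hlead : (F.coeff n).coeff 0 ≠ 0)
    (hlead' : (F.coeff 0).coeff n ≠ 0) (hirr : IrrT F) :
    ∃ c : ℕ, ∀ A : ℤ, ∀ U P : ℕ, Cpl U P → ∀ G : ℤ[X][X][X], TD D D D G → G ≠ 0 →
      G.natDegree < n → ∀ S : Finset ℤ, (∀ u ∈ S, 0 ≤ u ∧ u ≤ U ∧ ∃ x y : ℤ,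
        |x| ≤ ((U ^ κ : ℕ) : ℤ) ∧ |y| ≤ ((U ^ κ : ℕ) : ℤ) ∧ ev3 (A + u) x y F = 0 ∧
        ev3 u x y G = 0 ∧ ¬ ∃ r1 r2 : ℚ[X], ev3 X r1 r2 F = 0 ∧
          r1.eval (((A + u : ℤ)) : ℚ) = x ∧ r2.eval (((A + u : ℤ)) : ℚ) = y) → S.card ≤ c * P := by
  -- a bound for the degrees of `F`
  obtain ⟨m, hm⟩ : ∃ m, ∀ a b, ((F.coeff b).coeff a).natDegree ≤ m := by
    refine ⟨∑ b ∈ range (n + 1), ∑ a ∈ range (n + 1), ((F.coeff b).coeff a).natDegree, ?_⟩
    intro a b
    by_cases hab : n < a + b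
    · rw [hdeg a b hab, natDegree_zero]
      exact Nat.zero_le _
    · have h1 : ((F.coeff b).coeff a).natDegree ≤
          ∑ a ∈ range (n + 1), ((F.coeff b).coeff a).natDegree :=
        Finset.single_le_sum (f := fun a => ((F.coeff b).coeff a).natDegree)
          (fun _ _ => Nat.zero_le _) (mem_range.2 (by omega))
      refine h1.trans ?_
      exact Finset.single_le_sum
        (f := fun b => ∑ a ∈ range (n + 1), ((F.coeff b).coeff a).natDegree)
        (fun _ _ => Nat.zero_le _) (mem_range.2 (by omega))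
  obtain ⟨c, hc⟩ := space_points (D + n + m) κ
  refine ⟨c, ?_⟩
  intro A U P hUP G hG hG0 hGn S hS
  have hdeg' : ∀ a b, n < a + b → ((sh A F).coeff b).coeff a = 0 := by
    intro a b hab
    rw [sh_coeff, hdeg a b hab, zero_comp]
  have hlead1 : ((sh A F).coeff n).coeff 0 ≠ 0 := by
    rw [sh_coeff, Ne, shift_comp]
    exact hlead
  have hlead2 : ((sh A F).coeff 0).coeff n ≠ 0 := by
    rw [sh_coeff, Ne, shift_comp]
    exact hlead'
  have h2 : (sh A F).natDegree = n := nat_of hdeg' hlead1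
  have h3 : 1 ≤ (Bivariate.swap (sh A F)).natDegree := by
    have h4 : n ≤ (Bivariate.swap (sh A F)).natDegree := by
      refine le_natDegree_of_ne_zero ?_
      intro h
      apply hlead2
      rw [← swap_coeff, h, coeff_zero]
    omega
  have h1 := irr_frac (irrT_sh hirr A) (by omega)
  have hTD : TD (D + n + m) (D + n + m) (D + n + m) (sh A F) := by
    refine ⟨by rw [h2]; omega, fun b => ⟨?_, fun a => ?_⟩⟩
    · rw [natDegree_le_iff_coeff_eq_zero]
      intro a ha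
      exact hdeg' a b (by omega)
    · rw [sh_coeff, shift_natDegree]
      have := hm a b
      omega
  have hTG : TD (D + n + m) (D + n + m) (D + n + m) G := by
    refine ⟨hG.1.trans (by omega), fun b => ⟨(hG.2 b).1.trans (by omega), fun a => ?_⟩⟩
    exact ((hG.2 b).2 a).trans (by omega)
  refine hc U P hUP (sh A F) G hTD hTG h1 (by omega) h3 hG0 (by omega) S ?_
  intro u hu
  obtain ⟨u0, u1, x, y, hx, hy, hF0, hG00, hno⟩ := hS u hu
  refine ⟨u0, u1, x, y, hx, hy, ?_, hG00, ?_⟩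
  · rw [ev3_sh, add_comm]
    exact hF0
  · rintro ⟨r1, r2, hr, e1, e2⟩
    apply hno
    have h4 : ∀ r : ℚ[X], (r.comp (X - C (A : ℚ))).eval (((A + u : ℤ)) : ℚ) = r.eval (u : ℚ) := by
      intro r
      rw [eval_comp]
      congr 1
      simp
    refine ⟨r1.comp (X - C (A : ℚ)), r2.comp (X - C (A : ℚ)), ?_, ?_, ?_⟩
    · rw [ev3_sh] at hr
      have h5 := congrArg (compRingHom (X - C (A : ℚ))) hr
      rw [ev3_hom, map_zero] at h5
      have h6 : compRingHom (X - C (A : ℚ)) (X + ((A : ℤ) : ℚ[X])) = X := by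
        rw [map_add, map_intCast, coe_compRingHom_apply, X_comp]
        simp
      rw [h6] at h5
      exact h5
    · rw [h4, e1]
    · rw [h4, e2]

end Pool.Agent.H4.TP
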